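import Pool.Agent.H13.TA.BcN

/-!
# TA-BCG: the curve over `F'` is good

A finite field `F'` is generated by one element `θ` over `F`: power basis (`Field.powerBasisOfFiniteOfSeparable` or
`Field.exists_primitive_element`), reindexed by `Fin (finrank F F')`. `monic`, `pos`, `smooth`: `Bc0`. `dom`: `bc_dom`.
`ultra`: `em` is additive and `mx (a + b) ≤ max (mx a) (mx b)` by `h.ultra`. `const`: `mx a = 0` gives `a i` constant for
all `i` (`h.const`), so `em θ a ∈ F'`. All by `bcn` and surjectivity of `em` (`bc_bij`).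
-/

set_option autoImplicit false

open Polynomial

noncomputable section

namespace H13.TA

variable {F : Type} [Field F] {f : F[X][X]} {F' : Type} [Field F'] [Algebra F F']

theorem bcg [Finite F] [Finite F'] (h : Good f)
    (hk : ∀ p : ℕ, p.Prime → p ∣ Module.finrank F F' → f.natDegree < p) : Good (bc F' f) := by
  classical
  have hfin : Module.Finite F F' := Module.Finite.of_finite
  let pb := Field.powerBasisOfFiniteOfSeparable F F'
  have hk' : ∀ p : ℕ, p.Prime → p ∣ pb.dim → f.natDegree < p := by
    intro p hp hd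
    refine hk p hp ?_
    rw [pb.finrank]
    exact hd
  have hβ : ∀ i, pb.basis i = pb.gen ^ (i : ℕ) := fun i => pb.basis_eq_pow i
  have hdom := bc_dom h pb.gen pb.basis hβ hk'
  have hnorm := bcn h pb.gen pb.basis hβ hk'
  have hsur : ∀ y : AdjoinRoot (bc F' f), ∃ a : Fin pb.dim → AdjoinRoot f, em pb.gen a = y := by
    intro y
    obtain ⟨a, ha⟩ := (bc_bij (f := f) pb.basis).2 y
    refine ⟨a, ?_⟩
    rw [← ha]
    unfold em
    exact Finset.sum_congr rfl fun i _ => by rw [hβ]
  refine ⟨bc_monic h.monic, ?_, bc_smooth h.smooth, hdom, ?_, ?_⟩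
  · rw [bc_deg h.monic]
    exact h.pos
  · intro x y
    obtain ⟨a, rfl⟩ := hsur x
    obtain ⟨b, rfl⟩ := hsur y
    have h1 : (em pb.gen a : AdjoinRoot (bc F' f)) + em pb.gen b = em pb.gen (a + b) := by
      unfold em
      rw [← Finset.sum_add_distrib]
      refine Finset.sum_congr rfl fun i _ => ?_
      rw [Pi.add_apply, map_add, add_mul]
    rw [h1, hnorm, hnorm, hnorm]
    refine Finset.sup_le fun i _ => ?_
    refine (h.ultra (a i) (b i)).trans (max_le_max ?_ ?_)
    · exact Finset.le_sup (f := fun i => dg f (a i)) (Finset.mem_univ i)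
    · exact Finset.le_sup (f := fun i => dg f (b i)) (Finset.mem_univ i)
  · intro x hx
    obtain ⟨a, rfl⟩ := hsur x
    rw [hnorm] at hx
    have h2 : ∀ i, ∃ c : F, a i = algebraMap F (AdjoinRoot f) c := by
      intro i
      refine h.const (a i) ?_
      have h3 : dg f (a i) ≤ mx a := Finset.le_sup (f := fun i => dg f (a i)) (Finset.mem_univ i)
      omega
    choose c hc using h2
    refine ⟨∑ i, algebraMap F F' (c i) * pb.gen ^ (i : ℕ), ?_⟩
    unfold em
    rw [map_sum]
    refine Finset.sum_congr rfl fun i _ => ?_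
    rw [map_mul, hc]
    congr 1
    have h4 : algebraMap F (AdjoinRoot f) (c i) = AdjoinRoot.of f (C (c i)) := rfl
    rw [h4]
    unfold io AdjoinRoot.map
    rw [AdjoinRoot.lift_of]
    show AdjoinRoot.of (bc F' f) ((C (c i)).map (algebraMap F F')) = _
    rw [map_C]
    rfl

end H13.TA
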