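import Pool.Agent.H13.TA.Defs

/-!
# TA-BCP: points over extensions

`AlgebraicClosure F'` is an algebraic closure of `F` (`F'/F` is algebraic), so it is isomorphic to `AlgebraicClosure F` over
`F` (`IsAlgClosure.equiv`); `#F' = q ^ [F' : F]`, so the conditions `x ^ (#F') ^ r = x` and `x ^ q ^ ([F' : F] r) = x` are
the same; `ev (bc F' f) p = ev f p` for `p` over a field containing `F'`.
-/

set_option autoImplicit false

open Polynomial

noncomputable section

namespace H13.TA

variable {F : Type} [Field F] {f : F[X][X]} {F' : Type} [Field F'] [Algebra F F']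

private theorem ev_bc {E : Type} [Field E] [Algebra F E] [Algebra F' E] [IsScalarTower F F' E]
    (p : E × E) : ev (bc F' f) p = ev f p := by
  unfold ev bc
  rw [eval₂_map]
  congr 1
  refine Polynomial.ringHom_ext (fun a => ?_) ?_
  · simp only [RingHom.coe_comp, Function.comp_apply, coe_mapRingHom, map_C, RingHom.coe_coe, aeval_C]
    exact (IsScalarTower.algebraMap_apply F F' E a).symm
  · simp only [RingHom.coe_comp, Function.comp_apply, coe_mapRingHom, map_X, RingHom.coe_coe, aeval_X]

private theorem ev_map {E E' : Type} [Field E] [Field E'] [Algebra F E] [Algebra F E']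
    (e : E →ₐ[F] E') (p : E × E) : e (ev f p) = ev f (e p.1, e p.2) := by
  unfold ev
  have h1 : e (f.eval₂ ((aeval p.1 : F[X] →ₐ[F] E) : F[X] →+* E) p.2) =
      f.eval₂ ((e : E →+* E').comp ((aeval p.1 : F[X] →ₐ[F] E) : F[X] →+* E)) (e p.2) :=
    Polynomial.hom_eval₂ f _ (e : E →+* E') p.2
  rw [h1]
  congr 1
  refine Polynomial.ringHom_ext (fun a => ?_) ?_
  · simp only [RingHom.coe_comp, Function.comp_apply, RingHom.coe_coe, aeval_C, AlgHom.commutes]
  · simp only [RingHom.coe_comp, Function.comp_apply, RingHom.coe_coe, aeval_X]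

theorem bcp [Finite F] [Finite F'] (r : ℕ) :
    npt (bc F' f) r = npt f (Module.finrank F F' * r) := by
  have hfin : Module.Finite F F' := Module.Finite.of_finite
  have halg : Algebra.IsAlgebraic F F' := Algebra.IsAlgebraic.of_finite F F'
  have halg2 : Algebra.IsAlgebraic F (AlgebraicClosure F') := Algebra.IsAlgebraic.trans F F' _
  have hcl : IsAlgClosure F (AlgebraicClosure F') := ⟨inferInstance, halg2⟩
  let e : AlgebraicClosure F' ≃ₐ[F] AlgebraicClosure F := IsAlgClosure.equiv F _ _
  have hQ : Nat.card F' = Nat.card F ^ Module.finrank F F' := Module.natCard_eq_pow_finrank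
  have hQ2 : Nat.card F' ^ r = Nat.card F ^ (Module.finrank F F' * r) := by
    rw [hQ, ← pow_mul]
  unfold npt
  refine Nat.card_congr (Equiv.subtypeEquiv (Equiv.prodCongr e.toEquiv e.toEquiv) ?_)
  intro p
  have h1 : ∀ y : AlgebraicClosure F', y ^ Nat.card F' ^ r = y ↔
      (e y) ^ Nat.card F ^ (Module.finrank F F' * r) = e y := by
    intro y
    rw [hQ2, ← map_pow, e.injective.eq_iff]
  have h2 : ev (bc F' f) p = 0 ↔ ev f (e p.1, e p.2) = 0 := by
    have h3 : e (ev f p) = ev f (e p.1, e p.2) :=
      ev_map (e : AlgebraicClosure F' →ₐ[F] AlgebraicClosure F) p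
    rw [ev_bc, ← h3]
    exact (map_eq_zero_iff e e.injective).symm
  rw [h1, h1, h2]
  rfl

end H13.TA
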