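import Mathlib

/-!
# TA-PSUM: power sums determine the product

If `∑ ρ ^ r = ∑ ρ' ^ r` for all `r ≥ 1`, the polynomials `A = ∏ (1 - ρ X)` and `B = ∏ (1 - ρ' X)` satisfy
`A' B = A B'` (power series: `X A'/A = - ∑ p_r X ^ r`), `A(0) = B(0) = 1`, so `A = B` (characteristic 0: `(A/B)' = 0`, or
compare coefficients by induction). Evaluate at `1`. (Alternative: add zeros so that both have the same number of elements
and use Newton's identities.)
-/

set_option autoImplicit false

open Polynomial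

noncomputable section

namespace H13.TA

private lemma psum_indep (T : Finset ℂ) (hT : (0 : ℂ) ∉ T) (c : ℂ → ℂ)
    (h : ∀ r : ℕ, r ≠ 0 → ∑ γ ∈ T, c γ * γ ^ r = 0) : ∀ γ ∈ T, c γ = 0 := by
  have hl := (linearIndependent_monoidHom (Multiplicative ℕ) ℂ).comp (fun γ : ℂ => powersHom ℂ γ)
    (powersHom ℂ).injective
  rw [linearIndependent_iff'] at hl
  intro γ hγ
  have h2 := hl T (fun γ => c γ * γ) ?_ γ hγ
  · have h3 : γ ≠ 0 := fun h => hT (h ▸ hγ)
    exact (mul_eq_zero.1 h2).resolve_right h3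
  · funext r
    have := h (Multiplicative.toAdd r + 1) (by omega)
    simp only [Finset.sum_apply, Pi.smul_apply, Function.comp, smul_eq_mul, Pi.zero_apply, powersHom_apply]
    rw [← this]
    refine Finset.sum_congr rfl fun γ _ => ?_
    ring

theorem psum (R R' : Multiset ℂ)
    (h : ∀ r : ℕ, r ≠ 0 → (R.map fun ρ => ρ ^ r).sum = (R'.map fun ρ => ρ ^ r).sum) :
    (R.map fun ρ => 1 - ρ).prod = (R'.map fun ρ => 1 - ρ).prod := by
  classical
  set T : Finset ℂ := (R.toFinset ∪ R'.toFinset).erase 0 with hT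
  have hsum : ∀ (Q : Multiset ℂ), Q.toFinset ⊆ R.toFinset ∪ R'.toFinset → ∀ r : ℕ, r ≠ 0 →
      (Q.map fun ρ => ρ ^ r).sum = ∑ γ ∈ T, (Q.count γ : ℂ) * γ ^ r := by
    intro Q hQ r hr
    rw [Finset.sum_multiset_map_count]
    have e1 : ∑ γ ∈ T, (Q.count γ : ℂ) * γ ^ r = ∑ γ ∈ R.toFinset ∪ R'.toFinset, (Q.count γ : ℂ) * γ ^ r := by
      rw [hT]
      refine Finset.sum_erase _ ?_
      rw [zero_pow hr, mul_zero]
    rw [e1]
    refine Finset.sum_subset_zero_on_sdiff hQ ?_ ?_
    · intro γ hγ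
      rw [Finset.mem_sdiff, Multiset.mem_toFinset] at hγ
      rw [Multiset.count_eq_zero_of_notMem hγ.2]
      simp
    · intro γ _
      rw [nsmul_eq_mul]
  have hprod : ∀ (Q : Multiset ℂ), Q.toFinset ⊆ R.toFinset ∪ R'.toFinset →
      (Q.map fun ρ => 1 - ρ).prod = ∏ γ ∈ T, (1 - γ) ^ (Q.count γ) := by
    intro Q hQ
    rw [Finset.prod_multiset_map_count]
    have e1 : ∏ γ ∈ T, (1 - γ) ^ (Q.count γ) = ∏ γ ∈ R.toFinset ∪ R'.toFinset, (1 - γ) ^ (Q.count γ) := by
      rw [hT]
      refine Finset.prod_erase _ ?_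
      rw [sub_zero, one_pow]
    rw [e1]
    refine Finset.prod_subset_one_on_sdiff hQ ?_ ?_
    · intro γ hγ
      rw [Finset.mem_sdiff, Multiset.mem_toFinset] at hγ
      rw [Multiset.count_eq_zero_of_notMem hγ.2, pow_zero]
    · intro γ _
      rfl
  have hR := Finset.subset_union_left (s₁ := R.toFinset) (s₂ := R'.toFinset)
  have hR' := Finset.subset_union_right (s₁ := R.toFinset) (s₂ := R'.toFinset)
  have key := psum_indep T (by simp [hT]) (fun γ => (R.count γ : ℂ) - (R'.count γ : ℂ)) (by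
    intro r hr
    have h2 := h r hr
    rw [hsum R hR r hr, hsum R' hR' r hr] at h2
    simp only [sub_mul, Finset.sum_sub_distrib]
    rw [h2, sub_self])
  rw [hprod R hR, hprod R' hR']
  refine Finset.prod_congr rfl fun γ hγ => ?_
  have h3 := key γ hγ
  have h4 : (R.count γ : ℂ) = (R'.count γ : ℂ) := sub_eq_zero.1 h3
  have h5 : R.count γ = R'.count γ := by exact_mod_cast h4
  rw [h5]

end H13.TA
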