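import Mathlib

/-!
# TA-RESL: reduction of the resultant of `V` and `X ^ k' - 1` modulo `l`

`z = ∏ (1 - ρ ^ k')`, `k' = k l ^ j`, over the complex roots of the monic `V ∈ ℤ[X]` is the determinant of `1 - C ^ k'`,
`C` the companion matrix of `V` (or the norm of `1 - X ^ k'` in `ℤ[X]/(V)`, or a resultant). Modulo `l` it is the product of
`1 - β ^ k'` over the roots `β` of `V` in an algebraic closure of `F_l` (same formula). So some root has `β ^ k' = 1`; as
`x ↦ x ^ l` is injective, `β ^ k = 1`, and `k ∣ l - 1` gives `β ^ (l - 1) = 1`, `β ∈ F_l`.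
-/

set_option autoImplicit false

open Polynomial

noncomputable section

namespace H13.TA

private theorem res_eq {K : Type} [Field K] [IsAlgClosed K] (V : ℤ[X]) (hV : V.Monic) (φ : ℤ →+* K) (N : ℕ) :
    φ (resultant V (1 - X ^ N) V.natDegree N) = ((V.map φ).roots.map fun ρ => 1 - ρ ^ N).prod := by
  rw [← resultant_map_map]
  have h1 : (V.map φ).natDegree = V.natDegree := hV.natDegree_map φ
  have h2 := resultant_eq_prod_eval (V.map φ) ((1 - X ^ N : ℤ[X]).map φ) N ?_ (IsAlgClosed.splits _)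
  · rw [h1, (hV.map φ).leadingCoeff, one_pow, one_mul] at h2
    rw [h2]
    congr 1
    refine Multiset.map_congr rfl fun ρ _ => ?_
    simp
  · refine natDegree_map_le.trans ?_
    refine (natDegree_sub_le _ _).trans ?_
    simp

theorem resl (V : ℤ[X]) (hV : V.Monic) (l k j : ℕ) (hl : l.Prime) (hk : k ∣ l - 1) (z : ℤ)
    (hz : (z : ℂ) = ((V.aroots ℂ).map fun ρ => 1 - ρ ^ (k * l ^ j)).prod) (hlz : (l : ℤ) ∣ z) :
    ∃ b : ZMod l, (V.map (Int.castRingHom (ZMod l))).eval b = 0 ∧ b ^ k = 1 := by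
  classical
  have hfact : Fact l.Prime := ⟨hl⟩
  have hl2 := hl.two_le
  have hk0 : k ≠ 0 := by
    rintro rfl
    have := Nat.eq_zero_of_zero_dvd hk
    omega
  have hN : k * l ^ j ≠ 0 := mul_ne_zero hk0 (pow_pos hl.pos _).ne'
  have h1 := res_eq V hV (Int.castRingHom ℂ) (k * l ^ j)
  have h2 : z = resultant V (1 - X ^ (k * l ^ j)) V.natDegree (k * l ^ j) := by
    have h3 : (z : ℂ) = ((resultant V (1 - X ^ (k * l ^ j)) V.natDegree (k * l ^ j) : ℤ) : ℂ) := by
      rw [hz]
      exact h1.symm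
    exact_mod_cast h3
  have h4 := res_eq V hV (Int.castRingHom (AlgebraicClosure (ZMod l))) (k * l ^ j)
  rw [← h2] at h4
  have h5 : (Int.castRingHom (AlgebraicClosure (ZMod l))) z = 0 := by
    have : CharP (AlgebraicClosure (ZMod l)) l := charP_of_injective_algebraMap' (ZMod l) l
    rw [eq_intCast, CharP.intCast_eq_zero_iff _ l]
    exact hlz
  rw [h5] at h4
  have h6 := Multiset.prod_eq_zero_iff.1 h4.symm
  rw [Multiset.mem_map] at h6
  obtain ⟨β, hβ, hβ1⟩ := h6
  have : CharP (AlgebraicClosure (ZMod l)) l := charP_of_injective_algebraMap' (ZMod l) l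
  have : ExpChar (AlgebraicClosure (ZMod l)) l := ExpChar.prime hl
  have h7 : β ^ k = 1 := by
    have h8 : β ^ (l ^ j * k) = 1 := by
      rw [mul_comm]
      exact (sub_eq_zero.1 hβ1).symm
    exact (ExpChar.pow_prime_pow_mul_eq_one_iff l j k β).1 h8
  have h9 : β ^ l = β := by
    obtain ⟨m, hm⟩ := hk
    have : β ^ (l - 1) = 1 := by rw [hm, pow_mul, h7, one_pow]
    calc β ^ l = β ^ (l - 1) * β := by rw [← pow_succ, Nat.sub_add_cancel hl.one_le]
      _ = β := by rw [this, one_mul]
  have h10 : ∃ b : ZMod l, algebraMap (ZMod l) (AlgebraicClosure (ZMod l)) b = β := by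
    have e1 : (X ^ Fintype.card (ZMod l) - X : (ZMod l)[X]).roots = Finset.univ.val :=
      FiniteField.roots_X_pow_card_sub_X (ZMod l)
    have e2 : (X ^ Fintype.card (ZMod l) - X : (ZMod l)[X]) ≠ 0 :=
      FiniteField.X_pow_card_sub_X_ne_zero (ZMod l) (by rw [ZMod.card]; omega)
    have e3 : Multiset.card (X ^ Fintype.card (ZMod l) - X : (ZMod l)[X]).roots =
        (X ^ Fintype.card (ZMod l) - X : (ZMod l)[X]).natDegree := by
      rw [e1, FiniteField.X_pow_card_sub_X_natDegree_eq _ (by rw [ZMod.card]; omega)]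
      simp
    have e4 := roots_map_of_injective_of_card_eq_natDegree
      (algebraMap (ZMod l) (AlgebraicClosure (ZMod l))).injective e3
    have e5 : β ∈ ((X ^ Fintype.card (ZMod l) - X : (ZMod l)[X]).map
        (algebraMap (ZMod l) (AlgebraicClosure (ZMod l)))).roots := by
      rw [mem_roots (by
        rw [Ne, Polynomial.map_eq_zero]
        exact e2)]
      simp [h9, ZMod.card]
    rw [← e4, Multiset.mem_map] at e5
    obtain ⟨b, -, hb⟩ := e5
    exact ⟨b, hb⟩
  obtain ⟨b, hb⟩ := h10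
  refine ⟨b, ?_, ?_⟩
  · have hβ2 := isRoot_of_mem_roots hβ
    apply (algebraMap (ZMod l) (AlgebraicClosure (ZMod l))).injective
    have h11 : eval β (map (Int.castRingHom (AlgebraicClosure (ZMod l))) V) = 0 := hβ2
    rw [map_zero, ← h11, eval_map, eval_map, hom_eval₂, hb]
    congr 1
  · apply (algebraMap (ZMod l) (AlgebraicClosure (ZMod l))).injective
    rw [map_pow, hb, h7, map_one]

end H13.TA
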