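import Mathlib

/-!
# TA-FORMA: the numerator

`w_n = a_n - q ^ m a_(n - m)` (`= a_n` for `n < m`). Subtract `hrat` at `N` and `N - 1`: `a_(N + m) = q ^ m a_N` for
`N > N0`, so `w_n = 0` for large `n` and `W = ∑ w_n X ^ n` is a polynomial. `W(1) = ∑_(n ≤ N + m) w_n
= ∑_(n ≤ N + m) a_n - q ^ m ∑_(n ≤ N) a_n` for large `N`, so `(q - 1) W(1) = h (q ^ m - 1)` by `hrat`. And
`W(1/q) = ∑_(n ≤ N + m) w_n q ^ (-n) = ∑_(N < n ≤ N + m) a_n q ^ (-n) > 0` as one of these `m` numbers `n` is `r m`.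
-/

set_option autoImplicit false

open Polynomial

noncomputable section

namespace H13.TA

theorem formA (q m h : ℕ) (hq : 2 ≤ q) (hm : m ≠ 0) (a : ℕ → ℕ)
    (hrat : ∃ N0, ∀ N ≥ N0, (q - 1) * (∑ n ∈ Finset.range (N + m + 1), a n) + h =
      q ^ m * ((q - 1) * (∑ n ∈ Finset.range (N + 1), a n) + h))
    (hpos : ∀ r, 1 ≤ a (r * m)) :
    ∃ W : ℤ[X], (∀ n, W.coeff n = (a n : ℤ) - if m ≤ n then (q : ℤ) ^ m * a (n - m) else 0) ∧
      ((q : ℤ) - 1) * W.eval 1 = h * ((q : ℤ) ^ m - 1) ∧ (0 : ℝ) < aeval ((q : ℝ)⁻¹) W := by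
  obtain ⟨N0, hN⟩ := hrat
  obtain ⟨w, hw⟩ : ∃ w : ℕ → ℤ, ∀ n, w n = (a n : ℤ) - if m ≤ n then (q : ℤ) ^ m * a (n - m) else 0 :=
    ⟨_, fun _ => rfl⟩
  have hZ : ∀ N ≥ N0, ((q : ℤ) - 1) * ((∑ n ∈ Finset.range (N + m + 1), (a n : ℤ)) -
      (q : ℤ) ^ m * ∑ n ∈ Finset.range (N + 1), (a n : ℤ)) = h * ((q : ℤ) ^ m - 1) := by
    intro N hN'
    have h1 := hN N hN'
    have h2 : ((q - 1 : ℕ) : ℤ) = (q : ℤ) - 1 := by
      rw [Nat.cast_sub (by omega)]
      simp
    have h3 : (((q - 1) * (∑ n ∈ Finset.range (N + m + 1), a n) + h : ℕ) : ℤ) =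
      ((q ^ m * ((q - 1) * (∑ n ∈ Finset.range (N + 1), a n) + h) : ℕ) : ℤ) := by rw [h1]
    rw [Nat.cast_add, Nat.cast_mul, Nat.cast_mul, Nat.cast_add, Nat.cast_mul, h2] at h3
    push_cast at h3
    linear_combination h3
  have hq0 : (q : ℤ) - 1 ≠ 0 := by omega
  have hstep : ∀ N ≥ N0 + 1, (a (N + m) : ℤ) = (q : ℤ) ^ m * a N := by
    intro N hN'
    obtain ⟨M, rfl⟩ : ∃ M, N = M + 1 := ⟨N - 1, by omega⟩
    have h1 := hZ M (by omega)
    have h2 := hZ (M + 1) (by omega)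
    rw [show M + 1 + m + 1 = (M + m + 1) + 1 by ring, Finset.sum_range_succ _ (M + m + 1),
      Finset.sum_range_succ _ (M + 1)] at h2
    have h3 : ((q : ℤ) - 1) * ((a (M + m + 1) : ℤ) - (q : ℤ) ^ m * a (M + 1)) = 0 := by
      linear_combination h2 - h1
    rcases mul_eq_zero.1 h3 with h4 | h4
    · exact absurd h4 hq0
    · rw [show M + 1 + m = M + m + 1 by ring]
      linarith
  have hw0 : ∀ n, m + (N0 + 1) ≤ n → w n = 0 := by
    intro n hn
    rw [hw, if_pos (by omega)]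
    have h1 := hstep (n - m) (by omega)
    rw [Nat.sub_add_cancel (by omega)] at h1
    rw [h1, sub_self]
  have hcoef : ∀ n, (∑ i ∈ Finset.range (m + (N0 + 1)), monomial i (w i) : ℤ[X]).coeff n = w n := by
    intro n
    rw [finsetSum_coeff]
    simp only [coeff_monomial]
    rw [Finset.sum_ite_eq']
    split_ifs with h1
    · rfl
    · rw [Finset.mem_range, not_lt] at h1
      exact (hw0 n h1).symm
  refine ⟨∑ i ∈ Finset.range (m + (N0 + 1)), monomial i (w i), fun n => (hcoef n).trans (hw n), ?_, ?_⟩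
  · rw [eval_finsetSum]
    simp only [eval_monomial, one_pow, mul_one]
    have h1 : ∑ i ∈ Finset.range (m + (N0 + 1)), w i = (∑ n ∈ Finset.range (N0 + m + 1), (a n : ℤ)) -
        (q : ℤ) ^ m * ∑ n ∈ Finset.range (N0 + 1), (a n : ℤ) := by
      simp only [hw]
      rw [Finset.sum_sub_distrib, show N0 + m + 1 = m + (N0 + 1) by ring]
      congr 1
      rw [Finset.sum_range_add, Finset.sum_eq_zero, zero_add, Finset.mul_sum]
      · refine Finset.sum_congr rfl fun j _ => ?_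
        rw [if_pos (by omega), Nat.add_sub_cancel_left]
      · intro j hj
        rw [Finset.mem_range] at hj
        rw [if_neg (by omega)]
    rw [h1]
    exact hZ N0 le_rfl
  · rw [map_sum]
    simp only [aeval_monomial]
    have hqR : (q : ℝ) ≠ 0 := by
      have : (2 : ℝ) ≤ q := by exact_mod_cast hq
      positivity
    have h1 : ∑ i ∈ Finset.range (m + (N0 + 1)), (algebraMap ℤ ℝ) (w i) * (q : ℝ)⁻¹ ^ i =
        ∑ j ∈ Finset.range m, (a (N0 + 1 + j) : ℝ) * (q : ℝ)⁻¹ ^ (N0 + 1 + j) := by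
      have h2 : ∑ i ∈ Finset.range (m + (N0 + 1)), (algebraMap ℤ ℝ) (w i) * (q : ℝ)⁻¹ ^ i =
          (∑ i ∈ Finset.range (m + (N0 + 1)), (a i : ℝ) * (q : ℝ)⁻¹ ^ i) -
          ∑ i ∈ Finset.range (m + (N0 + 1)), (if m ≤ i then (q : ℝ) ^ m * a (i - m) else 0) * (q : ℝ)⁻¹ ^ i := by
        rw [← Finset.sum_sub_distrib]
        refine Finset.sum_congr rfl fun i _ => ?_
        rw [hw, eq_intCast]
        push_cast
        split_ifs <;> ring
      have h3 : ∑ i ∈ Finset.range (m + (N0 + 1)), (if m ≤ i then (q : ℝ) ^ m * a (i - m) else 0) * (q : ℝ)⁻¹ ^ i =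
          ∑ j ∈ Finset.range (N0 + 1), (a j : ℝ) * (q : ℝ)⁻¹ ^ j := by
        rw [Finset.sum_range_add, Finset.sum_eq_zero, zero_add]
        · refine Finset.sum_congr rfl fun j _ => ?_
          rw [if_pos (by omega), Nat.add_sub_cancel_left, pow_add]
          have h4 : (q : ℝ) ^ m * (q : ℝ)⁻¹ ^ m = 1 := by
            rw [← mul_pow, mul_inv_cancel₀ hqR, one_pow]
          linear_combination (a j : ℝ) * (q : ℝ)⁻¹ ^ j * h4
        · intro j hj
          rw [Finset.mem_range] at hj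
          rw [if_neg (by omega), zero_mul]
      rw [h2, h3, show m + (N0 + 1) = (N0 + 1) + m by ring, Finset.sum_range_add]
      ring
    rw [h1]
    obtain ⟨r, hr⟩ : ∃ r, r = (N0 + 1 + m - 1) / m := ⟨_, rfl⟩
    have hmpos : 0 < m := Nat.pos_of_ne_zero hm
    have hr1 : r * m ≤ N0 + 1 + m - 1 := by
      rw [hr]
      exact Nat.div_mul_le_self _ _
    have hr2 : N0 + 1 + m - 1 < r * m + m := by
      rw [hr]
      exact Nat.lt_div_mul_add hmpos
    refine Finset.sum_pos' (fun j _ => by positivity) ⟨r * m - (N0 + 1), ?_, ?_⟩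
    · rw [Finset.mem_range]
      omega
    · have h5 : N0 + 1 + (r * m - (N0 + 1)) = r * m := by omega
      rw [h5]
      have h6 : (1 : ℝ) ≤ a (r * m) := by exact_mod_cast hpos r
      positivity

end H13.TA
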