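import Mathlib

/-!
# TA-FORMB: power sums from the recursion

Power series over `ℂ`: `A = ∑ a_n T ^ n`, `a_0 = 1`, `T A' = A ∑_(r ≥ 1) ν_r T ^ r` (`hrec`), `W = (1 - (q T) ^ m) A`
(`hW`). `W(0) = 1`, so `W = ∏ (1 - ρ T)` over the roots `ρ` of the monic polynomial `W.reverse` (all nonzero; note that the
degree of `W.reverse` is that of `W`). Compare `T W'/W = - ∑_r (∑ ρ ^ r) T ^ r` with
`T W'/W = ∑ ν_r T ^ r - ∑_(m ∣ r) m q ^ r T ^ r`.
-/

set_option autoImplicit false

open Polynomial

noncomputable section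

namespace H13.TA

private def FbL (f g : PowerSeries ℂ) : Prop := PowerSeries.X * PowerSeries.derivative ℂ f = f * g

private lemma fb_mul {f g f' g' : PowerSeries ℂ} (h : FbL f g) (h' : FbL f' g') : FbL (f * f') (g + g') := by
  unfold FbL at *
  rw [Derivation.leibniz, smul_eq_mul, smul_eq_mul]
  linear_combination f' * h + f * h'

private lemma fb_coeff (f : PowerSeries ℂ) (n : ℕ) :
    PowerSeries.coeff n (PowerSeries.X * PowerSeries.derivative ℂ f) = n * PowerSeries.coeff n f := by
  cases n with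
  | zero => simp
  | succ n =>
    rw [PowerSeries.coeff_succ_X_mul, PowerSeries.coeff_derivative]
    push_cast
    ring

private lemma fb_base (c : ℂ) (k : ℕ) (hk : k ≠ 0) : FbL (1 - PowerSeries.C c * PowerSeries.X ^ k)
    (PowerSeries.mk fun r => if r ≠ 0 ∧ k ∣ r then -((k : ℂ) * c ^ (r / k)) else 0) := by
  unfold FbL
  ext n
  rw [fb_coeff, sub_mul, one_mul, map_sub, map_sub, mul_assoc, PowerSeries.coeff_C_mul, PowerSeries.coeff_C_mul,
    PowerSeries.coeff_X_pow_mul', PowerSeries.coeff_X_pow, PowerSeries.coeff_one, PowerSeries.coeff_mk]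
  rcases lt_trichotomy n k with h | h | h
  · rw [if_neg (by omega : ¬ k ≤ n), if_neg (by omega : ¬ n = k)]
    have h1 : ¬ (n ≠ 0 ∧ k ∣ n) := fun h2 => absurd (Nat.le_of_dvd (Nat.pos_of_ne_zero h2.1) h2.2) (by omega)
    rw [if_neg h1]
    rcases Nat.eq_zero_or_pos n with h0 | h0
    · subst h0
      simp
    · rw [if_neg (by omega : ¬ n = 0)]
      simp
  · subst h
    rw [if_neg hk, if_pos rfl, if_pos ⟨hk, dvd_rfl⟩, if_pos le_rfl, Nat.sub_self, PowerSeries.coeff_mk, if_neg (by simp),
      Nat.div_self (Nat.pos_of_ne_zero hk)]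
    ring
  · rw [if_neg (by omega : ¬ n = 0), if_neg (by omega : ¬ n = k), if_pos (by omega : k ≤ n), PowerSeries.coeff_mk]
    by_cases hd : k ∣ n
    · rw [if_pos ⟨by omega, hd⟩, if_pos ⟨by omega, (Nat.dvd_sub hd dvd_rfl)⟩]
      have h2 : n / k = (n - k) / k + 1 := by
        have := Nat.add_div_right (n - k) (Nat.pos_of_ne_zero hk)
        rw [Nat.sub_add_cancel h.le] at this
        exact this
      rw [h2, pow_succ]
      ring
    · rw [if_neg (fun h2 => hd h2.2), if_neg (fun h2 => hd ((Nat.dvd_sub_iff_left h.le dvd_rfl).1 h2.2))]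
      ring

private lemma fb_multi (R : Multiset ℂ) : FbL ((R.map fun ρ => 1 - PowerSeries.C ρ * PowerSeries.X).prod)
    (PowerSeries.mk fun r => if r ≠ 0 then -(R.map fun ρ => ρ ^ r).sum else 0) := by
  induction R using Multiset.induction_on with
  | empty =>
    unfold FbL
    ext n
    rw [fb_coeff]
    simp only [Multiset.map_zero, Multiset.prod_zero, Multiset.sum_zero, neg_zero, ite_self, one_mul,
      PowerSeries.coeff_mk, PowerSeries.coeff_one]
    rcases Nat.eq_zero_or_pos n with h0 | h0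
    · subst h0
      simp
    · rw [if_neg (by omega : ¬ n = 0), mul_zero]
  | cons ρ R ih =>
    have h1 := fb_base ρ 1 one_ne_zero
    rw [pow_one] at h1
    have h2 := fb_mul h1 ih
    rw [Multiset.map_cons, Multiset.prod_cons]
    have h3 : (PowerSeries.mk fun r => if r ≠ 0 then -((ρ ::ₘ R).map fun ρ => ρ ^ r).sum else 0 : PowerSeries ℂ) =
        (PowerSeries.mk fun r => if r ≠ 0 ∧ 1 ∣ r then -(((1 : ℕ) : ℂ) * ρ ^ (r / 1)) else 0) +
        (PowerSeries.mk fun r => if r ≠ 0 then -(R.map fun ρ => ρ ^ r).sum else 0) := by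
      ext n
      rw [map_add, PowerSeries.coeff_mk, PowerSeries.coeff_mk, PowerSeries.coeff_mk]
      rcases Nat.eq_zero_or_pos n with h0 | h0
      · subst h0
        simp
      · rw [if_pos (by omega : n ≠ 0), if_pos ⟨(by omega : n ≠ 0), one_dvd _⟩, if_pos (by omega : n ≠ 0)]
        rw [Multiset.map_cons, Multiset.sum_cons, Nat.div_one]
        push_cast
        ring
    rw [h3]
    exact h2

private lemma fb_rev (R : Multiset ℂ) :
    ((R.map fun ρ => (X - C ρ : ℂ[X])).prod).reverse = (R.map fun ρ => (1 - C ρ * X : ℂ[X])).prod := by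
  induction R using Multiset.induction_on with
  | empty =>
    rw [Multiset.map_zero, Multiset.prod_zero, Multiset.map_zero, Multiset.prod_zero]
    have := reverse_C (1 : ℂ)
    rw [C_1] at this
    exact this
  | cons ρ R ih =>
    rw [Multiset.map_cons, Multiset.prod_cons, Multiset.map_cons, Multiset.prod_cons, reverse_mul_of_domain, ih]
    congr 1
    have h1 : (X - C ρ : ℂ[X]) = X + C (-ρ) := by rw [C_neg, sub_eq_add_neg]
    rw [h1, reverse_add_C, natDegree_X, pow_one]
    have h2 : (X : ℂ[X]).reverse = 1 := by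
      have h3 := reverse_mul_X (1 : ℂ[X])
      rw [one_mul] at h3
      rw [h3]
      have := reverse_C (1 : ℂ)
      rw [C_1] at this
      exact this
    rw [h2, C_neg]
    ring

theorem formB (q m : ℕ) (hq : 2 ≤ q) (hm : m ≠ 0) (a ν : ℕ → ℕ) (ha0 : a 0 = 1)
    (hrec : ∀ n, n * a n = ∑ r ∈ Finset.Icc 1 n, ν r * a (n - r)) (W : ℤ[X])
    (hW : ∀ n, W.coeff n = (a n : ℤ) - if m ≤ n then (q : ℤ) ^ m * a (n - m) else 0)
    {r : ℕ} (hr : r ≠ 0) :
    (ν r : ℂ) = (if m ∣ r then (m : ℂ) * (q : ℂ) ^ r else 0) -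
      ((W.reverse.aroots ℂ).map fun ρ => ρ ^ r).sum := by
  set R := W.reverse.aroots ℂ with hR
  have hW0 : W.coeff 0 = 1 := by
    rw [hW 0, ha0, if_neg (by omega)]
    simp
  have hWne : W ≠ 0 := by
    rintro rfl
    simp at hW0
  have htd : W.natTrailingDegree = 0 := by
    rw [natTrailingDegree_eq_zero]
    right
    rw [hW0]
    exact one_ne_zero
  have hmon : W.reverse.Monic := by
    rw [Monic, reverse_leadingCoeff, trailingCoeff, htd, hW0]
  have hrr : W.reverse.reverse = W := by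
    have h1 : W.reverse.natDegree = W.natDegree := by
      rw [reverse_natDegree, htd, Nat.sub_zero]
    rw [reverse, h1, reverse, reflect_reflect]
  have hinj : Function.Injective (algebraMap ℤ ℂ) := (algebraMap ℤ ℂ).injective_int
  have hmap : W.map (algebraMap ℤ ℂ) = (R.map fun ρ => (1 - C ρ * X : ℂ[X])).prod := by
    rw [← fb_rev]
    have h1 : W.reverse.map (algebraMap ℤ ℂ) = (R.map fun ρ => (X - C ρ : ℂ[X])).prod := by
      have := (IsAlgClosed.splits (W.reverse.map (algebraMap ℤ ℂ))).eq_prod_roots_of_monic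
        (hmon.map (algebraMap ℤ ℂ))
      exact this
    have h2 : ∀ p : ℤ[X], p.reverse.map (algebraMap ℤ ℂ) = (p.map (algebraMap ℤ ℂ)).reverse := by
      intro p
      unfold reverse
      rw [reflect_map, natDegree_map_eq_of_injective hinj]
    rw [← h1, ← h2, hrr]
  set Wp : PowerSeries ℂ := ((W.map (algebraMap ℤ ℂ) : ℂ[X]) : PowerSeries ℂ) with hWp
  have hWp2 : Wp = (R.map fun ρ => 1 - PowerSeries.C ρ * PowerSeries.X).prod := by
    rw [hWp, hmap]
    have h1 := map_multiset_prod (Polynomial.coeToPowerSeries.ringHom (R := ℂ))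
      (R.map fun ρ => (1 - C ρ * X : ℂ[X]))
    rw [Multiset.map_map] at h1
    have h2 : ((R.map fun ρ => (1 - C ρ * X : ℂ[X])).prod : PowerSeries ℂ) =
        Polynomial.coeToPowerSeries.ringHom (R := ℂ) (R.map fun ρ => (1 - C ρ * X : ℂ[X])).prod := rfl
    rw [h2, h1]
    congr 1
    refine Multiset.map_congr rfl fun ρ _ => ?_
    simp
  set A : PowerSeries ℂ := PowerSeries.mk fun n => (a n : ℂ) with hA
  have hWA : Wp = (1 - PowerSeries.C ((q : ℂ) ^ m) * PowerSeries.X ^ m) * A := by
    ext n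
    rw [hWp, Polynomial.coeff_coe, coeff_map, hW n, sub_mul, one_mul, map_sub, map_sub, mul_assoc, PowerSeries.coeff_C_mul,
      PowerSeries.coeff_X_pow_mul', hA, PowerSeries.coeff_mk, PowerSeries.coeff_mk]
    split_ifs
    · simp
    · simp
  have hLA : FbL A (PowerSeries.mk fun n => if n ≠ 0 then (ν n : ℂ) else 0) := by
    unfold FbL
    ext n
    rw [fb_coeff, hA, PowerSeries.coeff_mk, mul_comm (PowerSeries.mk _), PowerSeries.coeff_mul]
    have h1 : (n : ℂ) * (a n : ℂ) = ∑ r ∈ Finset.Icc 1 n, (ν r : ℂ) * (a (n - r) : ℂ) := by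
      exact_mod_cast hrec n
    rw [h1]
    rw [Finset.Nat.sum_antidiagonal_eq_sum_range_succ_mk]
    simp only [PowerSeries.coeff_mk]
    rw [Finset.sum_range_succ']
    simp only [ne_eq, not_true_eq_false, if_false, zero_mul, add_zero]
    have h2 : Finset.Icc 1 n = Finset.Ico (0 + 1) (n + 1) := by
      ext i
      simp only [Finset.mem_Icc, Finset.mem_Ico]
      omega
    rw [h2, ← Finset.sum_Ico_add', ← Finset.range_eq_Ico]
    refine Finset.sum_congr rfl fun i _ => ?_
    rw [if_pos (by omega : ¬ i + 1 = 0)]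
  have hL1 := fb_mul (fb_base ((q : ℂ) ^ m) m hm) hLA
  rw [← hWA] at hL1
  have hL2 := fb_multi R
  rw [← hWp2] at hL2
  have hWpne : Wp ≠ 0 := by
    intro h0
    have := congrArg (PowerSeries.coeff 0) h0
    rw [hWp, Polynomial.coeff_coe, coeff_map, hW0] at this
    simp at this
  have h3 := mul_left_cancel₀ hWpne (hL1.symm.trans hL2)
  have h4 := congrArg (PowerSeries.coeff r) h3
  rw [map_add, PowerSeries.coeff_mk, PowerSeries.coeff_mk, PowerSeries.coeff_mk, if_pos hr, if_pos hr] at h4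
  by_cases hd : m ∣ r
  · rw [if_pos ⟨hr, hd⟩, ← pow_mul, Nat.mul_div_cancel' hd] at h4
    rw [if_pos hd]
    linear_combination h4
  · rw [if_neg (fun h => hd h.2)] at h4
    rw [if_neg hd]
    linear_combination h4

end H13.TA
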