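import Pool.Agent.H13.TA.Idg

/-!
# TA-IDF: finitely many ideals of bounded degree

If `ideg I = d ≤ n`, multiplication by `t` on `O/I` has a characteristic polynomial `χ ∈ F[t]` of degree `d`, monic, and
`χ(t) ∈ I` (Cayley-Hamilton), `χ ≠ 0`. So `I` is an ideal containing one of finitely many nonzero elements `χ(t)`, and the
ideals above a nonzero element `c` correspond to the ideals of the finite ring `O/(c)`.
-/

set_option autoImplicit false

open Polynomial

noncomputable section

namespace H13.TA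

variable {F : Type} [Field F] {f : F[X][X]}

private theorem fin_above [Finite F] (hf : f.Monic) [IsDomain (AdjoinRoot f)]
    {c : AdjoinRoot f} (hc : c ≠ 0) : {I : Ideal (AdjoinRoot f) | c ∈ I}.Finite := by
  have hne : Ideal.span {c} ≠ ⊥ := by
    intro h
    exact hc (Ideal.span_singleton_eq_bot.1 h)
  have hfin : Finite (AdjoinRoot f ⧸ Ideal.span {c}) := (card_quot hf hne).1
  have hfinI : Finite (Ideal (AdjoinRoot f ⧸ Ideal.span {c})) :=
    Finite.of_injective (fun I => (I : Set (AdjoinRoot f ⧸ Ideal.span {c}))) SetLike.coe_injective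
  refine Set.Finite.of_finite_image
    (f := fun I : Ideal (AdjoinRoot f) => I.map (Ideal.Quotient.mk (Ideal.span {c})))
    (Set.toFinite _) ?_
  intro I hI J hJ hIJ
  have h1 : ∀ K : Ideal (AdjoinRoot f), c ∈ K →
      (K.map (Ideal.Quotient.mk (Ideal.span {c}))).comap (Ideal.Quotient.mk (Ideal.span {c})) =
        K := by
    intro K hK
    rw [Ideal.comap_map_of_surjective' _ Ideal.Quotient.mk_surjective, Ideal.mk_ker]
    exact sup_eq_left.2 ((Ideal.span_singleton_le_iff_mem K).2 hK)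
  rw [← h1 I hI, ← h1 J hJ]
  exact congrArg _ hIJ

theorem fin_ideg [Finite F] (hf : f.Monic) [IsDomain (AdjoinRoot f)] (n : ℕ) :
    {I : Ideal (AdjoinRoot f) | I ≠ ⊥ ∧ ideg f I ≤ n}.Finite := by
  classical
  have hfree : Module.Free F[X] (AdjoinRoot f) :=
    Module.Free.of_basis (AdjoinRoot.powerBasis' hf).basis
  have hinj : Function.Injective (algebraMap F[X] (AdjoinRoot f)) :=
    FaithfulSMul.algebraMap_injective F[X] (AdjoinRoot f)
  have hcover : {I : Ideal (AdjoinRoot f) | I ≠ ⊥ ∧ ideg f I ≤ n} ⊆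
      ⋃ p ∈ {p : ℕ × ℕ | p.1 < p.2 ∧ p.2 ≤ Nat.card F ^ n},
        {I : Ideal (AdjoinRoot f) | algebraMap F[X] (AdjoinRoot f) (X ^ p.1 - X ^ p.2) ∈ I} := by
    rintro I ⟨hI, hn⟩
    obtain ⟨hfin, hcard⟩ := card_quot hf hI
    have hq : 0 < Nat.card F := Nat.card_pos
    have hle : Nat.card (AdjoinRoot f ⧸ I) ≤ Nat.card F ^ n := by
      rw [hcard]
      exact Nat.pow_le_pow_right hq hn
    have hft : Fintype (AdjoinRoot f ⧸ I) := Fintype.ofFinite _
    -- pigeonhole on the powers of `t`
    obtain ⟨i, hi, j, hj, hij, heq⟩ := Finset.exists_ne_map_eq_of_card_lt_of_maps_to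
      (s := Finset.range (Nat.card F ^ n + 1)) (t := (Finset.univ : Finset (AdjoinRoot f ⧸ I)))
      (f := fun i => Ideal.Quotient.mk I (algebraMap F[X] (AdjoinRoot f) (X ^ i)))
      (by
        rw [Finset.card_range, Finset.card_univ, ← Nat.card_eq_fintype_card]
        omega) (fun _ _ => Finset.mem_univ _)
    rw [Finset.mem_range] at hi hj
    have hmem : ∀ i j : ℕ, Ideal.Quotient.mk I (algebraMap F[X] (AdjoinRoot f) (X ^ i)) =
        Ideal.Quotient.mk I (algebraMap F[X] (AdjoinRoot f) (X ^ j)) →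
        algebraMap F[X] (AdjoinRoot f) (X ^ i - X ^ j) ∈ I := by
      intro i j h
      rw [map_sub]
      exact Ideal.Quotient.eq.1 h
    rcases lt_or_gt_of_ne hij with hlt | hlt
    · exact Set.mem_biUnion (x := (i, j)) ⟨hlt, by omega⟩ (hmem i j heq)
    · exact Set.mem_biUnion (x := (j, i)) ⟨hlt, by omega⟩ (hmem j i heq.symm)
  refine Set.Finite.subset (Set.Finite.biUnion ?_ ?_) hcover
  · refine Set.Finite.subset (Set.finite_Iic (Nat.card F ^ n, Nat.card F ^ n)) ?_
    rintro ⟨a, b⟩ ⟨h1, h2⟩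
    exact ⟨by simp only at h1 h2 ⊢; omega, h2⟩
  · rintro ⟨a, b⟩ ⟨h1, h2⟩
    refine fin_above hf ?_
    intro h0
    rw [← map_zero (algebraMap F[X] (AdjoinRoot f))] at h0
    have h3 := sub_eq_zero.1 (hinj h0)
    have h4 := congrArg natDegree h3
    simp only [natDegree_X_pow] at h4
    omega

end H13.TA
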