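import Mathlib

/-!
# TA-PTA: homomorphisms of a finite field into an algebraic closure

`q = #F`, `d = [k : F]`. There are `d` homomorphisms `φ : k → Ω` over `F` (`k/F` is separable and normal). All of them have
the image `{y : y ^ q ^ d = y}`. If `d ∣ r`, all are fixed by `y ↦ y ^ q ^ r`. If `φ` is fixed, the image, a field with
`q ^ d` elements, is contained in the field of the `q ^ r` solutions of `y ^ q ^ r = y`, which has degree `r` over `F`; so
`d ∣ r` (`FiniteField...`, or: the Frobenius `y ↦ y ^ q` generates the cyclic group `Gal(k/F)` of order `d`, so its `r`-th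
power is trivial iff `d ∣ r`).
-/

set_option autoImplicit false

open Polynomial

noncomputable section

namespace H13.TA

theorem homs (F : Type) [Field F] [Finite F] (k : Type) [Field k] [Algebra F k] [Module.Finite F k]
    (r : ℕ) : Nat.card {φ : k →ₐ[F] AlgebraicClosure F // ∀ x, φ x ^ Nat.card F ^ r = φ x} =
      if Module.finrank F k ∣ r then Module.finrank F k else 0 := by
  classical
  have := Fintype.ofFinite F
  have : Finite k := Module.finite_of_finite F
  have h1 : ∀ φ : k →ₐ[F] AlgebraicClosure F, (∀ x, φ x ^ Nat.card F ^ r = φ x) ↔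
      Module.finrank F k ∣ r := by
    intro φ
    rw [← FiniteField.orderOf_frobeniusAlgHom F k, orderOf_dvd_iff_pow_eq_one]
    have e1 : ∀ x, (FiniteField.frobeniusAlgHom F k ^ r) x = x ^ (Nat.card F ^ r) := by
      intro x
      rw [AlgHom.coe_pow, FiniteField.coe_frobeniusAlgHom, pow_iterate, Nat.card_eq_fintype_card]
    constructor
    · intro h
      refine AlgHom.ext fun x => ?_
      have e2 : φ ((FiniteField.frobeniusAlgHom F k ^ r) x) = φ x := by
        rw [e1, map_pow, h]
      exact φ.toRingHom.injective e2
    · intro h x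
      rw [← map_pow, ← e1, h]
      rfl
  by_cases h : Module.finrank F k ∣ r
  · rw [if_pos h]
    have e1 : Nat.card {φ : k →ₐ[F] AlgebraicClosure F // ∀ x, φ x ^ Nat.card F ^ r = φ x} =
        Nat.card (k →ₐ[F] AlgebraicClosure F) := by
      refine Nat.card_congr (Equiv.subtypeUnivEquiv fun φ => (h1 φ).2 h)
    rw [e1, Nat.card_eq_fintype_card]
    exact AlgHom.card F k (AlgebraicClosure F)
  · rw [if_neg h]
    rw [Nat.card_eq_zero]
    left
    exact ⟨fun φ => h ((h1 φ.1).1 φ.2)⟩

end H13.TA
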