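import Pool.Agent.H13.TA.Idg
import Pool.Agent.H13.TA.IdF
import Pool.Agent.H13.TA.PtA

/-!
# TA-PTB: points and primes

A point `p` of `f = 0` over `Ω = AlgebraicClosure F` is the same as an `F`-homomorphism `φ : O → Ω` (`φ t = p.1`,
`φ x = p.2`; `AdjoinRoot.lift`). Its coordinates are fixed by `y ↦ y ^ q ^ r` iff `φ` is (`O` is generated by `t`, `x`). If
`r ≥ 1` the image of such a `φ` is in a finite field, `O` is infinite, so the kernel `P` is a nonzero prime, `O/P` a finite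
domain, a field of degree `ideg P` over `F`. The homomorphisms with kernel `P` are the homomorphisms of `O/P` (injective).
`homs` and `fin_ideg`.
-/

set_option autoImplicit false

open Polynomial

noncomputable section

namespace H13.TA

variable {F : Type} [Field F] {f : F[X][X]}

private theorem frob_apply (F : Type) [Field F] [Fintype F] (Ω : Type) [Field Ω] [Algebra F Ω]
    (r : ℕ) (x : Ω) : (FiniteField.frobeniusAlgHom F Ω ^ r) x = x ^ (Nat.card F ^ r) := by
  rw [AlgHom.coe_pow, FiniteField.coe_frobeniusAlgHom, pow_iterate, Nat.card_eq_fintype_card]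

private theorem hom_aeval (φ : AdjoinRoot f →ₐ[F] AlgebraicClosure F) :
    (aeval (φ (algebraMap F[X] (AdjoinRoot f) X)) : F[X] →ₐ[F] AlgebraicClosure F) =
      φ.comp (AdjoinRoot.ofAlgHom F f) := by
  apply Polynomial.algHom_ext
  rw [aeval_X]
  rfl

private theorem hom_ev (φ : AdjoinRoot f →ₐ[F] AlgebraicClosure F) :
    ev f (φ (algebraMap F[X] (AdjoinRoot f) X), φ (AdjoinRoot.root f)) = 0 := by
  unfold ev
  simp only
  rw [hom_aeval φ]
  have h1 := Polynomial.hom_eval₂ f (AdjoinRoot.of f) (φ : AdjoinRoot f →+* AlgebraicClosure F)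
    (AdjoinRoot.root f)
  rw [AdjoinRoot.eval₂_root, map_zero] at h1
  exact h1.symm

private theorem npt_homs [Finite F] (r : ℕ) :
    npt f r = Nat.card {φ : AdjoinRoot f →ₐ[F] AlgebraicClosure F //
      ∀ x, φ x ^ Nat.card F ^ r = φ x} := by
  have := Fintype.ofFinite F
  unfold npt
  symm
  refine Nat.card_congr (Equiv.ofBijective (fun φ => ⟨(φ.1 (algebraMap F[X] (AdjoinRoot f) X),
    φ.1 (AdjoinRoot.root f)), hom_ev φ.1, φ.2 _, φ.2 _⟩) ⟨?_, ?_⟩)
  · rintro ⟨φ, hφ⟩ ⟨φ', hφ'⟩ h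
    have h1 := congrArg (fun z => z.1.1) h
    have h2 := congrArg (fun z => z.1.2) h
    simp only at h1 h2
    apply Subtype.ext
    refine AdjoinRoot.algHom_ext' ?_ h2
    apply Polynomial.algHom_ext
    exact h1
  · rintro ⟨p, hp, hp1, hp2⟩
    refine ⟨⟨AdjoinRoot.liftAlgHom f (aeval p.1) p.2 hp, ?_⟩, ?_⟩
    · intro x
      rw [← frob_apply F (AlgebraicClosure F) r, ← AlgHom.comp_apply]
      congr 1
      refine AdjoinRoot.algHom_ext' ?_ ?_
      · apply Polynomial.algHom_ext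
        rw [AlgHom.comp_apply, AlgHom.comp_apply, AlgHom.comp_apply, frob_apply]
        have h1 : AdjoinRoot.liftAlgHom f (aeval p.1) p.2 hp ((AdjoinRoot.ofAlgHom F f) X) = p.1 := by
          change AdjoinRoot.liftAlgHom f (aeval p.1) p.2 hp (AdjoinRoot.of f X) = p.1
          rw [AdjoinRoot.liftAlgHom_of, aeval_X]
        rw [h1, hp1]
      · rw [AlgHom.comp_apply, frob_apply, AdjoinRoot.liftAlgHom_root, hp2]
    · apply Subtype.ext
      apply Prod.ext
      · change AdjoinRoot.liftAlgHom f (aeval p.1) p.2 hp (AdjoinRoot.of f X) = p.1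
        rw [AdjoinRoot.liftAlgHom_of, aeval_X]
      · change AdjoinRoot.liftAlgHom f (aeval p.1) p.2 hp (AdjoinRoot.root f) = p.2
        rw [AdjoinRoot.liftAlgHom_root]

private theorem prime_max [Finite F] (hf : f.Monic) [IsDomain (AdjoinRoot f)]
    {P : Ideal (AdjoinRoot f)} (hP : P ≠ ⊥) (hPp : P.IsPrime) : P.IsMaximal := by
  have h1 := (card_quot hf hP).1
  exact Ideal.Quotient.maximal_of_isField P (Finite.isField_of_domain (AdjoinRoot f ⧸ P))

private theorem fib [Finite F] (hf : f.Monic) [IsDomain (AdjoinRoot f)]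
    {P : Ideal (AdjoinRoot f)} (hP : P ≠ ⊥) (hPp : P.IsPrime) (r : ℕ) :
    Finite {φ : AdjoinRoot f →ₐ[F] AlgebraicClosure F //
      (∀ x, φ x ^ Nat.card F ^ r = φ x) ∧ RingHom.ker φ = P} ∧
    Nat.card {φ : AdjoinRoot f →ₐ[F] AlgebraicClosure F //
      (∀ x, φ x ^ Nat.card F ^ r = φ x) ∧ RingHom.ker φ = P} =
      if ideg f P ∣ r then ideg f P else 0 := by
  have hmax := prime_max hf hP hPp
  letI : Field (AdjoinRoot f ⧸ P) := Ideal.Quotient.field P
  have hfin : Module.Finite F (AdjoinRoot f ⧸ P) := ideg_fin hf hP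
  have h1 := homs F (AdjoinRoot f ⧸ P) r
  have hfinH : Finite (AdjoinRoot f ⧸ P →ₐ[F] AlgebraicClosure F) := inferInstance
  let e : {ψ : AdjoinRoot f ⧸ P →ₐ[F] AlgebraicClosure F // ∀ x, ψ x ^ Nat.card F ^ r = ψ x} ≃
      {φ : AdjoinRoot f →ₐ[F] AlgebraicClosure F //
      (∀ x, φ x ^ Nat.card F ^ r = φ x) ∧ RingHom.ker φ = P} :=
    Equiv.ofBijective (fun ψ => ⟨ψ.1.comp (Ideal.Quotient.mkₐ F P), fun x => ψ.2 _, by
      ext x
      rw [RingHom.mem_ker, AlgHom.comp_apply, Ideal.Quotient.mkₐ_eq_mk]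
      rw [map_eq_zero_iff ψ.1 ψ.1.toRingHom.injective, Ideal.Quotient.eq_zero_iff_mem]⟩) ⟨by
      rintro ⟨ψ, hψ⟩ ⟨ψ', hψ'⟩ h
      have h2 := congrArg Subtype.val h
      simp only at h2
      apply Subtype.ext
      apply AlgHom.ext
      intro x
      obtain ⟨y, rfl⟩ := Ideal.Quotient.mk_surjective x
      exact congrArg (fun g : AdjoinRoot f →ₐ[F] AlgebraicClosure F => g y) h2, by
      rintro ⟨φ, hφ, hk⟩
      have h3 : ∀ a : AdjoinRoot f, a ∈ P → φ a = 0 := by
        intro a ha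
        rw [← hk] at ha
        exact ha
      refine ⟨⟨Ideal.Quotient.liftₐ P φ h3, ?_⟩, ?_⟩
      · intro x
        obtain ⟨y, rfl⟩ := Ideal.Quotient.mk_surjective x
        exact hφ y
      · apply Subtype.ext
        apply AlgHom.ext
        intro y
        rfl⟩
  refine ⟨Finite.of_equiv _ e, ?_⟩
  rw [← Nat.card_congr e, h1]
  rfl

private theorem infO (hf : f.Monic) [IsDomain (AdjoinRoot f)] : Infinite (AdjoinRoot f) := by
  have h1 := hf.free_adjoinRoot
  have h2 : Function.Injective (algebraMap F[X] (AdjoinRoot f)) := by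
    rw [injective_iff_map_eq_zero]
    intro c hc
    rw [Algebra.algebraMap_eq_smul_one] at hc
    exact (smul_eq_zero.mp hc).resolve_right one_ne_zero
  exact Infinite.of_injective _ h2

theorem pts [Finite F] (hf : f.Monic) [IsDomain (AdjoinRoot f)] {r : ℕ} (hr : r ≠ 0) :
    npt f r = ∑ d ∈ r.divisors, d * pn f d := by
  classical
  have hF := Fintype.ofFinite F
  have hq : 1 < Nat.card F ^ r := one_lt_pow₀ Finite.one_lt_card hr
  have hinf := infO hf
  have hfinS : {P : Ideal (AdjoinRoot f) | (P ≠ ⊥ ∧ P.IsPrime) ∧ ideg f P ≤ r}.Finite :=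
    (fin_ideg hf r).subset fun P hP => ⟨hP.1.1, hP.2⟩
  set SF := hfinS.toFinset with hSF
  have hmem : ∀ P, P ∈ SF ↔ (P ≠ ⊥ ∧ P.IsPrime) ∧ ideg f P ≤ r := by
    intro P
    rw [hSF, Set.Finite.mem_toFinset]
    exact Iff.rfl
  -- the kernel of a fixed homomorphism
  have hker : ∀ φ : AdjoinRoot f →ₐ[F] AlgebraicClosure F, (∀ x, φ x ^ Nat.card F ^ r = φ x) →
      RingHom.ker φ ∈ SF := by
    intro φ hφ
    have hne : RingHom.ker φ ≠ ⊥ := by
      intro h0
      have hinj : Function.Injective φ := (RingHom.injective_iff_ker_eq_bot φ).mpr h0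
      have hfinR : {y : AlgebraicClosure F | y ^ Nat.card F ^ r = y}.Finite := by
        have hne : (X ^ (Nat.card F ^ r) - X : (AlgebraicClosure F)[X]) ≠ 0 := by
          intro h1
          rw [sub_eq_zero] at h1
          have h2 := congrArg natDegree h1
          rw [natDegree_X_pow, natDegree_X] at h2
          omega
        refine (Multiset.finite_toSet (X ^ (Nat.card F ^ r) - X : (AlgebraicClosure F)[X]).roots).subset ?_
        intro y hy
        change y ∈ (X ^ (Nat.card F ^ r) - X : (AlgebraicClosure F)[X]).roots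
        rw [mem_roots hne, IsRoot.def, eval_sub, eval_pow, eval_X, sub_eq_zero]
        exact hy
      have h1 : (Set.range φ).Finite := hfinR.subset (by
        rintro _ ⟨x, rfl⟩
        exact hφ x)
      exact Set.infinite_range_of_injective hinj h1
    have hpr : (RingHom.ker φ).IsPrime := RingHom.ker_isPrime _
    rw [hmem]
    refine ⟨⟨hne, hpr⟩, ?_⟩
    obtain ⟨hfi, hca⟩ := fib hf hne hpr r
    by_contra hcon
    have h1 : ¬ ideg f (RingHom.ker φ) ∣ r := by
      intro h2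
      exact hcon (Nat.le_of_dvd (Nat.pos_of_ne_zero hr) h2)
    rw [if_neg h1] at hca
    have h2 : Nonempty {φ' : AdjoinRoot f →ₐ[F] AlgebraicClosure F //
      (∀ x, φ' x ^ Nat.card F ^ r = φ' x) ∧ RingHom.ker φ' = RingHom.ker φ} := ⟨⟨φ, hφ, rfl⟩⟩
    have h3 := Nat.card_pos (α := {φ' : AdjoinRoot f →ₐ[F] AlgebraicClosure F //
      (∀ x, φ' x ^ Nat.card F ^ r = φ' x) ∧ RingHom.ker φ' = RingHom.ker φ})
    omega
  let κ : {φ : AdjoinRoot f →ₐ[F] AlgebraicClosure F // ∀ x, φ x ^ Nat.card F ^ r = φ x} →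
      {P // P ∈ SF} := fun φ => ⟨RingHom.ker φ.1, hker φ.1 φ.2⟩
  have hfibe : ∀ P : {P // P ∈ SF}, Nonempty ({φ // κ φ = P} ≃
      {φ : AdjoinRoot f →ₐ[F] AlgebraicClosure F //
      (∀ x, φ x ^ Nat.card F ^ r = φ x) ∧ RingHom.ker φ = P.1}) := by
    intro P
    refine ⟨⟨fun φ => ⟨φ.1.1, φ.1.2, congrArg Subtype.val φ.2⟩,
      fun φ => ⟨⟨φ.1, φ.2.1⟩, Subtype.ext φ.2.2⟩, fun φ => rfl, fun φ => rfl⟩⟩
  have hfin1 : ∀ P : {P // P ∈ SF}, Finite {φ // κ φ = P} := by
    intro P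
    obtain ⟨e⟩ := hfibe P
    have h1 := ((hmem P.1).mp P.2).1
    have := (fib hf h1.1 h1.2 r).1
    exact Finite.of_equiv _ e.symm
  rw [npt_homs, ← Nat.card_congr (Equiv.sigmaFiberEquiv κ), Nat.card_sigma]
  have h1 : ∀ P : {P // P ∈ SF}, Nat.card {φ // κ φ = P} =
      if ideg f P.1 ∣ r then ideg f P.1 else 0 := by
    intro P
    obtain ⟨e⟩ := hfibe P
    have h1 := ((hmem P.1).mp P.2).1
    rw [Nat.card_congr e, (fib hf h1.1 h1.2 r).2]
  rw [Finset.sum_congr rfl fun P _ => h1 P,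
    Finset.sum_coe_sort SF (fun P => if ideg f P ∣ r then ideg f P else 0), ← Finset.sum_filter,
    ← Finset.sum_fiberwise_of_maps_to (s := SF.filter fun P => ideg f P ∣ r) (t := r.divisors)
      (g := fun P => ideg f P)
      (fun P hP => by
        rw [Finset.mem_filter] at hP
        exact Nat.mem_divisors.mpr ⟨hP.2, hr⟩)]
  apply Finset.sum_congr rfl
  intro d hd
  have hd' := Nat.mem_divisors.mp hd
  have hdr : d ≤ r := Nat.le_of_dvd (Nat.pos_of_ne_zero hr) hd'.1
  rw [Finset.sum_congr rfl (g := fun _ => d) (fun P hP => (Finset.mem_filter.mp hP).2),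
    Finset.sum_const, smul_eq_mul, mul_comm]
  congr 1
  unfold pn
  have h2 : {P : Ideal (AdjoinRoot f) | (P ≠ ⊥ ∧ P.IsPrime) ∧ ideg f P = d} =
      (((SF.filter fun P => ideg f P ∣ r).filter fun P => ideg f P = d : Finset _) :
        Set (Ideal (AdjoinRoot f))) := by
    ext P
    rw [Finset.mem_coe, Finset.mem_filter, Finset.mem_filter, hmem]
    constructor
    · rintro ⟨h3, h4⟩
      exact ⟨⟨⟨h3, by omega⟩, h4 ▸ hd'.1⟩, h4⟩
    · rintro ⟨⟨⟨h3, _⟩, _⟩, h4⟩
      exact ⟨h3, h4⟩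
  have h3 : Nat.card {P : Ideal (AdjoinRoot f) // (P ≠ ⊥ ∧ P.IsPrime) ∧ ideg f P = d} =
      Set.ncard {P : Ideal (AdjoinRoot f) | (P ≠ ⊥ ∧ P.IsPrime) ∧ ideg f P = d} := rfl
  rw [h3, h2, Set.ncard_coe_finset]

end H13.TA
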