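import Pool.Agent.H13.TA.Cls

/-!
# TA-RAT: the number of ideals of bounded degree

* `rat`: `cls` and `xd_t` (finitely many classes, take the largest `D0`).
* `an_sum`: partition by the degree (`fin_ideg`). `an_zero`: `ideg_zero`. `an_pos`: the ideal `(t ^ r)` has degree `r m`
  (`ideg_span`, `dg_base`).
-/

set_option autoImplicit false

open Polynomial

noncomputable section

namespace H13.TA

variable {F : Type} [Field F] {f : F[X][X]}

theorem rat [Finite F] (h : Good f) [IsDedekindDomain (AdjoinRoot f)] :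
    ∃ N0, ∀ N ≥ N0, (Nat.card F - 1) * AN f (N + f.natDegree) + Nat.card (ClassGroup (AdjoinRoot f)) =
      Nat.card F ^ f.natDegree *
        ((Nat.card F - 1) * AN f N + Nat.card (ClassGroup (AdjoinRoot f))) := by
  classical
  have hfin : Finite (ClassGroup (AdjoinRoot f)) := clf h.monic
  have := Fintype.ofFinite (ClassGroup (AdjoinRoot f))
  obtain ⟨J, hJ, hcls⟩ := cls h
  choose D0 hD0 using fun C => xd_t h (hJ C)
  refine ⟨∑ C, D0 C, fun N hN => ?_⟩
  rw [hcls, hcls, Finset.mul_sum]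
  apply Finset.sum_congr rfl
  intro C _
  have h1 : D0 C ≤ ∑ C, D0 C := Finset.single_le_sum (fun _ _ => Nat.zero_le _) (Finset.mem_univ C)
  have h2 := hD0 C (N + ideg f (J C)) (by omega)
  rw [← h2]
  congr 1
  omega

theorem an_sum [Finite F] (hf : f.Monic) [IsDomain (AdjoinRoot f)] (N : ℕ) :
    AN f N = ∑ n ∈ Finset.range (N + 1), an f n := by
  classical
  have hfin := fin_ideg hf N
  have h1 : AN f N = hfin.toFinset.card := by
    unfold AN
    rw [← Set.ncard_eq_toFinset_card _ hfin]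
    rfl
  rw [h1, Finset.card_eq_sum_card_fiberwise (f := fun I => ideg f I)
    (t := Finset.range (N + 1))]
  · apply Finset.sum_congr rfl
    intro n hn
    rw [Finset.mem_range] at hn
    unfold an
    have h2 : {I : Ideal (AdjoinRoot f) | I ≠ ⊥ ∧ ideg f I = n} =
        ((hfin.toFinset.filter fun I => ideg f I = n : Finset _) : Set (Ideal (AdjoinRoot f))) := by
      ext I
      rw [Finset.mem_coe, Finset.mem_filter, Set.Finite.mem_toFinset]
      constructor
      · rintro ⟨h3, h4⟩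
        exact ⟨⟨h3, by omega⟩, h4⟩
      · rintro ⟨⟨h3, _⟩, h4⟩
        exact ⟨h3, h4⟩
    have h3 : Nat.card {I : Ideal (AdjoinRoot f) // I ≠ ⊥ ∧ ideg f I = n} =
        Set.ncard {I : Ideal (AdjoinRoot f) | I ≠ ⊥ ∧ ideg f I = n} := rfl
    rw [h3, h2, Set.ncard_coe_finset]
  · intro I hI
    rw [Finset.mem_coe, Set.Finite.mem_toFinset] at hI
    rw [Finset.mem_coe, Finset.mem_range]
    exact Nat.lt_succ_of_le hI.2

theorem an_zero (hf : f.Monic) [IsDomain (AdjoinRoot f)] : an f 0 = 1 := by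
  unfold an
  rw [Nat.card_eq_one_iff_exists]
  refine ⟨⟨⊤, top_ne_bot, (ideg_zero hf top_ne_bot).mpr rfl⟩, ?_⟩
  rintro ⟨I, hI, hI0⟩
  exact Subtype.ext ((ideg_zero hf hI).mp hI0)

theorem an_pos [Finite F] (hf : f.Monic) [IsDomain (AdjoinRoot f)] (r : ℕ) :
    1 ≤ an f (r * f.natDegree) := by
  have h1 := hf.free_adjoinRoot
  have h2 : algebraMap F[X] (AdjoinRoot f) (X ^ r) ≠ 0 := by
    rw [Algebra.algebraMap_eq_smul_one]
    intro h3
    rcases smul_eq_zero.mp h3 with h4 | h4
    · exact pow_ne_zero r X_ne_zero h4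
    · exact one_ne_zero h4
  have h3 : Ideal.span {algebraMap F[X] (AdjoinRoot f) (X ^ r)} ≠ ⊥ := by
    rw [Ne, Ideal.span_singleton_eq_bot]
    exact h2
  have h4 : ideg f (Ideal.span {algebraMap F[X] (AdjoinRoot f) (X ^ r)}) = r * f.natDegree := by
    rw [ideg_span hf h2, dg_base hf, natDegree_X_pow, mul_comm]
  have hfin : Finite {I : Ideal (AdjoinRoot f) // I ≠ ⊥ ∧ ideg f I = r * f.natDegree} :=
    ((fin_ideg hf (r * f.natDegree)).subset fun I hI => ⟨hI.1, hI.2.le⟩).to_subtype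
  unfold an
  exact Nat.card_pos_iff.mpr ⟨⟨⟨_, h3, h4⟩⟩, hfin⟩

end H13.TA
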