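import Mathlib

/-!
# TA-RECA: a recursion for the number of finite multisets of given weight

`g : P →₀ ℕ` of weight `|g| = ∑ g p d p`. Then `n a_n = ∑_{|g| = n} ∑_p g_p d_p = ∑_{p, j ≥ 1} d_p #{|g| = n, g_p ≥ j}
= ∑_{p, j ≥ 1} d_p a_(n - j d_p)` (subtract `j` from `g_p`) `= ∑_r (∑_{d_p ∣ r} d_p) a_(n - r)`, `r = j d_p`.
All sets are finite (`hfin`, `hd`).
-/

set_option autoImplicit false

open Polynomial

noncomputable section

namespace H13.TA

private lemma recA_fin {P : Type*} (d : P → ℕ) (hd : ∀ p, 1 ≤ d p) (hfin : ∀ n, {p | d p = n}.Finite)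
    (n : ℕ) : {g : P →₀ ℕ | (g.sum fun p k => k * d p) = n}.Finite := by
  classical
  have h1 : {p | d p ≤ n}.Finite := by
    have : {p | d p ≤ n} = ⋃ k ∈ Finset.range (n + 1), {p | d p = k} := by
      ext p
      simp only [Set.mem_ofPred_eq, Finset.mem_range, Set.mem_iUnion, exists_prop]
      exact ⟨fun h => ⟨d p, by omega, rfl⟩, fun ⟨k, hk, h⟩ => by omega⟩
    rw [this]
    exact (Finset.range (n + 1)).finite_toSet.biUnion fun k _ => hfin k
  refine (Set.finite_Icc (0 : P →₀ ℕ) (∑ p ∈ h1.toFinset, Finsupp.single p n)).subset ?_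
  intro g hg
  rw [Set.mem_ofPred_eq] at hg
  refine ⟨zero_le, fun p => ?_⟩
  rcases Nat.eq_zero_or_pos (g p) with h0 | h0
  · rw [h0]
    exact Nat.zero_le _
  · have hp : p ∈ g.support := Finsupp.mem_support_iff.2 (by omega)
    have h2 : g p * d p ≤ n := by
      rw [← hg]
      exact Finset.single_le_sum (f := fun p => g p * d p) (fun _ _ => Nat.zero_le _) hp
    have h3 : g p ≤ n := le_trans (Nat.le_mul_of_pos_right _ (hd p)) h2
    have h4 : d p ≤ n := le_trans (Nat.le_mul_of_pos_left _ h0) h2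
    rw [Finsupp.coe_finsetSum, Finset.sum_apply]
    refine le_trans h3 ?_
    have h5 : p ∈ h1.toFinset := by
      rw [Set.Finite.mem_toFinset]
      exact h4
    refine le_trans ?_ (Finset.single_le_sum (f := fun c => (Finsupp.single c n : P →₀ ℕ) p)
      (fun _ _ => Nat.zero_le _) h5)
    simp

private lemma recA_w {P : Type*} (d : P → ℕ) (g : P →₀ ℕ) (p : P) (j : ℕ) :
    ((g + Finsupp.single p j).sum fun p k => k * d p) = (g.sum fun p k => k * d p) + j * d p := by
  classical
  rw [Finsupp.sum_add_index' (h := fun p k => k * d p) (fun _ => Nat.zero_mul _) (fun _ _ _ => Nat.add_mul _ _ _),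
    Finsupp.sum_single_index (h := fun p k => k * d p) (Nat.zero_mul _)]

private lemma recA_card {α : Type*} (F : Finset α) (p : α → Prop) (h : ∀ x, x ∈ F ↔ p x) :
    Nat.card {x // p x} = F.card := by
  rw [← Nat.card_congr (Equiv.subtypeEquivRight h), Nat.card_eq_fintype_card, Fintype.card_coe]

private lemma recA_sub {P : Type*} (d : P → ℕ) (n : ℕ) (p : P) (j : ℕ) (hj : j * d p ≤ n) :
    Nat.card {g : P →₀ ℕ // (g.sum fun p k => k * d p) = n ∧ j ≤ g p} =
      Nat.card {g : P →₀ ℕ // (g.sum fun p k => k * d p) = n - j * d p} := by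
  classical
  refine Nat.card_congr ⟨fun g => ⟨g.1 - Finsupp.single p j, ?_⟩, fun g => ⟨g.1 + Finsupp.single p j, ?_, ?_⟩,
    fun g => Subtype.ext ?_, fun g => Subtype.ext ?_⟩
  · have h1 : g.1 - Finsupp.single p j + Finsupp.single p j = g.1 :=
      tsub_add_cancel_of_le (Finsupp.single_le_iff.2 g.2.2)
    have h2 := recA_w d (g.1 - Finsupp.single p j) p j
    rw [h1, g.2.1] at h2
    omega
  · rw [recA_w, g.2]
    omega
  · rw [Finsupp.add_apply, Finsupp.single_eq_same]
    exact Nat.le_add_left _ _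
  · exact tsub_add_cancel_of_le (Finsupp.single_le_iff.2 g.2.2)
  · exact add_tsub_cancel_right _ _

private lemma recA_sub0 {P : Type*} (d : P → ℕ) (n : ℕ) (p : P) (j : ℕ) (hj : n < j * d p) :
    Nat.card {g : P →₀ ℕ // (g.sum fun p k => k * d p) = n ∧ j ≤ g p} = 0 := by
  classical
  have : IsEmpty {g : P →₀ ℕ // (g.sum fun p k => k * d p) = n ∧ j ≤ g p} := by
    refine ⟨fun g => ?_⟩
    have h1 : g.1 - Finsupp.single p j + Finsupp.single p j = g.1 :=
      tsub_add_cancel_of_le (Finsupp.single_le_iff.2 g.2.2)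
    have h2 := recA_w d (g.1 - Finsupp.single p j) p j
    rw [h1, g.2.1] at h2
    omega
  exact Nat.card_of_isEmpty

theorem recA {P : Type*} (d : P → ℕ) (hd : ∀ p, 1 ≤ d p) (hfin : ∀ n, {p | d p = n}.Finite)
    (n : ℕ) : n * Nat.card {g : P →₀ ℕ // (g.sum fun p k => k * d p) = n} =
      ∑ r ∈ Finset.Icc 1 n, (∑ e ∈ r.divisors, e * Nat.card {p // d p = e}) *
        Nat.card {g : P →₀ ℕ // (g.sum fun p k => k * d p) = n - r} := by
  classical
  have hF := recA_fin d hd hfin n
  have h1 : {p | d p ≤ n}.Finite := by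
    have : {p | d p ≤ n} = ⋃ k ∈ Finset.range (n + 1), {p | d p = k} := by
      ext p
      simp only [Set.mem_ofPred_eq, Finset.mem_range, Set.mem_iUnion, exists_prop]
      exact ⟨fun h => ⟨d p, by omega, rfl⟩, fun ⟨k, hk, h⟩ => by omega⟩
    rw [this]
    exact (Finset.range (n + 1)).finite_toSet.biUnion fun k _ => hfin k
  set Pn : Finset P := h1.toFinset with hPn
  have memP : ∀ p, p ∈ Pn ↔ d p ≤ n := by
    intro p
    rw [hPn, Set.Finite.mem_toFinset]
    exact Iff.rfl
  set F : Finset (P →₀ ℕ) := hF.toFinset with hFdef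
  have memF : ∀ g, g ∈ F ↔ (g.sum fun p k => k * d p) = n := by
    intro g
    rw [hFdef, Set.Finite.mem_toFinset]
    exact Iff.rfl
  have e1 : Nat.card {g : P →₀ ℕ // (g.sum fun p k => k * d p) = n} = F.card :=
    recA_card F _ memF
  have e2 : ∀ g ∈ F, ∑ p ∈ Pn, g p * d p = n := by
    intro g hg
    rw [memF] at hg
    conv_rhs => rw [← hg]
    rw [Finsupp.sum]
    symm
    refine Finset.sum_subset ?_ ?_
    · intro p hp
      rw [memP]
      have h2 : g p * d p ≤ n := by
        rw [← hg]
        exact Finset.single_le_sum (f := fun p => g p * d p) (fun _ _ => Nat.zero_le _) hp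
      have h0 := Finsupp.mem_support_iff.1 hp
      exact le_trans (Nat.le_mul_of_pos_left _ (Nat.pos_of_ne_zero h0)) h2
    · intro p _ hp
      rw [Finsupp.notMem_support_iff.1 hp, Nat.zero_mul]
  have e3 : n * F.card = ∑ p ∈ Pn, d p * ∑ g ∈ F, g p := by
    have : n * F.card = ∑ g ∈ F, ∑ p ∈ Pn, g p * d p := by
      rw [Finset.sum_congr rfl e2, Finset.sum_const, smul_eq_mul, mul_comm]
    rw [this, Finset.sum_comm]
    refine Finset.sum_congr rfl fun p _ => ?_
    rw [Finset.mul_sum]
    exact Finset.sum_congr rfl fun g _ => mul_comm _ _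
  have e4 : ∀ p ∈ Pn, ∑ g ∈ F, g p = ∑ r ∈ Finset.Icc 1 n, if d p ∣ r then
      Nat.card {g : P →₀ ℕ // (g.sum fun p k => k * d p) = n - r} else 0 := by
    intro p hp
    have hle : ∀ g ∈ F, g p ≤ n := by
      intro g hg
      have h2 : g p * d p ≤ ∑ p ∈ Pn, g p * d p :=
        Finset.single_le_sum (f := fun p => g p * d p) (fun _ _ => Nat.zero_le _) hp
      rw [e2 g hg] at h2
      exact le_trans (Nat.le_mul_of_pos_right _ (hd p)) h2
    have h2 : ∑ g ∈ F, g p = ∑ g ∈ F, ∑ j ∈ Finset.Icc 1 n, if j ≤ g p then 1 else 0 := by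
      refine Finset.sum_congr rfl fun g hg => ?_
      rw [← Finset.card_filter]
      have : (Finset.Icc 1 n).filter (fun j => j ≤ g p) = Finset.Icc 1 (g p) := by
        ext j
        have := hle g hg
        simp only [Finset.mem_filter, Finset.mem_Icc]
        omega
      rw [this, Nat.card_Icc]
      omega
    rw [h2, Finset.sum_comm]
    have h3 : ∀ j ∈ Finset.Icc 1 n, (∑ g ∈ F, if j ≤ g p then 1 else 0) =
        ∑ r ∈ Finset.Icc 1 n, if r = j * d p then
          Nat.card {g : P →₀ ℕ // (g.sum fun p k => k * d p) = n - r} else 0 := by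
      intro j hj
      rw [Finset.mem_Icc] at hj
      have h4 : (∑ g ∈ F, if j ≤ g p then 1 else 0) =
          Nat.card {g : P →₀ ℕ // (g.sum fun p k => k * d p) = n ∧ j ≤ g p} := by
        rw [← Finset.card_filter]
        exact (recA_card (F.filter fun g => j ≤ g p) _ (fun g => by rw [Finset.mem_filter, memF])).symm
      rw [h4, Finset.sum_ite_eq' (Finset.Icc 1 n) (j * d p)]
      split_ifs with h5
      · rw [Finset.mem_Icc] at h5
        exact recA_sub d n p j h5.2
      · refine recA_sub0 d n p j ?_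
        rw [Finset.mem_Icc] at h5
        have := Nat.mul_le_mul hj.1 (hd p)
        omega
    rw [Finset.sum_congr rfl h3, Finset.sum_comm]
    refine Finset.sum_congr rfl fun r hr => ?_
    rw [Finset.mem_Icc] at hr
    split_ifs with h5
    · obtain ⟨j, rfl⟩ := h5
      have hj : 1 ≤ j := by
        rcases Nat.eq_zero_or_pos j with h0 | h0
        · subst h0
          omega
        · exact h0
      have hj2 : j ≤ n := le_trans (Nat.le_mul_of_pos_left _ (hd p)) hr.2
      rw [Finset.sum_eq_single_of_mem j (Finset.mem_Icc.2 ⟨hj, hj2⟩)]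
      · rw [if_pos (mul_comm _ _)]
      · intro i _ hi
        rw [if_neg]
        intro h6
        rw [mul_comm] at h6
        exact hi (Nat.eq_of_mul_eq_mul_right (hd p) h6).symm
    · refine Finset.sum_eq_zero fun j _ => ?_
      rw [if_neg]
      intro h6
      exact h5 ⟨j, by rw [h6, mul_comm]⟩
  rw [e1, e3, Finset.sum_congr rfl (fun p hp => by rw [e4 p hp])]
  simp only [Finset.mul_sum]
  rw [Finset.sum_comm]
  refine Finset.sum_congr rfl fun r hr => ?_
  rw [Finset.mem_Icc] at hr
  have h7 : ∀ e ∈ r.divisors, Nat.card {p // d p = e} = (Pn.filter fun p => d p = e).card := by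
    intro e he
    rw [Nat.mem_divisors] at he
    have hen : e ≤ n := le_trans (Nat.le_of_dvd (by omega) he.1) hr.2
    refine recA_card _ _ (fun p => ?_)
    rw [Finset.mem_filter, memP]
    exact ⟨fun h => h.2, fun h => ⟨h ▸ hen, h⟩⟩
  have h8 : ∑ e ∈ r.divisors, e * Nat.card {p // d p = e} = ∑ p ∈ Pn.filter (fun p => d p ∣ r), d p := by
    rw [Finset.sum_congr rfl (fun e he => by rw [h7 e he])]
    rw [← Finset.sum_fiberwise_of_maps_to (s := Pn.filter fun p => d p ∣ r) (t := r.divisors) (g := d)]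
    · refine Finset.sum_congr rfl fun e he => ?_
      rw [Nat.mem_divisors] at he
      rw [Finset.sum_congr rfl (g := fun _ => e)]
      · rw [Finset.sum_const, smul_eq_mul, mul_comm, Finset.filter_filter]
        congr 2
        ext p
        simp only [Finset.mem_filter]
        constructor
        · rintro ⟨h1, h2⟩
          exact ⟨h1, h2 ▸ he.1, h2⟩
        · rintro ⟨h1, h2, h3⟩
          exact ⟨h1, h3⟩
      · intro p hp
        rw [Finset.mem_filter] at hp
        exact hp.2
    · intro p hp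
      rw [Finset.mem_filter] at hp
      rw [Nat.mem_divisors]
      exact ⟨hp.2, by omega⟩
  rw [h8, Finset.sum_mul, Finset.sum_filter]
  refine Finset.sum_congr rfl fun p _ => ?_
  split_ifs
  · rfl
  · rw [mul_zero]

end H13.TA
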