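import Pool.Agent.H13.TA.IdM
import Pool.Agent.H13.TA.IdF
import Pool.Agent.H13.TA.RecA

/-!
# TA-RECB: the recursion for the number of ideals

The nonzero ideals are the products of primes: bijection with the finitely supported functions on the set of nonzero primes
(`HeightOneSpectrum`; `Ideal.finprod_heightOneSpectrum_factorization`, or `UniqueFactorizationMonoid`), the degree is
additive (`ideg_mul`, `ideg ⊤ = 0`), a prime has degree `≥ 1` (`ideg_zero`), `fin_ideg`. Then `recA`.
-/

set_option autoImplicit false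

open Polynomial

noncomputable section

namespace H13.TA

variable {F : Type} [Field F] {f : F[X][X]}

/-- the product of a multiset of primes -/
private def mprod [IsDedekindDomain (AdjoinRoot f)]
    (m : Multiset {P : Ideal (AdjoinRoot f) // P ≠ ⊥ ∧ P.IsPrime}) : Ideal (AdjoinRoot f) :=
  (m.map Subtype.val).prod

private theorem mprod_ne [IsDedekindDomain (AdjoinRoot f)]
    (m : Multiset {P : Ideal (AdjoinRoot f) // P ≠ ⊥ ∧ P.IsPrime}) : mprod m ≠ ⊥ := by
  induction m using Multiset.induction_on with
  | empty =>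
    show (1 : Ideal (AdjoinRoot f)) ≠ ⊥
    exact one_ne_zero
  | cons a s ih =>
    have h1 : mprod (a ::ₘ s) = a.1 * mprod s := by
      simp only [mprod, Multiset.map_cons, Multiset.prod_cons]
    rw [h1]
    exact mul_ne_zero a.2.1 ih

private theorem ideg_mprod (hf : f.Monic) [IsDedekindDomain (AdjoinRoot f)]
    (m : Multiset {P : Ideal (AdjoinRoot f) // P ≠ ⊥ ∧ P.IsPrime}) :
    ideg f (mprod m) = (m.map fun P => ideg f P.1).sum := by
  induction m using Multiset.induction_on with
  | empty =>
    show ideg f (1 : Ideal (AdjoinRoot f)) = 0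
    rw [ideg_zero hf one_ne_zero]
    exact Ideal.one_eq_top
  | cons a s ih =>
    have h1 : mprod (a ::ₘ s) = a.1 * mprod s := by
      simp only [mprod, Multiset.map_cons, Multiset.prod_cons]
    rw [h1, ideg_mul hf a.2.1 (mprod_ne s), ih, Multiset.map_cons, Multiset.sum_cons]

private theorem mprod_inj [IsDedekindDomain (AdjoinRoot f)] :
    Function.Injective (mprod (f := f)) := by
  classical
  have h1 : ∀ m : Multiset {P : Ideal (AdjoinRoot f) // P ≠ ⊥ ∧ P.IsPrime},
      UniqueFactorizationMonoid.normalizedFactors (mprod m) = m.map Subtype.val := by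
    intro m
    refine UniqueFactorizationMonoid.normalizedFactors_prod_of_prime ?_
    intro p hp
    obtain ⟨P, _, rfl⟩ := Multiset.mem_map.1 hp
    exact Ideal.prime_of_isPrime P.2.1 P.2.2
  intro m m' h
  have h2 := h1 m
  rw [h, h1 m'] at h2
  exact (Multiset.map_injective Subtype.val_injective h2).symm

private theorem mprod_surj [IsDedekindDomain (AdjoinRoot f)] (I : Ideal (AdjoinRoot f))
    (hI : I ≠ ⊥) : ∃ m, mprod (f := f) m = I := by
  classical
  have hp : ∀ p ∈ UniqueFactorizationMonoid.normalizedFactors I, p ≠ ⊥ ∧ p.IsPrime := by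
    intro p hp
    have h1 := UniqueFactorizationMonoid.prime_of_normalized_factor p hp
    exact ⟨h1.ne_zero, Ideal.isPrime_of_prime h1⟩
  refine ⟨(UniqueFactorizationMonoid.normalizedFactors I).pmap (fun p h => ⟨p, h⟩) hp, ?_⟩
  rw [mprod, Multiset.map_pmap]
  simp only [Multiset.pmap_eq_map, Multiset.map_id']
  exact Ideal.prod_normalizedFactors_eq_self hI

private theorem weight [IsDedekindDomain (AdjoinRoot f)]
    (g : {P : Ideal (AdjoinRoot f) // P ≠ ⊥ ∧ P.IsPrime} →₀ ℕ) :
    ((Finsupp.toMultiset g).map fun P => ideg f P.1).sum = g.sum fun p k => k * ideg f p.1 := by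
  classical
  induction g using Finsupp.induction_linear with
  | zero => simp
  | add a b ha hb =>
    rw [map_add, Multiset.map_add, Multiset.sum_add, ha, hb, Finsupp.sum_add_index']
    · intro _
      simp
    · intro _ _ _
      ring
  | single a k =>
    rw [Finsupp.toMultiset_single, Multiset.map_nsmul, Multiset.sum_nsmul, Multiset.map_singleton,
      Multiset.sum_singleton, Finsupp.sum_single_index (by simp), smul_eq_mul]

private theorem card_an [Finite F] (hf : f.Monic) [IsDedekindDomain (AdjoinRoot f)] (n : ℕ) :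
    Nat.card {g : {P : Ideal (AdjoinRoot f) // P ≠ ⊥ ∧ P.IsPrime} →₀ ℕ //
      (g.sum fun p k => k * ideg f p.1) = n} = an f n := by
  rw [an]
  refine Nat.card_congr (Equiv.ofBijective
    (fun g => (⟨mprod (Finsupp.toMultiset g.1), mprod_ne _, by
      rw [ideg_mprod hf, weight, g.2]⟩ : {I : Ideal (AdjoinRoot f) // I ≠ ⊥ ∧ ideg f I = n}))
    ⟨?_, ?_⟩)
  · intro g g' h
    have h1 : mprod (Finsupp.toMultiset g.1) = mprod (Finsupp.toMultiset g'.1) :=
      congrArg Subtype.val h
    classical
    have h2 := congrArg Multiset.toFinsupp (mprod_inj h1)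
    rw [Finsupp.toMultiset_toFinsupp, Finsupp.toMultiset_toFinsupp] at h2
    exact Subtype.ext h2
  · rintro ⟨I, hI, hn⟩
    obtain ⟨m, hm⟩ := mprod_surj I hI
    obtain ⟨g, hg⟩ : ∃ g, Finsupp.toMultiset g = m := by
      classical
      exact ⟨Multiset.toFinsupp m, Multiset.toFinsupp_toMultiset m⟩
    refine ⟨⟨g, ?_⟩, Subtype.ext ?_⟩
    · rw [← weight, hg, ← ideg_mprod hf, hm, hn]
    · show mprod (Finsupp.toMultiset g) = I
      rw [hg, hm]

theorem recB [Finite F] (hf : f.Monic) [IsDedekindDomain (AdjoinRoot f)] (n : ℕ) :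
    n * an f n = ∑ r ∈ Finset.Icc 1 n, (∑ d ∈ r.divisors, d * pn f d) * an f (n - r) := by
  have h1 := recA (P := {P : Ideal (AdjoinRoot f) // P ≠ ⊥ ∧ P.IsPrime})
    (fun P => ideg f P.1) (by
      intro P
      have h2 : ideg f P.1 ≠ 0 := by
        rw [Ne, ideg_zero hf P.2.1]
        exact P.2.2.ne_top
      omega) (by
      intro m
      refine Set.Finite.of_finite_image (f := Subtype.val) ?_ Subtype.val_injective.injOn
      refine (fin_ideg hf m).subset ?_
      rintro _ ⟨P, hP, rfl⟩
      exact ⟨P.2.1, le_of_eq hP⟩) n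
  have h2 : ∀ e, Nat.card {p : {P : Ideal (AdjoinRoot f) // P ≠ ⊥ ∧ P.IsPrime} //
      ideg f p.1 = e} = pn f e := by
    intro e
    rw [pn]
    exact Nat.card_congr (Equiv.subtypeSubtypeEquivSubtypeInter _ fun P => ideg f P = e)
  simp only [card_an hf, h2] at h1
  exact h1

end H13.TA
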