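import Pool.Agent.H13.TA.SmB
import Pool.Agent.H13.TA.Rat
import Pool.Agent.H13.TA.RecB
import Pool.Agent.H13.TA.PtB
import Pool.Agent.H13.TA.FormA
import Pool.Agent.H13.TA.FormB

/-!
# TA-ZETA: the zeta polynomial and the class number

`V = W.reverse` with `W` of `formA` for `a = an f`, `q = #F`, `m = f.natDegree`, `h` the class number. `W(0) = an 0 = 1`, so
`V` is monic; `V(0)` = leading coefficient of `W`, not zero; `V(1) = W(1)`; `V(q) = q ^ deg W(1/q) ≠ 0`
(`Polynomial.eval₂_reverse_mul_pow` / `reverse_mul_pow`); `npt`: `formB` with `ν r = ∑_(d ∣ r) d pn d`, and `pts`.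
-/

set_option autoImplicit false

open Polynomial

noncomputable section

namespace H13.TA

variable {F : Type} [Field F] {f : F[X][X]}

theorem zeta [Finite F] (h : Good f) [IsDedekindDomain (AdjoinRoot f)] :
    ∃ V : ℤ[X], IsZeta f V (Nat.card (ClassGroup (AdjoinRoot f))) := by
  have hdom := h.dom
  have hq : 2 ≤ Nat.card F := Finite.one_lt_card
  have ha0 : an f 0 = 1 := an_zero h.monic
  obtain ⟨W, hW, hW1, hW2⟩ := formA (Nat.card F) f.natDegree
    (Nat.card (ClassGroup (AdjoinRoot f))) hq h.pos (an f) (by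
      obtain ⟨N0, hN0⟩ := rat h
      refine ⟨N0, fun N hN => ?_⟩
      have h1 := hN0 N hN
      rw [an_sum h.monic, an_sum h.monic] at h1
      exact h1) (fun r => an_pos h.monic r)
  have hW0 : W.coeff 0 = 1 := by
    rw [hW 0, if_neg (by have := h.pos; omega), ha0]
    norm_num
  have hWne : W ≠ 0 := by
    intro h0
    rw [h0, coeff_zero] at hW0
    exact zero_ne_one hW0
  have hrev : ∀ (S : Type) [Field S] (x : S), x ≠ 0 →
      eval₂ (Int.castRingHom S) x⁻¹ W.reverse * x ^ W.natDegree =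
        eval₂ (Int.castRingHom S) x W := by
    intro S _ x hx
    have : Invertible x := invertibleOfNonzero hx
    have h1 := eval₂_reverse_mul_pow (Int.castRingHom S) x W
    rwa [invOf_eq_inv] at h1
  refine ⟨W.reverse, ?_, ?_, ?_, ?_, ?_⟩
  · unfold Monic
    rw [reverse_leadingCoeff]
    unfold trailingCoeff
    rw [natTrailingDegree_eq_zero.2 (Or.inr (by rw [hW0]; exact one_ne_zero)), hW0]
  · rw [← coeff_zero_eq_eval_zero, coeff_zero_reverse]
    exact leadingCoeff_ne_zero.2 hWne
  · have h1 : W.reverse.eval 1 = W.eval 1 := by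
      have : Invertible (1 : ℤ) := invertibleOne
      have h2 := eval₂_reverse_mul_pow (RingHom.id ℤ) (1 : ℤ) W
      rw [invOf_one, one_pow, mul_one, eval₂_id, eval₂_id] at h2
      exact h2
    rw [h1]
    exact hW1
  · intro h0
    have hqr : (0 : ℝ) < (Nat.card F : ℝ) := by
      have : 0 < Nat.card F := by omega
      exact_mod_cast this
    have h1 := hrev ℝ ((Nat.card F : ℝ)⁻¹) (inv_ne_zero hqr.ne')
    rw [inv_inv] at h1
    have h2 : eval₂ (Int.castRingHom ℝ) (Nat.card F : ℝ) W.reverse = 0 := by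
      have h3 := hom_eval₂ W.reverse (RingHom.id ℤ) (Int.castRingHom ℝ) (Nat.card F : ℤ)
      rw [eval₂_id, h0, map_zero, RingHom.comp_id] at h3
      have h4 : (Int.castRingHom ℝ) (Nat.card F : ℤ) = (Nat.card F : ℝ) := by simp
      rw [h4] at h3
      exact h3.symm
    rw [h2, zero_mul] at h1
    have h5 : aeval ((Nat.card F : ℝ)⁻¹) W = eval₂ (Int.castRingHom ℝ) ((Nat.card F : ℝ)⁻¹) W := rfl
    rw [h5, ← h1] at hW2
    exact lt_irrefl _ hW2
  · intro r hr
    rw [pts h.monic hr]
    exact formB (Nat.card F) f.natDegree hq h.pos (an f)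
      (fun r => ∑ d ∈ r.divisors, d * pn f d) ha0 (fun n => recB h.monic n) W hW hr

end H13.TA
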