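import Mathlib

/-!
# TA-ORD: the degree of the field of the `l ^ s`-th roots of unity

`q = #F`, `F' = F(ζ)`. `[F' : F]` is the smallest `d ≥ 1` with `ζ ^ (q ^ d - 1) = 1`, that is with `q ^ d = 1` in
`ZMod (l ^ s)` (the Frobenius `x ↦ x ^ q` generates `Gal(F'/F)`, of order `[F' : F]`, and `F'` is generated by `ζ`). The
order of `q` modulo `l ^ s` is the order `k` modulo `l` times a power of `l`: `q ^ k ≡ 1` modulo `l` implies
`q ^ (k l ^ (s - 1)) ≡ 1` modulo `l ^ s`, and it is a multiple of `k`.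
-/

set_option autoImplicit false

open Polynomial

noncomputable section

namespace H13.TA

theorem ordF (F : Type) [Field F] [Finite F] (F' : Type) [Field F'] [Finite F'] [Algebra F F']
    (l s : ℕ) (hl : l.Prime) (hs : s ≠ 0) (ζ : F') (hζ : IsPrimitiveRoot ζ (l ^ s))
    (hgen : IntermediateField.adjoin F {ζ} = ⊤) :
    ∃ j, Module.finrank F F' = orderOf (Nat.card F : ZMod l) * l ^ j := by
  classical
  have := Fintype.ofFinite F
  obtain ⟨s', rfl⟩ := Nat.exists_eq_succ_of_ne_zero hs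
  have hls : l ^ (s' + 1) ≠ 0 := (pow_pos hl.pos _).ne'
  -- the degree is the order modulo `l ^ s`
  have h1 : ∀ n : ℕ, FiniteField.frobeniusAlgHom F F' ^ n = 1 ↔ (Nat.card F : ZMod (l ^ (s' + 1))) ^ n = 1 := by
    intro n
    have e1 : (FiniteField.frobeniusAlgHom F F' ^ n) ζ = ζ ^ (Nat.card F ^ n) := by
      rw [AlgHom.coe_pow, FiniteField.coe_frobeniusAlgHom, pow_iterate, Nat.card_eq_fintype_card]
    have e2 : FiniteField.frobeniusAlgHom F F' ^ n = 1 ↔ ζ ^ (Nat.card F ^ n) = ζ := by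
      constructor
      · intro h
        rw [← e1, h]
        rfl
      · intro h
        rw [← e1] at h
        have e3 : Algebra.adjoin F {ζ} = ⊤ := by
          rw [← IntermediateField.adjoin_simple_toSubalgebra_of_isAlgebraic
            (Algebra.IsAlgebraic.isAlgebraic (R := F) ζ), hgen, IntermediateField.top_toSubalgebra]
        refine AlgHom.ext_of_adjoin_eq_top e3 ?_
        rintro x rfl
        exact h
    rw [e2]
    have hz : ζ ≠ 0 := hζ.ne_zero hls
    have hq1 : 1 ≤ Nat.card F ^ n := Nat.one_le_pow _ _ Nat.card_pos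
    have e4 : ζ ^ (Nat.card F ^ n) = ζ ↔ ζ ^ (Nat.card F ^ n - 1) = 1 := by
      have e5 : ζ ^ (Nat.card F ^ n) = ζ ^ (Nat.card F ^ n - 1) * ζ := by
        rw [← pow_succ, Nat.sub_add_cancel hq1]
      rw [e5]
      constructor
      · intro h
        exact mul_right_cancel₀ hz (by rw [h, one_mul])
      · intro h
        rw [h, one_mul]
    rw [e4, hζ.pow_eq_one_iff_dvd]
    have e6 : (Nat.card F : ZMod (l ^ (s' + 1))) ^ n = 1 ↔
        ((Nat.card F ^ n - 1 : ℕ) : ZMod (l ^ (s' + 1))) = 0 := by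
      rw [Nat.cast_sub hq1, sub_eq_zero]
      push_cast
      rfl
    rw [e6, ZMod.natCast_eq_zero_iff]
  have h2 : Module.finrank F F' = orderOf (Nat.card F : ZMod (l ^ (s' + 1))) := by
    rw [← FiniteField.orderOf_frobeniusAlgHom F F', orderOf_eq_orderOf_iff]
    exact h1
  have hpos : 0 < orderOf (Nat.card F : ZMod (l ^ (s' + 1))) := by
    rw [← h2]
    exact Module.finrank_pos
  have h3 : orderOf (Nat.card F : ZMod l) ∣ orderOf (Nat.card F : ZMod (l ^ (s' + 1))) := by
    have e1 := orderOf_map_dvd (ZMod.castHom (dvd_pow_self l (Nat.succ_ne_zero s')) (ZMod l)).toMonoidHom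
      (Nat.card F : ZMod (l ^ (s' + 1)))
    have e2 : (ZMod.castHom (dvd_pow_self l (Nat.succ_ne_zero s')) (ZMod l)).toMonoidHom
      (Nat.card F : ZMod (l ^ (s' + 1))) = (Nat.card F : ZMod l) :=
      map_natCast (ZMod.castHom (dvd_pow_self l (Nat.succ_ne_zero s')) (ZMod l)) _
    rwa [e2] at e1
  have h4 : orderOf (Nat.card F : ZMod (l ^ (s' + 1))) ∣ orderOf (Nat.card F : ZMod l) * l ^ s' := by
    rw [orderOf_dvd_iff_pow_eq_one]
    have e1 : (Nat.card F : ZMod l) ^ orderOf (Nat.card F : ZMod l) = 1 := pow_orderOf_eq_one _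
    have e2 : (l : ℤ) ∣ (Nat.card F : ℤ) ^ orderOf (Nat.card F : ZMod l) - 1 := by
      rw [← ZMod.intCast_zmod_eq_zero_iff_dvd]
      push_cast
      rw [e1, sub_self]
    have e3 := dvd_sub_pow_of_dvd_sub e2 s'
    rw [one_pow, ← pow_mul] at e3
    have e4 : ((l ^ (s' + 1) : ℕ) : ℤ) ∣ (Nat.card F : ℤ) ^ (orderOf (Nat.card F : ZMod l) * l ^ s') - 1 := by
      push_cast
      exact e3
    rw [← ZMod.intCast_zmod_eq_zero_iff_dvd] at e4
    push_cast at e4
    exact sub_eq_zero.1 e4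
  obtain ⟨m, hm⟩ := h3
  rw [hm] at h4 hpos
  have hk0 : 0 < orderOf (Nat.card F : ZMod l) := Nat.pos_of_mul_pos_right hpos
  have h5 : m ∣ l ^ s' := Nat.dvd_of_mul_dvd_mul_left hk0 h4
  obtain ⟨j, -, hj⟩ := (Nat.dvd_prime_pow hl).1 h5
  exact ⟨j, by rw [h2, hm, hj]⟩

end H13.TA
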