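import Pool.Agent.H13.TA.Bas

/-!
# TA-BC0: `O' = F'[t][x]/(f)` is free over `O` with basis a basis of `F'` over `F`

Every element of `F'[t][x]` is uniquely `∑ g_i β_i` with `g_i ∈ F[t][x]` (coefficientwise), and it is a multiple of `f` iff
all `g_i` are (`f` has coefficients in `F`): `g = ∑ g_i β_i = f ∑ u_i β_i`, unique. (Or `AdjoinRoot.tensorAlgEquiv` and
`Algebra.TensorProduct.basis`.)
-/

set_option autoImplicit false

open Polynomial

noncomputable section

namespace H13.TA

variable {F : Type} [Field F] {f : F[X][X]} {F' : Type} [Field F'] [Algebra F F']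

/-- coefficientwise: a basis of `R'` over `R` is one of `R'[X]` over `R[X]` -/
private theorem bc0_poly {R R' : Type} [CommRing R] [CommRing R'] (φ : R →+* R') {ι : Type}
    [Fintype ι] (e : ι → R')
    (H : Function.Bijective fun g : ι → R => ∑ i, φ (g i) * e i) :
    Function.Bijective fun g : ι → R[X] => ∑ i, (g i).map φ * C (e i) := by
  classical
  have hco : ∀ (g : ι → R[X]) (n : ℕ), (∑ i, (g i).map φ * C (e i)).coeff n =
      ∑ i, φ ((g i).coeff n) * e i := by
    intro g n
    rw [finsetSum_coeff]
    refine Finset.sum_congr rfl fun i _ => ?_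
    rw [coeff_mul_C, coeff_map]
  refine ⟨fun g g' h => ?_, fun p => ?_⟩
  · have h1 : ∑ i, (g i).map φ * C (e i) = ∑ i, (g' i).map φ * C (e i) := h
    funext i
    ext n
    have h2 : (fun i => (g i).coeff n) = fun i => (g' i).coeff n := by
      refine H.1 ?_
      have h3 := congrArg (fun q => q.coeff n) h1
      simp only [hco] at h3
      exact h3
    exact congrFun h2 i
  · choose G hG using fun n => H.2 (p.coeff n)
    refine ⟨fun i => ∑ n ∈ Finset.range (p.natDegree + 1), monomial n (G n i), ?_⟩
    ext n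
    show (∑ i, (∑ n ∈ Finset.range (p.natDegree + 1), monomial n (G n i)).map φ * C (e i)).coeff n =
      p.coeff n
    rw [hco]
    by_cases hn : n ∈ Finset.range (p.natDegree + 1)
    · rw [← hG n]
      refine Finset.sum_congr rfl fun i _ => ?_
      rw [finsetSum_coeff]
      simp only [coeff_monomial]
      rw [Finset.sum_ite_eq' _ n, if_pos hn]
    · rw [coeff_eq_zero_of_natDegree_lt (by rw [Finset.mem_range] at hn; omega)]
      refine Finset.sum_eq_zero fun i _ => ?_
      rw [finsetSum_coeff]
      simp only [coeff_monomial]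
      rw [Finset.sum_ite_eq' _ n, if_neg hn, map_zero, zero_mul]

theorem bc_bij {ι : Type} [Fintype ι] (β : Module.Basis ι F F') : Function.Bijective
    fun a : ι → AdjoinRoot f => ∑ i, io F' f (a i) * algebraMap F' (AdjoinRoot (bc F' f)) (β i) := by
  classical
  have h0 : Function.Bijective fun g : ι → F => ∑ i, algebraMap F F' (g i) * β i := by
    have h1 : (fun g : ι → F => ∑ i, algebraMap F F' (g i) * β i) = β.equivFun.symm := by
      funext g
      rw [Module.Basis.equivFun_symm_apply]
      exact Finset.sum_congr rfl fun i _ => (Algebra.smul_def _ _).symm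
    rw [h1]
    exact β.equivFun.symm.bijective
  have h1 := bc0_poly (algebraMap F F') (fun i => β i) h0
  have h2 := bc0_poly (mapRingHom (algebraMap F F')) (fun i => C (β i)) h1
  have hmk : ∀ g : F[X][X], io F' f (AdjoinRoot.mk f g) =
      AdjoinRoot.mk (bc F' f) (g.map (mapRingHom (algebraMap F F'))) := by
    intro g
    unfold io AdjoinRoot.map
    rw [AdjoinRoot.lift_mk, ← eval₂_map, ← AdjoinRoot.algebraMap_eq, ← aeval_def,
      AdjoinRoot.aeval_eq]
  have hal : ∀ c : F', algebraMap F' (AdjoinRoot (bc F' f)) c =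
      AdjoinRoot.mk (bc F' f) (C (C c)) := by
    intro c
    rfl
  have hsum : ∀ g : ι → F[X][X],
      ∑ i, io F' f (AdjoinRoot.mk f (g i)) * algebraMap F' (AdjoinRoot (bc F' f)) (β i) =
      AdjoinRoot.mk (bc F' f) (∑ i, (g i).map (mapRingHom (algebraMap F F')) * C (C (β i))) := by
    intro g
    rw [map_sum]
    refine Finset.sum_congr rfl fun i _ => ?_
    rw [hmk, hal, map_mul]
  refine ⟨fun a a' h => ?_, fun y => ?_⟩
  · choose g hg using fun i => AdjoinRoot.mk_surjective (g := f) (a i)
    choose g' hg' using fun i => AdjoinRoot.mk_surjective (g := f) (a' i)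
    have h3 : ∑ i, io F' f (a i) * algebraMap F' (AdjoinRoot (bc F' f)) (β i) =
      ∑ i, io F' f (a' i) * algebraMap F' (AdjoinRoot (bc F' f)) (β i) := h
    have h4 : AdjoinRoot.mk (bc F' f)
        (∑ i, (g i - g' i).map (mapRingHom (algebraMap F F')) * C (C (β i))) = 0 := by
      rw [← hsum]
      simp only [map_sub, hg, hg', sub_mul, Finset.sum_sub_distrib]
      rw [h3, sub_self]
    rw [AdjoinRoot.mk_eq_zero] at h4
    obtain ⟨u, hu⟩ := h4
    obtain ⟨v, hv⟩ := h2.2 u
    have h5 : (fun i => g i - g' i) = fun i => f * v i := by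
      refine h2.1 ?_
      show ∑ i, (g i - g' i).map (mapRingHom (algebraMap F F')) * C (C (β i)) =
        ∑ i, (f * v i).map (mapRingHom (algebraMap F F')) * C (C (β i))
      have hv' : ∑ i, (v i).map (mapRingHom (algebraMap F F')) * C (C (β i)) = u := hv
      rw [hu, ← hv', Finset.mul_sum]
      refine Finset.sum_congr rfl fun i _ => ?_
      rw [Polynomial.map_mul, ← mul_assoc]
      rfl
    funext i
    have h6 := congrFun h5 i
    have h6 : g i - g' i = f * v i := h6
    rw [← sub_eq_zero, ← hg i, ← hg' i, ← map_sub, h6, map_mul, AdjoinRoot.mk_self, zero_mul]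
  · obtain ⟨p, rfl⟩ := AdjoinRoot.mk_surjective (g := bc F' f) y
    obtain ⟨g, hg⟩ := h2.2 p
    refine ⟨fun i => AdjoinRoot.mk f (g i), ?_⟩
    show ∑ i, io F' f (AdjoinRoot.mk f (g i)) * algebraMap F' (AdjoinRoot (bc F' f)) (β i) = _
    rw [hsum]
    exact congrArg _ hg

theorem bc_monic (hf : f.Monic) : (bc F' f).Monic := hf.map _

theorem bc_deg (hf : f.Monic) : (bc F' f).natDegree = f.natDegree := hf.natDegree_map _

theorem bc_smooth (hs : Ideal.span {f, derivative f, dt f} = ⊤) :
    Ideal.span {bc F' f, derivative (bc F' f), dt (bc F' f)} = ⊤ := by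
  have hdc : ∀ (K : Type) [Field K] (g : K[X][X]) (n : ℕ), (dt g).coeff n = derivative (g.coeff n) := by
    intro K _ g n
    unfold dt
    rw [sum_def, finsetSum_coeff]
    simp only [coeff_monomial]
    rw [Finset.sum_ite_eq' _ n]
    split_ifs with hn
    · rfl
    · rw [notMem_support_iff.1 hn, derivative_zero]
  have h1 : dt (bc F' f) = (dt f).map (mapRingHom (algebraMap F F')) := by
    ext1 n
    rw [hdc, coeff_map, hdc]
    unfold bc
    rw [coeff_map, coe_mapRingHom, derivative_map]
  have h2 : derivative (bc F' f) = (derivative f).map (mapRingHom (algebraMap F F')) := by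
    unfold bc
    rw [derivative_map]
  rw [Ideal.eq_top_iff_one] at hs ⊢
  have h3 := Ideal.mem_map_of_mem (mapRingHom (mapRingHom (algebraMap F F'))) hs
  rw [map_one, Ideal.map_span] at h3
  rw [h1, h2]
  refine Ideal.span_mono ?_ h3
  rintro x ⟨y, hy, rfl⟩
  rcases hy with rfl | rfl | hy
  · left; rfl
  · right; left; rfl
  · right; right
    rw [Set.mem_singleton_iff] at hy
    rw [hy]
    rfl

end H13.TA
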