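import Pool.Agent.H13.TA.Idg

/-!
# TA-IDM: the degree of a product of ideals

For a Dedekind domain: induction over the prime factorization of `I`; `dim J/PJ = dim O/P` for a prime `P ≠ 0` (`J/PJ` is a
one-dimensional vector space over `O/P`; e.g. choose `a ∈ J` not in `PJ`, then `O → J/PJ`, `s ↦ s a`, is onto with kernel
`P`, see `Ideal.Norm.AbsNorm`: `cardQuot_pow_of_prime` / `exists_mul_add_mem_pow_succ`; or `J/IJ ≅ O/I` by the strong
approximation `Ideal.exists_sup_span_eq`, `a O + I J = J`). Then `dim O/IJ = dim O/J + dim J/IJ`.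
-/

set_option autoImplicit false

open Polynomial

noncomputable section

namespace H13.TA

variable {F : Type} [Field F] {f : F[X][X]}

theorem ideg_mul (hf : f.Monic) [IsDedekindDomain (AdjoinRoot f)] {I J : Ideal (AdjoinRoot f)}
    (hI : I ≠ ⊥) (hJ : J ≠ ⊥) : ideg f (I * J) = ideg f I + ideg f J := by
  have hIJ : I * J ≠ ⊥ := mul_ne_zero hI hJ
  have hle : I * J ≤ J := Ideal.mul_le_right
  obtain ⟨a, ha⟩ := IsDedekindDomain.exists_sup_span_eq hle hIJ
  have haJ : a ∈ J := by
    rw [← ha]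
    exact Ideal.mem_sup_right (Ideal.mem_span_singleton_self a)
  have hfin := ideg_fin hf hIJ
  -- the kernel
  have hker : ∀ s : AdjoinRoot f, s * a ∈ I * J ↔ s ∈ I := by
    intro s
    constructor
    · intro hs
      have h1 : Ideal.span {s} * J ≤ I * J := by
        rw [← ha, Ideal.mul_sup]
        refine sup_le ?_ ?_
        · rw [ha]
          exact Ideal.mul_le_right
        · rw [Ideal.span_singleton_mul_span_singleton, Ideal.span_le,
            Set.singleton_subset_iff]
          rw [ha]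
          exact hs
      rw [← Ideal.dvd_iff_le] at h1
      have h2 : I ∣ Ideal.span {s} := (mul_dvd_mul_iff_right hJ).mp h1
      rw [Ideal.dvd_iff_le, Ideal.span_singleton_le_iff_mem] at h2
      exact h2
    · intro hs
      exact Ideal.mul_mem_mul hs haJ
  let α₀ : AdjoinRoot f →ₗ[AdjoinRoot f] (AdjoinRoot f ⧸ (I * J)) :=
    (Submodule.mkQ (I * J)).comp (LinearMap.toSpanSingleton (AdjoinRoot f) (AdjoinRoot f) a)
  have hα₀ : ∀ s, α₀ s = Ideal.Quotient.mk (I * J) (s * a) := fun s => rfl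
  let α : (AdjoinRoot f ⧸ I) →ₗ[AdjoinRoot f] (AdjoinRoot f ⧸ (I * J)) :=
    Submodule.liftQ I α₀ (by
      intro s hs
      rw [LinearMap.mem_ker, hα₀, Ideal.Quotient.eq_zero_iff_mem]
      exact (hker s).mpr hs)
  have hα : ∀ s, α (Ideal.Quotient.mk I s) = Ideal.Quotient.mk (I * J) (s * a) := fun s => rfl
  let αF : (AdjoinRoot f ⧸ I) →ₗ[F] (AdjoinRoot f ⧸ (I * J)) := α.restrictScalars F
  have hαF : ∀ s, αF (Ideal.Quotient.mk I s) = Ideal.Quotient.mk (I * J) (s * a) := fun s => rfl
  have hinj : Function.Injective αF := by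
    rw [injective_iff_map_eq_zero]
    intro x hx
    obtain ⟨s, rfl⟩ := Ideal.Quotient.mk_surjective x
    rw [hαF, Ideal.Quotient.eq_zero_iff_mem] at hx
    rw [Ideal.Quotient.eq_zero_iff_mem]
    exact (hker s).mp hx
  let β : (AdjoinRoot f ⧸ (I * J)) →ₗ[F] (AdjoinRoot f ⧸ J) :=
    (Ideal.Quotient.factorₐ F hle).toLinearMap
  have hβ : ∀ s, β (Ideal.Quotient.mk (I * J) s) = Ideal.Quotient.mk J s := fun s => rfl
  have hβr : LinearMap.range β = ⊤ :=
    LinearMap.range_eq_top.2 (Ideal.Quotient.factor_surjective hle)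
  have hβk : LinearMap.ker β = LinearMap.range αF := by
    apply le_antisymm
    · intro x hx
      obtain ⟨y, rfl⟩ := Ideal.Quotient.mk_surjective x
      rw [LinearMap.mem_ker, hβ, Ideal.Quotient.eq_zero_iff_mem, ← ha, Submodule.mem_sup] at hx
      obtain ⟨u, hu, v, hv, huv⟩ := hx
      obtain ⟨s, rfl⟩ := Ideal.mem_span_singleton'.mp hv
      refine ⟨Ideal.Quotient.mk I s, ?_⟩
      rw [hαF, ← huv, map_add, Ideal.Quotient.eq_zero_iff_mem.mpr hu, zero_add]
    · rintro _ ⟨x, rfl⟩
      obtain ⟨s, rfl⟩ := Ideal.Quotient.mk_surjective x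
      rw [LinearMap.mem_ker, hαF, hβ, Ideal.Quotient.eq_zero_iff_mem]
      exact J.mul_mem_left s haJ
  have h1 := LinearMap.finrank_range_add_finrank_ker β
  rw [hβr, finrank_top, hβk, LinearMap.finrank_range_of_inj hinj] at h1
  unfold ideg
  rw [← h1, add_comm]

end H13.TA
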