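import Pool.Agent.H13.TA.SmA

/-!
# TA-SMB: a smooth affine curve is normal

`O` is noetherian, a domain, not a field; all nonzero primes are maximal (integral over the one-dimensional ring `F[t]`); the
localization at each maximal ideal is a noetherian local domain with principal maximal ideal (`sm_local`), not a field, so a
discrete valuation ring (`IsDiscreteValuationRing.TFAE` / `tfae_of_isNoetherianRing_of_isLocalRing_of_isDomain`). So
`IsDedekindDomainDvr`, hence Dedekind.
-/

set_option autoImplicit false

open Polynomial

noncomputable section

namespace H13.TA

variable {F : Type} [Field F] {f : F[X][X]}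

theorem sm_ded (hf : f.Monic) [IsDomain (AdjoinRoot f)]
    (hs : Ideal.span {f, derivative f, dt f} = ⊤) : IsDedekindDomain (AdjoinRoot f) := by
  have h1 : Module.Finite F[X] (AdjoinRoot f) := hf.finite_adjoinRoot
  have h2 : Algebra.IsIntegral F[X] (AdjoinRoot f) := inferInstance
  have h3 : IsNoetherianRing (AdjoinRoot f) := isNoetherian_of_tower F[X] inferInstance
  have h4 : Ring.DimensionLEOne (AdjoinRoot f) := Ring.DimensionLEOne.of_isIntegral F[X] _
  have h5 : IsDedekindDomainDvr (AdjoinRoot f) :=
    { h3 with
      is_dvr_at_nonzero_prime := fun P hP hp => by
        have h6 : P.IsMaximal := hp.isMaximal hP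
        have h7 : IsDomain (Localization.AtPrime P) :=
          IsLocalization.isDomain_localization P.primeCompl_le_nonZeroDivisors
        have h8 : IsNoetherianRing (Localization.AtPrime P) :=
          IsLocalization.isNoetherianRing P.primeCompl _ h3
        have h9 := sm_local hf hs P
        exact ((IsDiscreteValuationRing.TFAE (Localization.AtPrime P)
          (IsLocalization.AtPrime.not_isField (AdjoinRoot f) hP _)).out 4 0).1 h9 }
  infer_instance

theorem Good.ded (h : Good f) : IsDedekindDomain (AdjoinRoot f) := by
  have := h.dom
  exact sm_ded h.monic h.smooth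

end H13.TA
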