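import Pool.Agent.H13.TA.EInv

/-!
# TA-EPZ: half of the primes of degree one are inert

`K ⊂ M` quadratic. `T` of `inert_or_split`; `S₀` = the `v` with `nm v` not prime or `v ∈ T`, `S₂` = the `v ∉ S₀` with two
primes `w₁ ≠ w₂` above of the same norm, `S₁` = the set in the statement. All `v` are in `S₀ ∪ S₁ ∪ S₂`. `PZ S₀ ≤ C`
(`H63.MA.pz_deg`, `pz_finite`, `pz_add`). `2 PZ S₂ ≤ PZ univ` on `M`: the `w₁(v)`, `w₂(v)` are all different (they lie over
different `v`). With `L = log (1/(s - 1))`: `L - C ≤ PZ univ (K) ≤ C + PZ S₁ + PZ S₂ ≤ C + PZ S₁ + (L + C)/2`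
(`H63.MA.pz_all` for `K` and `M`).
-/

set_option autoImplicit false

open Polynomial NumberField IsDedekindDomain
open H63.MA (Pl nm PZ Over)

noncomputable section

namespace H13.TA

private theorem epz_union {K : Type} [Field K] [NumberField K] (S S' : Set (Pl K)) {s : ℝ}
    (hs : 1 < s) : PZ (S ∪ S') s ≤ PZ S s + PZ S' s := by
  have h1 := H63.MA.pz_add S S' hs
  have h2 := H63.MA.pz_nonneg (S ∩ S') s
  linarith

private theorem epz_range {K M : Type} [Field K] [NumberField K] [Field M] [NumberField M]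
    (S : Set (Pl K)) (g : S → Pl M) (hg : Function.Injective g) (hn : ∀ v, nm (g v) = nm v.1)
    (s : ℝ) : PZ (Set.range g) s = PZ S s := by
  unfold PZ
  rw [← tsum_subtype, ← tsum_subtype]
  rw [tsum_range (fun w : Pl M => (nm w : ℝ) ^ (-s)) hg]
  exact tsum_congr fun v => by rw [hn]

theorem inert_pz {K M : Type} [Field K] [NumberField K] [Field M] [NumberField M]
    [Algebra K M] (h2 : Module.finrank K M = 2) (c : M ≃ₐ[K] M) (hc : c ≠ 1) :
    ∃ C : ℝ, ∀ s : ℝ, 1 < s → s ≤ 2 → 1 / 2 * Real.log (1 / (s - 1)) - C ≤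
      PZ {v : Pl K | (nm v).Prime ∧ ∃ w : Pl M, Over w v ∧
        ∀ x : 𝓞 M, ∃ z ∈ w.asIdeal, (z : M) = c (x : M) - (x : M) ^ nm v} s := by
  classical
  obtain ⟨T, hTf, hT⟩ := inert_or_split h2 c hc
  obtain ⟨C1, hC1⟩ := H63.MA.pz_all K
  obtain ⟨C2, hC2⟩ := H63.MA.pz_all M
  obtain ⟨C3, hC3⟩ := H63.MA.pz_deg K
  obtain ⟨C4, hC4⟩ := H63.MA.pz_finite hTf
  obtain ⟨S1, hS1⟩ : ∃ S1 : Set (Pl K), S1 = {v : Pl K | (nm v).Prime ∧ ∃ w : Pl M, Over w v ∧
        ∀ x : 𝓞 M, ∃ z ∈ w.asIdeal, (z : M) = c (x : M) - (x : M) ^ nm v} := ⟨_, rfl⟩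
  obtain ⟨S2, hS2⟩ : ∃ S2 : Set (Pl K), S2 = {v : Pl K | ∃ w₁ w₂ : Pl M, w₁ ≠ w₂ ∧ Over w₁ v ∧
    Over w₂ v ∧ nm w₁ = nm v ∧ nm w₂ = nm v} := ⟨_, rfl⟩
  have hg : ∀ v : S2, ∃ w₁ w₂ : Pl M, w₁ ≠ w₂ ∧ Over w₁ v.1 ∧
    Over w₂ v.1 ∧ nm w₁ = nm v.1 ∧ nm w₂ = nm v.1 := by
    rintro ⟨v, hv⟩
    rw [hS2] at hv
    exact hv
  choose g1 g2 hne ho1 ho2 hn1 hn2 using hg
  have hov : ∀ (w : Pl M) (v v' : Pl K), Over w v → Over w v' → v = v' := by
    intro w v v' h h'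
    exact HeightOneSpectrum.ext (h.symm.trans h')
  have hi1 : Function.Injective g1 := by
    intro v v' h
    refine Subtype.ext (hov (g1 v) v.1 v'.1 (ho1 v) ?_)
    rw [h]
    exact ho1 v'
  have hi2 : Function.Injective g2 := by
    intro v v' h
    refine Subtype.ext (hov (g2 v) v.1 v'.1 (ho2 v) ?_)
    rw [h]
    exact ho2 v'
  have hint : Set.range g1 ∩ Set.range g2 = ∅ := by
    ext w
    simp only [Set.mem_inter_iff, Set.mem_range, Set.mem_empty_iff_false, iff_false]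
    rintro ⟨⟨v, rfl⟩, ⟨v', hv'⟩⟩
    have h : v = v' := by
      refine Subtype.ext (hov (g1 v) v.1 v'.1 (ho1 v) ?_)
      rw [← hv']
      exact ho2 v'
    rw [← h] at hv'
    exact hne v hv'.symm
  have hcov : (Set.univ : Set (Pl K)) ⊆ (({v : Pl K | ¬ (nm v).Prime} ∪ T) ∪ S2) ∪ S1 := by
    intro v _
    by_cases hp : (nm v).Prime
    · by_cases hvT : v ∈ T
      · exact Or.inl (Or.inl (Or.inr hvT))
      · rcases hT v hvT hp with h | h
        · left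
          right
          rw [hS2]
          exact h
        · right
          rw [hS1]
          exact ⟨hp, h⟩
    · exact Or.inl (Or.inl (Or.inl hp))
  refine ⟨C1 + C3 + C4 + C2 / 2, fun s hs hs2 => ?_⟩
  rw [← hS1]
  have e1 := (abs_le.1 (hC1 s hs hs2)).1
  have e2 := (abs_le.1 (hC2 s hs hs2)).2
  have e3 := hC3 s hs
  have e4 := hC4 s hs
  have e5 := H63.MA.pz_mono hcov hs
  have e6 := epz_union (({v : Pl K | ¬ (nm v).Prime} ∪ T) ∪ S2) S1 hs
  have e7 := epz_union ({v : Pl K | ¬ (nm v).Prime} ∪ T) S2 hs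
  have e8 := epz_union {v : Pl K | ¬ (nm v).Prime} T hs
  have e9 := H63.MA.pz_add (Set.range g1) (Set.range g2) hs
  rw [hint, epz_range S2 g1 hi1 hn1 s, epz_range S2 g2 hi2 hn2 s] at e9
  have e10 := H63.MA.pz_nonneg (∅ : Set (Pl M)) s
  have e11 := H63.MA.pz_mono (Set.subset_univ (Set.range g1 ∪ Set.range g2)) hs
  have e12 : PZ (∅ : Set (Pl M)) s = 0 := by
    unfold PZ
    simp
  linarith

end H13.TA
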