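import Pool.Agent.H13.TA.Defs

/-!
# TA-BAS: the degree of the norm

`O = AdjoinRoot f` is free over `F[t]` with basis `1, x, .., x ^ (m - 1)` (`Polynomial.Monic.free_adjoinRoot`,
`finite_adjoinRoot`, `finrank_quotient_span_eq_natDegree'`). The norm is multiplicative and nonzero at nonzero elements
(domain); norm of a constant `c` of `F[t]` is `c ^ m`; a unit has a unit as norm, so `dg = 0`, and `Good.const` gives the
constant.
-/

set_option autoImplicit false

open Polynomial

noncomputable section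

namespace H13.TA

variable {F : Type} [Field F] {f : F[X][X]}

theorem finrank_O (hf : f.Monic) : Module.finrank F[X] (AdjoinRoot f) = f.natDegree := by
  rw [(AdjoinRoot.powerBasis' hf).finrank, AdjoinRoot.powerBasis'_dim]

theorem norm_ne (hf : f.Monic) [IsDomain (AdjoinRoot f)] {a : AdjoinRoot f} (ha : a ≠ 0) :
    Algebra.norm F[X] a ≠ 0 := by
  have h1 := hf.free_adjoinRoot
  have h2 := hf.finite_adjoinRoot
  exact Algebra.norm_ne_zero_iff.2 ha

theorem dg_zero (hf : f.Monic) (h0 : f.natDegree ≠ 0) : dg f 0 = 0 := by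
  have h1 := hf.free_adjoinRoot
  have h2 := hf.finite_adjoinRoot
  have h3 : Nontrivial (AdjoinRoot f) := by
    by_contra hn
    rw [not_nontrivial_iff_subsingleton] at hn
    exact h0 (by rw [← finrank_O hf]; exact Module.finrank_zero_of_subsingleton)
  unfold dg
  rw [Algebra.norm_zero, natDegree_zero]

theorem dg_mul (hf : f.Monic) [IsDomain (AdjoinRoot f)] {a b : AdjoinRoot f} (ha : a ≠ 0)
    (hb : b ≠ 0) : dg f (a * b) = dg f a + dg f b := by
  unfold dg
  rw [map_mul, natDegree_mul (norm_ne hf ha) (norm_ne hf hb)]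

private theorem bas_norm (hf : f.Monic) (c : F[X]) :
    Algebra.norm F[X] (algebraMap F[X] (AdjoinRoot f) c) = c ^ f.natDegree := by
  have h1 := hf.free_adjoinRoot
  have h2 := hf.finite_adjoinRoot
  rw [Algebra.norm_algebraMap, finrank_O hf]

private theorem bas_const (c : F) : algebraMap F (AdjoinRoot f) c =
    algebraMap F[X] (AdjoinRoot f) (C c) := by
  rw [IsScalarTower.algebraMap_apply F F[X] (AdjoinRoot f)]
  rfl

theorem dg_base (hf : f.Monic) (c : F[X]) :
    dg f (algebraMap F[X] (AdjoinRoot f) c) = f.natDegree * c.natDegree := by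
  unfold dg
  rw [bas_norm hf, natDegree_pow]

theorem dg_const (hf : f.Monic) (c : F) : dg f (algebraMap F (AdjoinRoot f) c) = 0 := by
  rw [bas_const, dg_base hf, natDegree_C, mul_zero]

theorem dg_cmul (hf : f.Monic) {c : F} (hc : c ≠ 0) (a : AdjoinRoot f) :
    dg f (algebraMap F (AdjoinRoot f) c * a) = dg f a := by
  unfold dg
  rw [bas_const, map_mul, bas_norm hf, ← C_pow, natDegree_C_mul (pow_ne_zero _ hc)]

theorem dg_neg (hf : f.Monic) (a : AdjoinRoot f) : dg f (-a) = dg f a := by
  have h := dg_cmul hf (c := (-1 : F)) (neg_ne_zero.2 one_ne_zero) a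
  rwa [map_neg, map_one, neg_one_mul] at h

theorem unit_const (h : Good f) (u : (AdjoinRoot f)ˣ) :
    ∃ c : F, c ≠ 0 ∧ (u : AdjoinRoot f) = algebraMap F (AdjoinRoot f) c := by
  have hd := h.dom
  have h1 : IsUnit (Algebra.norm F[X] (u : AdjoinRoot f)) := u.isUnit.map (Algebra.norm F[X])
  obtain ⟨c, hc⟩ := h.const (u : AdjoinRoot f) (natDegree_eq_zero_of_isUnit h1)
  refine ⟨c, ?_, hc⟩
  rintro rfl
  rw [map_zero] at hc
  exact u.ne_zero hc

end H13.TA
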