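import Mathlib

/-!
# TA-BCI: an irreducible polynomial stays irreducible over an extension of coprime degree

`π` irreducible over `F`, `α` a root of `π` in a field over `κ`. `[κ(α) : F]` is divisible by `[κ : F]` and by
`[F(α) : F] = deg π`, so by the product; so `[κ(α) : κ] ≥ deg π`, the minimal polynomial of `α` over `κ` divides `π` and
has the same degree.
-/

set_option autoImplicit false

open Polynomial

noncomputable section

namespace H13.TA

theorem bci {F κ : Type*} [Field F] [Field κ] [Algebra F κ] [FiniteDimensional F κ] (π : F[X])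
    (hπ : Irreducible π) (hc : (Module.finrank F κ).Coprime π.natDegree) :
    Irreducible (π.map (algebraMap F κ)) := by
  classical
  let K := AlgebraicClosure κ
  have hT : IsScalarTower F κ K := inferInstance
  have hd : π.degree ≠ 0 := by
    intro h
    exact hπ.not_isUnit (Polynomial.isUnit_iff_degree_eq_zero.2 h)
  obtain ⟨α, hα⟩ : ∃ α : K, aeval α π = 0 := IsAlgClosed.exists_aeval_eq_zero K π hd
  have hint : IsIntegral κ α := (Algebra.IsAlgebraic.isAlgebraic (R := κ) α).isIntegral
  have hαm : aeval α (π.map (algebraMap F κ)) = 0 := by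
    rw [aeval_map_algebraMap]; exact hα
  have hdvd : minpoly κ α ∣ π.map (algebraMap F κ) := minpoly.dvd κ α hαm
  have hirr : Irreducible (minpoly κ α) := minpoly.irreducible hint
  let L := IntermediateField.adjoin κ {α}
  have hL : Module.finrank κ L = (minpoly κ α).natDegree :=
    IntermediateField.adjoin.finrank hint
  have hfd : FiniteDimensional κ L := IntermediateField.adjoin.finiteDimensional hint
  have h1 : Module.finrank F κ * Module.finrank κ L = Module.finrank F L :=
    Module.finrank_mul_finrank F κ L
  let γ : L := IntermediateField.AdjoinSimple.gen κ α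
  have hT3 : IsScalarTower F L K := IsScalarTower.of_algebraMap_eq fun x => by
    rw [IsScalarTower.algebraMap_apply F κ L, ← IsScalarTower.algebraMap_apply κ L K,
      ← IsScalarTower.algebraMap_apply F κ K]
  have hγ : aeval γ π = 0 := by
    have h2 : algebraMap L K (aeval γ π) = 0 := by
      rw [← aeval_algebraMap_apply]
      exact hα
    exact (map_eq_zero_iff _ (algebraMap L K).injective).1 h2
  have hfact : Fact (Irreducible π) := ⟨hπ⟩
  let φ : AdjoinRoot π →ₐ[F] L := AdjoinRoot.liftAlgHom π (Algebra.ofId F L) γ (by
    rw [← hγ]; rfl)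
  let _ : Algebra (AdjoinRoot π) L := φ.toRingHom.toAlgebra
  have hT2 : IsScalarTower F (AdjoinRoot π) L := IsScalarTower.of_algebraMap_eq fun x =>
    (φ.commutes x).symm
  have h3 : Module.finrank F (AdjoinRoot π) * Module.finrank (AdjoinRoot π) L =
      Module.finrank F L := Module.finrank_mul_finrank F (AdjoinRoot π) L
  have h4 : Module.finrank F (AdjoinRoot π) = π.natDegree := by
    rw [(AdjoinRoot.powerBasis hπ.ne_zero).finrank, AdjoinRoot.powerBasis_dim]
  have h5 : π.natDegree ∣ Module.finrank F κ * (minpoly κ α).natDegree := by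
    rw [← hL, h1, ← h3, h4]
    exact Dvd.intro _ rfl
  have h6 : π.natDegree ∣ (minpoly κ α).natDegree := hc.symm.dvd_of_dvd_mul_left h5
  have h7 : 0 < (minpoly κ α).natDegree := minpoly.natDegree_pos hint
  have h8 : π.natDegree ≤ (minpoly κ α).natDegree := Nat.le_of_dvd h7 h6
  have h9 : (π.map (algebraMap F κ)).natDegree ≤ (minpoly κ α).natDegree := by
    rw [natDegree_map]; exact h8
  have h10 : π.map (algebraMap F κ) ≠ 0 := (Polynomial.map_ne_zero_iff (algebraMap F κ).injective).2 hπ.ne_zero
  have h11 : Associated (minpoly κ α) (π.map (algebraMap F κ)) := by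
    obtain ⟨g, hg⟩ := hdvd
    have hg0 : g ≠ 0 := by
      rintro rfl
      rw [mul_zero] at hg
      exact h10 hg
    have h12 : (π.map (algebraMap F κ)).natDegree = (minpoly κ α).natDegree + g.natDegree := by
      rw [hg, natDegree_mul hirr.ne_zero hg0]
    have h13 : g.natDegree = 0 := by omega
    have h14 : IsUnit g := by
      rw [Polynomial.isUnit_iff_degree_eq_zero, degree_eq_natDegree hg0, h13]
      rfl
    rw [hg]
    exact (associated_mul_unit_right _ _ h14)
  exact h11.irreducible hirr

end H13.TA
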