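import Mathlib

/-!
# TA-FIL: a counting lemma for filtered groups

`A_D = {v ≤ D}` is a finite subgroup if it is not empty (`h1`), the `A_D` increase to `A`. `A/sA` is finite, so for large
`D` the map `A_(D + μ) → A/sA` is onto; its kernel is `sA ∩ A_(D + μ) = s(A_D)` (`hμ`), in bijection with `A_D`. Lagrange.
-/

set_option autoImplicit false

open Polynomial

noncomputable section

namespace H13.TA

theorem fil {A : Type*} [AddCommGroup A] (s : A →+ A) (hs : Function.Injective s) (v : A → ℕ)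
    (h1 : ∀ a b, v (a - b) ≤ max (v a) (v b)) (hfin : ∀ D, {a | v a ≤ D}.Finite) (μ : ℕ)
    (hμ : ∀ a D, v (s a) ≤ D + μ ↔ v a ≤ D) (hq : Finite (A ⧸ s.range)) :
    ∃ D0, ∀ D ≥ D0, Nat.card {a // v a ≤ D + μ} = Nat.card (A ⧸ s.range) * Nat.card {a // v a ≤ D} := by
  classical
  have := Fintype.ofFinite (A ⧸ s.range)
  refine ⟨max (v 0) (Finset.univ.sup fun c : A ⧸ s.range => v (Quotient.out c)), ?_⟩
  intro D hD
  have h0 : v 0 ≤ D := le_trans (le_max_left _ _) hD
  have hc : ∀ c : A ⧸ s.range, v (Quotient.out c) ≤ D := fun c =>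
    le_trans (Finset.le_sup (f := fun c : A ⧸ s.range => v (Quotient.out c)) (Finset.mem_univ c))
      (le_trans (le_max_right _ _) hD)
  -- the subgroup
  have key : ∀ E, v 0 ≤ E → ∃ H : AddSubgroup A, ∀ a, a ∈ H ↔ v a ≤ E := by
    intro E hE
    have hneg : ∀ a, v a ≤ E → v (-a) ≤ E := by
      intro a ha
      have := h1 0 a
      rw [zero_sub] at this
      exact le_trans this (max_le hE ha)
    refine ⟨{ carrier := {a | v a ≤ E}, zero_mem' := hE, add_mem' := ?_, neg_mem' := ?_ }, fun a => Iff.rfl⟩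
    · intro a b ha hb
      have := h1 a (-b)
      rw [sub_neg_eq_add] at this
      exact le_trans this (max_le ha (hneg b hb))
    · intro a ha
      exact hneg a ha
  obtain ⟨H, hH⟩ := key (D + μ) (by omega)
  obtain ⟨K, hK⟩ := key D h0
  have e1 : Nat.card {a // v a ≤ D + μ} = Nat.card H :=
    Nat.card_congr (Equiv.subtypeEquivRight fun a => (hH a).symm)
  have e2 : Nat.card {a // v a ≤ D} = Nat.card K :=
    Nat.card_congr (Equiv.subtypeEquivRight fun a => (hK a).symm)
  set f : H →+ A ⧸ s.range := (QuotientAddGroup.mk' s.range).comp H.subtype with hf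
  have hsurj : Function.Surjective f := by
    intro c
    refine ⟨⟨Quotient.out c, (hH _).2 (le_trans (hc c) (by omega))⟩, ?_⟩
    simp only [hf, AddMonoidHom.comp_apply, AddSubgroup.subtype_apply, QuotientAddGroup.mk'_apply]
    exact Quotient.out_eq c
  have e3 : Nat.card H = Nat.card (H ⧸ f.ker) * Nat.card f.ker :=
    AddSubgroup.card_eq_card_quotient_mul_card_addSubgroup f.ker
  have e4 : Nat.card (H ⧸ f.ker) = Nat.card (A ⧸ s.range) :=
    Nat.card_congr (QuotientAddGroup.quotientKerEquivOfSurjective f hsurj).toEquiv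
  have e5 : Nat.card K = Nat.card f.ker := by
    refine Nat.card_congr (Equiv.ofBijective
      (fun a : K => (⟨⟨s a.1, (hH _).2 ((hμ a.1 D).2 ((hK _).1 a.2))⟩, ?_⟩ : f.ker)) ⟨?_, ?_⟩)
    · rw [AddMonoidHom.mem_ker]
      simp only [hf, AddMonoidHom.comp_apply, AddSubgroup.subtype_apply, QuotientAddGroup.mk'_apply]
      rw [QuotientAddGroup.eq_zero_iff]
      exact ⟨a.1, rfl⟩
    · intro a b hab
      have := congrArg (fun z : f.ker => (z.1 : A)) hab
      exact Subtype.ext (hs this)
    · rintro ⟨⟨b, hb⟩, hb2⟩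
      rw [AddMonoidHom.mem_ker] at hb2
      simp only [hf, AddMonoidHom.comp_apply, AddSubgroup.subtype_apply, QuotientAddGroup.mk'_apply] at hb2
      rw [QuotientAddGroup.eq_zero_iff] at hb2
      obtain ⟨a, rfl⟩ := hb2
      exact ⟨⟨a, (hK _).2 ((hμ a D).1 ((hH _).1 hb))⟩, rfl⟩
  rw [e1, e2, e3, e4, e5]

end H13.TA
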