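import Pool.Agent.H13.TA.IdM
import Pool.Agent.H13.TA.Fil

/-!
# TA-XD: growth of the number of elements of bounded degree in an ideal

* `xd_fin`: choose `r` with `r m > D`, `m = f.natDegree`. If `dg a ≤ D`, `dg b ≤ D` and `a - b = t ^ r c`, `c ≠ 0`, then
  `dg (a - b) ≥ r m > D` (`dg_mul`, `dg_base`), against `ultra`. So `{dg ≤ D} → O/(t ^ r)` is injective, and the target is
  finite (`card_quot`).
* `xd_grow`: `fil` with `A = J`, `s` = multiplication by `x`, `v = dg`, `μ = dg x`; `J/xJ` has `q ^ dg x` elements: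
  `#(O/xJ) = #(O/J) #(J/xJ)` and `ideg (xJ) = dg x + ideg J` (`ideg_mul`, `ideg_span`, `card_quot`).
-/

set_option autoImplicit false

open Polynomial

noncomputable section

namespace H13.TA

variable {F : Type} [Field F] {f : F[X][X]}

private theorem tpow_ne (hf : f.Monic) [IsDomain (AdjoinRoot f)] (r : ℕ) :
    algebraMap F[X] (AdjoinRoot f) (X ^ r) ≠ 0 := by
  have h1 := hf.free_adjoinRoot
  rw [Algebra.algebraMap_eq_smul_one]
  intro h3
  rcases smul_eq_zero.mp h3 with h4 | h4
  · exact pow_ne_zero r X_ne_zero h4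
  · exact one_ne_zero h4

private theorem dg_sub_le (h : Good f) (a b : AdjoinRoot f) :
    dg f (a - b) ≤ max (dg f a) (dg f b) := by
  have h1 := h.ultra a (-b)
  rwa [dg_neg h.monic, ← sub_eq_add_neg] at h1

theorem xd_fin [Finite F] (h : Good f) (D : ℕ) : {a : AdjoinRoot f | dg f a ≤ D}.Finite := by
  have hd := h.dom
  set T : AdjoinRoot f := algebraMap F[X] (AdjoinRoot f) (X ^ (D + 1)) with hT
  have hT0 : T ≠ 0 := tpow_ne h.monic (D + 1)
  have hTd : D < dg f T := by
    rw [hT, dg_base h.monic, natDegree_X_pow]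
    have := Nat.pos_of_ne_zero h.pos
    nlinarith
  have hS : Ideal.span {T} ≠ ⊥ := by
    rw [Ne, Ideal.span_singleton_eq_bot]
    exact hT0
  have hfin := (card_quot h.monic hS).1
  apply Set.Finite.of_finite_image (f := Ideal.Quotient.mk (Ideal.span {T})) (Set.toFinite _)
  intro a ha b hb hab
  rw [Ideal.Quotient.eq, Ideal.mem_span_singleton'] at hab
  obtain ⟨c, hc⟩ := hab
  by_cases hc0 : c = 0
  · rw [hc0, zero_mul] at hc
    exact (sub_eq_zero.mp hc.symm)
  · exfalso
    have h1 := dg_sub_le h a b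
    rw [← hc, dg_mul h.monic hc0 hT0] at h1
    have h2 : max (dg f a) (dg f b) ≤ D := max_le ha hb
    omega

theorem xd_grow [Finite F] (h : Good f) [IsDedekindDomain (AdjoinRoot f)]
    {J : Ideal (AdjoinRoot f)} (hJ : J ≠ ⊥) {x : AdjoinRoot f} (hx : x ≠ 0) :
    ∃ D0, ∀ D ≥ D0, XD f J (D + dg f x) = Nat.card F ^ dg f x * XD f J D := by
  let K : AddSubgroup (AdjoinRoot f) := Submodule.toAddSubgroup J
  let H : AddSubgroup (AdjoinRoot f) := Submodule.toAddSubgroup (Ideal.span {x} * J)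
  have hK : ∀ a, a ∈ K ↔ a ∈ J := fun a => Iff.rfl
  have hH : ∀ a, a ∈ H ↔ ∃ b ∈ J, a = x * b := by
    intro a
    have h1 : a ∈ H ↔ a ∈ Ideal.span {x} * J := Iff.rfl
    rw [h1, Ideal.mem_span_singleton_mul]
    constructor
    · rintro ⟨z, hz, rfl⟩
      exact ⟨z, hz, rfl⟩
    · rintro ⟨z, hz, rfl⟩
      exact ⟨z, hz, rfl⟩
  let s : K →+ K :=
    { toFun := fun a => ⟨x * a, J.mul_mem_left x a.2⟩
      map_zero' := Subtype.ext (mul_zero x)
      map_add' := fun a b => Subtype.ext (mul_add x a b) }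
  have hs : ∀ a : K, ((s a : K) : AdjoinRoot f) = x * a := fun a => rfl
  have hsinj : Function.Injective s := by
    intro a b hab
    have h1 := congrArg (fun z : K => (z : AdjoinRoot f)) hab
    exact Subtype.ext (mul_left_cancel₀ hx h1)
  have hrange : s.range = H.addSubgroupOf K := by
    ext a
    rw [AddSubgroup.mem_addSubgroupOf, hH, AddMonoidHom.mem_range]
    constructor
    · rintro ⟨b, rfl⟩
      exact ⟨b, b.2, rfl⟩
    · rintro ⟨b, hb, hab⟩
      exact ⟨⟨b, hb⟩, Subtype.ext hab.symm⟩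
  have hHK : H ≤ K := by
    intro a ha
    obtain ⟨b, hb, rfl⟩ := (hH a).mp ha
    exact J.mul_mem_left x hb
  have hxs : Ideal.span {x} ≠ ⊥ := by
    rw [Ne, Ideal.span_singleton_eq_bot]
    exact hx
  have hKi : K.index = Nat.card F ^ ideg f J := by
    rw [← (card_quot h.monic hJ).2]
    exact Submodule.cardQuot_apply J
  have hHi : H.index = Nat.card F ^ (dg f x + ideg f J) := by
    rw [← ideg_span h.monic hx, ← ideg_mul h.monic hxs hJ, ← (card_quot h.monic
      (mul_ne_zero hxs hJ)).2]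
    exact Submodule.cardQuot_apply _
  have hq0 : 0 < Nat.card F := Nat.card_pos
  have hcard : Nat.card (K ⧸ s.range) = Nat.card F ^ dg f x := by
    have h1 := AddSubgroup.relIndex_mul_index hHK
    rw [hKi, hHi, pow_add] at h1
    have h2 := Nat.eq_of_mul_eq_mul_right (pow_pos hq0 _) h1
    rw [hrange]
    exact h2
  have hfinq : Finite (K ⧸ s.range) := by
    apply Nat.finite_of_card_ne_zero
    rw [hcard]
    exact (pow_pos hq0 _).ne'
  obtain ⟨D0, hD0⟩ := fil s hsinj (fun a => dg f (a : AdjoinRoot f))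
    (fun a b => dg_sub_le h a b)
    (fun D => (xd_fin h D).preimage (Subtype.val_injective.injOn)) (dg f x) (by
      intro a D
      rw [hs]
      by_cases ha : (a : AdjoinRoot f) = 0
      · rw [ha, mul_zero, dg_zero h.monic h.pos]
        simp
      · rw [dg_mul h.monic hx ha]
        omega) hfinq
  refine ⟨D0, fun D hD => ?_⟩
  have h1 := hD0 D hD
  rw [hcard] at h1
  have h2 : ∀ E, XD f J E = Nat.card {a : K // dg f (a : AdjoinRoot f) ≤ E} := by
    intro E
    unfold XD
    exact Nat.card_congr (Equiv.subtypeSubtypeEquivSubtypeInter (fun a => a ∈ J)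
      (fun a => dg f a ≤ E)).symm
  rw [h2, h2, h1]

/-- the case `x = t` -/
theorem xd_t [Finite F] (h : Good f) [IsDedekindDomain (AdjoinRoot f)]
    {J : Ideal (AdjoinRoot f)} (hJ : J ≠ ⊥) :
    ∃ D0, ∀ D ≥ D0, XD f J (D + f.natDegree) = Nat.card F ^ f.natDegree * XD f J D := by
  have h1 : algebraMap F[X] (AdjoinRoot f) X ≠ 0 := by
    intro h2
    have h3 := dg_base h.monic (X : F[X])
    rw [h2, dg_zero h.monic h.pos, natDegree_X, mul_one] at h3
    exact h.pos h3.symm
  obtain ⟨D0, hD⟩ := xd_grow h hJ h1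
  refine ⟨D0, fun D hD' => ?_⟩
  have h4 := hD D hD'
  rwa [dg_base h.monic, natDegree_X, mul_one] at h4

end H13.TA
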