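import Pool.Agent.H13.TA.SmB
import Pool.Agent.H13.TA.Xd

/-!
# TA-BCJ: elements of equal degree are dependent modulo lower degree

`m = f.natDegree`, `X(D) = #{a ∈ O : dg a ≤ D}`. `X(D + m) = q ^ m X(D)` for large `D` (`xd_t`), `X` is monotone, so
`X(D) ≤ q ^ m X(D - 1)` for large `D`. Let `a_0, .., a_m` have `dg ≤ dg b`, `b ≠ 0`, and assume that no nontrivial
combination is zero or of degree `< dg b`. Multiply by `t ^ r`, `r` large: the same for `t ^ r a_i` and `D = dg b + r m`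
(`dg_mul`). So the `q ^ (m + 1)` combinations are in `{dg ≤ D}` and incongruent modulo the subgroup `{dg ≤ D - 1}`, so
`X(D) ≥ q ^ (m + 1) X(D - 1)`, `X(D - 1) ≥ 1`: contradiction. (If `dg b = 0` use `r > 0`.)
-/

set_option autoImplicit false

open Polynomial

noncomputable section

namespace H13.TA

variable {F : Type} [Field F] {f : F[X][X]}

private theorem bcj_fin [Finite F] (h : Good f) (D : ℕ) :
    Finite {a : AdjoinRoot f // a ∈ (⊤ : Ideal (AdjoinRoot f)) ∧ dg f a ≤ D} := by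
  have h1 := xd_fin h D
  have h2 : Finite {a : AdjoinRoot f | dg f a ≤ D} := h1.to_subtype
  refine Finite.of_injective (fun x : {a : AdjoinRoot f // a ∈ (⊤ : Ideal (AdjoinRoot f)) ∧
    dg f a ≤ D} => (⟨x.1, x.2.2⟩ : {a : AdjoinRoot f | dg f a ≤ D})) ?_
  intro x y hxy
  exact Subtype.ext (congrArg (fun z => z.1) hxy)

private theorem bcj_mono [Finite F] (h : Good f) {D D' : ℕ} (hD : D ≤ D') :
    XD f ⊤ D ≤ XD f ⊤ D' := by
  have h1 := bcj_fin h D'
  refine Nat.card_le_card_of_injective (fun x : {a : AdjoinRoot f //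
    a ∈ (⊤ : Ideal (AdjoinRoot f)) ∧ dg f a ≤ D} => (⟨x.1, x.2.1, x.2.2.trans hD⟩ :
      {a : AdjoinRoot f // a ∈ (⊤ : Ideal (AdjoinRoot f)) ∧ dg f a ≤ D'})) ?_
  intro x y hxy
  exact Subtype.ext (congrArg (fun z => z.1) hxy)

private theorem bcj_pos [Finite F] (h : Good f) (D : ℕ) : 0 < XD f ⊤ D := by
  have h1 := bcj_fin h D
  have h2 : Nonempty {a : AdjoinRoot f // a ∈ (⊤ : Ideal (AdjoinRoot f)) ∧ dg f a ≤ D} :=
    ⟨⟨0, Submodule.mem_top, by rw [dg_zero h.monic h.pos]; exact Nat.zero_le _⟩⟩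
  exact Nat.card_pos

theorem bcj [Finite F] (h : Good f) (b : AdjoinRoot f) (hb : b ≠ 0)
    (a : Fin (f.natDegree + 1) → AdjoinRoot f) (ha : ∀ i, dg f (a i) ≤ dg f b) :
    ∃ c : Fin (f.natDegree + 1) → F, c ≠ 0 ∧
      (∑ i, algebraMap F (AdjoinRoot f) (c i) * a i = 0 ∨
        dg f (∑ i, algebraMap F (AdjoinRoot f) (c i) * a i) < dg f b) := by
  classical
  by_contra hcon
  push Not at hcon
  have hdom := h.dom
  have hded := h.ded
  have : Fintype F := Fintype.ofFinite F
  have htop : (⊤ : Ideal (AdjoinRoot f)) ≠ ⊥ := top_ne_bot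
  obtain ⟨D0, hD0⟩ := xd_t h htop
  set t : AdjoinRoot f := algebraMap F[X] (AdjoinRoot f) X with ht
  have hdt : dg f t = f.natDegree := by
    rw [ht, dg_base h.monic, natDegree_X, mul_one]
  have ht0 : t ≠ 0 := by
    intro h2
    rw [h2, dg_zero h.monic h.pos] at hdt
    exact h.pos hdt.symm
  have htr : ∀ r : ℕ, t ^ r ≠ 0 := fun r => pow_ne_zero r ht0
  have hdtr : ∀ r : ℕ, dg f (t ^ r) = r * f.natDegree := by
    intro r
    rw [ht, ← map_pow, dg_base h.monic, natDegree_X_pow, mul_comm]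
  set r : ℕ := D0 + 1 with hr
  set S : (Fin (f.natDegree + 1) → F) → AdjoinRoot f :=
    fun c => ∑ i, algebraMap F (AdjoinRoot f) (c i) * a i with hS
  have hSle : ∀ c, dg f (S c) ≤ dg f b := by
    intro c
    rw [hS]
    refine Finset.sum_induction _ (fun x => dg f x ≤ dg f b) ?_ ?_ ?_
    · intro x y hx hy
      exact (h.ultra x y).trans (max_le hx hy)
    · rw [dg_zero h.monic h.pos]; exact Nat.zero_le _
    · intro i _
      by_cases hc : c i = 0
      · rw [hc, map_zero, zero_mul, dg_zero h.monic h.pos]; exact Nat.zero_le _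
      · rw [dg_cmul h.monic hc]; exact ha i
  have hmpos : 1 ≤ f.natDegree := Nat.one_le_iff_ne_zero.2 h.pos
  set D : ℕ := dg f b + r * f.natDegree with hD
  have hDr : D0 + 1 ≤ D := by
    rw [hD, hr]
    nlinarith
  have hinj : Nat.card ((Fin (f.natDegree + 1) → F) × {x : AdjoinRoot f //
      x ∈ (⊤ : Ideal (AdjoinRoot f)) ∧ dg f x ≤ D - 1}) ≤ XD f ⊤ D := by
    have hf := bcj_fin h D
    refine Nat.card_le_card_of_injective (fun y : (Fin (f.natDegree + 1) → F) ×
      {x : AdjoinRoot f // x ∈ (⊤ : Ideal (AdjoinRoot f)) ∧ dg f x ≤ D - 1} =>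
      (⟨t ^ r * S y.1 + y.2.1, Submodule.mem_top, ?_⟩ :
      {a : AdjoinRoot f // a ∈ (⊤ : Ideal (AdjoinRoot f)) ∧ dg f a ≤ D})) ?_
    · refine (h.ultra _ _).trans (max_le ?_ (y.2.2.2.trans (Nat.sub_le _ _)))
      by_cases hz : S y.1 = 0
      · rw [hz, mul_zero, dg_zero h.monic h.pos]; exact Nat.zero_le _
      · rw [dg_mul h.monic (htr r) hz, hdtr]
        have h0 := hSle y.1
        omega
    · rintro ⟨c, x⟩ ⟨c', x'⟩ hxy
      have h1 : t ^ r * S c + x.1 = t ^ r * S c' + x'.1 := congrArg (fun z => z.1) hxy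
      have h2 : t ^ r * S (c - c') = x'.1 + -x.1 := by
        have h3 : S (c - c') = S c - S c' := by
          simp only [hS, Pi.sub_apply, map_sub, sub_mul, Finset.sum_sub_distrib]
        rw [h3, mul_sub]
        linear_combination h1
      by_cases hcc : c = c'
      · subst hcc
        have h4 : x.1 = x'.1 := add_left_cancel h1
        rw [Subtype.ext h4]
      · exfalso
        obtain ⟨h5, h6⟩ := hcon (c - c') (sub_ne_zero.2 hcc)
        have h7 : dg f (t ^ r * S (c - c')) = r * f.natDegree + dg f (S (c - c')) := by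
          rw [dg_mul h.monic (htr r) h5, hdtr]
        have h8 : dg f (x'.1 + -x.1) ≤ D - 1 := by
          refine (h.ultra _ _).trans (max_le x'.2.2 ?_)
          rw [dg_neg h.monic]
          exact x.2.2
        rw [← h2, h7] at h8
        have h9 : dg f b ≤ dg f (S (c - c')) := h6
        omega
  have hc1 : Nat.card ((Fin (f.natDegree + 1) → F) × {x : AdjoinRoot f //
      x ∈ (⊤ : Ideal (AdjoinRoot f)) ∧ dg f x ≤ D - 1}) =
      Nat.card F ^ (f.natDegree + 1) * XD f ⊤ (D - 1) := by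
    rw [Nat.card_prod]
    congr 1
    rw [Nat.card_fun, Nat.card_eq_fintype_card (α := Fin (f.natDegree + 1)), Fintype.card_fin]
  have hc2 : XD f ⊤ D ≤ Nat.card F ^ f.natDegree * XD f ⊤ (D - 1) := by
    have h1 : XD f ⊤ (D - 1 + f.natDegree) = Nat.card F ^ f.natDegree * XD f ⊤ (D - 1) :=
      hD0 (D - 1) (by omega)
    rw [← h1]
    exact bcj_mono h (by omega)
  have hq : 1 < Nat.card F := Finite.one_lt_card
  have hp := bcj_pos h (D - 1)
  rw [hc1] at hinj
  have h10 : Nat.card F ^ (f.natDegree + 1) * XD f ⊤ (D - 1) ≤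
      Nat.card F ^ f.natDegree * XD f ⊤ (D - 1) := hinj.trans hc2
  have h11 : Nat.card F ^ (f.natDegree + 1) ≤ Nat.card F ^ f.natDegree :=
    Nat.le_of_mul_le_mul_right h10 hp
  have h12 : Nat.card F ^ f.natDegree < Nat.card F ^ (f.natDegree + 1) :=
    Nat.pow_lt_pow_right hq (Nat.lt_succ_self _)
  omega

end H13.TA
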