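import Pool.Agent.H13.TA.Bas

/-!
# TA-BCV: the valuation ring at infinity

`B = {a/b : dg a ≤ dg b} ∪ {0}` in the fraction field `L` of `O`: closed under addition by `ultra`
(`a/b + a'/b' = (a b' + a' b)/(b b')`), under multiplication by `dg_mul`, and it contains `x` or `x⁻¹` for each `x`. Well
defined: `a/b = a'/b'` gives `a b' = a' b`. Note `dg_zero`.
-/

set_option autoImplicit false

open Polynomial

noncomputable section

namespace H13.TA

variable {F : Type} [Field F] {f : F[X][X]}

theorem bcv (h : Good f) [IsDomain (AdjoinRoot f)] :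
    ∃ B : ValuationSubring (FractionRing (AdjoinRoot f)), ∀ a b : AdjoinRoot f, b ≠ 0 →
      (algebraMap (AdjoinRoot f) (FractionRing (AdjoinRoot f)) a /
        algebraMap (AdjoinRoot f) (FractionRing (AdjoinRoot f)) b ∈ B ↔ dg f a ≤ dg f b) := by
  classical
  have hm := h.monic
  have d0 : dg f 0 = 0 := dg_zero hm h.pos
  have hle : ∀ a b : AdjoinRoot f, dg f (a * b) ≤ dg f a + dg f b := by
    intro a b
    by_cases ha : a = 0
    · rw [ha, zero_mul, d0]
      exact Nat.zero_le _
    · by_cases hb : b = 0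
      · rw [hb, mul_zero, d0]
        exact Nat.zero_le _
      · exact (dg_mul hm ha hb).le
  let ι := algebraMap (AdjoinRoot f) (FractionRing (AdjoinRoot f))
  have hι : Function.Injective ι := IsFractionRing.injective (AdjoinRoot f) _
  have hι0 : ∀ b : AdjoinRoot f, b ≠ 0 → ι b ≠ 0 := by
    intro b hb h0
    apply hb
    apply hι
    rw [h0, map_zero]
  let B : ValuationSubring (FractionRing (AdjoinRoot f)) :=
    { carrier := {z | ∃ a b : AdjoinRoot f, b ≠ 0 ∧ z = ι a / ι b ∧ dg f a ≤ dg f b}
      mul_mem' := by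
        rintro x y ⟨a, b, hb, rfl, hab⟩ ⟨a', b', hb', rfl, hab'⟩
        refine ⟨a * a', b * b', mul_ne_zero hb hb', ?_, ?_⟩
        · rw [map_mul, map_mul, div_mul_div_comm]
        · rw [dg_mul hm hb hb']
          exact (hle a a').trans (Nat.add_le_add hab hab')
      one_mem' := ⟨1, 1, one_ne_zero, by rw [map_one, div_one], le_rfl⟩
      add_mem' := by
        rintro x y ⟨a, b, hb, rfl, hab⟩ ⟨a', b', hb', rfl, hab'⟩
        refine ⟨a * b' + b * a', b * b', mul_ne_zero hb hb', ?_, ?_⟩
        · rw [div_add_div _ _ (hι0 b hb) (hι0 b' hb'), map_add, map_mul, map_mul, map_mul]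
        · rw [dg_mul hm hb hb']
          refine (h.ultra _ _).trans (max_le ?_ ?_)
          · exact (hle a b').trans (Nat.add_le_add_right hab _)
          · exact (hle b a').trans (Nat.add_le_add_left hab' _)
      zero_mem' := ⟨0, 1, one_ne_zero, by rw [map_zero, zero_div], by rw [d0]; exact Nat.zero_le _⟩
      neg_mem' := by
        rintro x ⟨a, b, hb, rfl, hab⟩
        exact ⟨-a, b, hb, by rw [map_neg, neg_div], by rw [dg_neg hm]; exact hab⟩
      mem_or_inv_mem' := by
        intro x
        obtain ⟨a, b, hb, rfl⟩ := IsFractionRing.div_surjective (A := AdjoinRoot f) x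
        have hb0 : b ≠ 0 := nonZeroDivisors.ne_zero hb
        by_cases hab : dg f a ≤ dg f b
        · exact Or.inl ⟨a, b, hb0, rfl, hab⟩
        · have ha0 : a ≠ 0 := by
            rintro rfl
            rw [d0] at hab
            exact hab (Nat.zero_le _)
          exact Or.inr ⟨b, a, ha0, by rw [inv_div], (not_le.1 hab).le⟩ }
  refine ⟨B, fun a b hb => ⟨?_, fun hab => ⟨a, b, hb, rfl, hab⟩⟩⟩
  rintro ⟨a', b', hb', heq, hab'⟩
  by_cases ha : a = 0
  · rw [ha, d0]
    exact Nat.zero_le _
  have h1 : a * b' = a' * b := by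
    apply hι
    rw [map_mul, map_mul]
    exact (div_eq_div_iff (hι0 b hb) (hι0 b' hb')).1 heq
  have ha' : a' ≠ 0 := by
    rintro rfl
    rw [zero_mul] at h1
    exact (mul_ne_zero ha hb') h1
  have h2 := congrArg (dg f) h1
  rw [dg_mul hm ha hb', dg_mul hm ha' hb] at h2
  omega

end H13.TA
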