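import Pool.Agent.H13.TA.BcJ
import Pool.Agent.H13.TA.BcV
import Pool.Agent.H13.TA.BcI
import Pool.Agent.H13.TA.Bc0

/-!
# TA-BCM: the degree of the coordinates is multiplicative

`F' = F(θ)`, basis `1, θ, .., θ ^ (k - 1)`, `π` the minimal polynomial of `θ` over `F`, of degree `k`; all prime factors of
`k` are larger than `m = f.natDegree`. `B` the valuation ring of `bcv`, `κ` its residue field, a field over `F`
(`F ⊂ B` as constants have `dg = 0`). `[κ : F] ≤ m` by `bcj`: elements `c_0, .., c_m` of `κ` lift to `a_i/b` with a common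
denominator, `dg a_i ≤ dg b`. So `[κ : F]` is prime to `k` and `π` is irreducible over `κ` (`bci`).
Let `a ≠ 0`, `b ≠ 0`, `x = a_i`, `y = b_j` coordinates of largest degree (choose them nonzero), `a = x α`, `b = y β` with
coordinates of `α`, `β` in `B` and one equal to `1`. `κ[X]/(π)` is a field, so the product of the classes of `α` and `β` is
not zero there: the coordinates of `α β` (reduction modulo the monic polynomial `π ∈ F[X]` is compatible with `B → κ`) are
in `B`, one of them a unit. So `c = x y (α β)` has a nonzero coordinate of degree `dg x + dg y` and all have degree at most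
this. (Work with `AdjoinRoot (π.map _)` over `O`, `B`, `L`, `κ`; `em θ` corresponds to `∑ a_i X ^ i`, `bc_bij` gives the
uniqueness of coordinates.)
-/

set_option autoImplicit false

open Polynomial

noncomputable section

namespace H13.TA

variable {F : Type} [Field F] {f : F[X][X]} {F' : Type} [Field F'] [Algebra F F']

/-! ### polynomials with given coefficients -/

private def pl {R : Type} [Semiring R] {k : ℕ} (a : Fin k → R) : R[X] :=
  ∑ i : Fin k, monomial (i : ℕ) (a i)

private theorem pl_coeff {R : Type} [Semiring R] {k : ℕ} (a : Fin k → R) (i : Fin k) :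
    (pl a).coeff (i : ℕ) = a i := by
  unfold pl
  rw [finsetSum_coeff, Finset.sum_eq_single i]
  · rw [coeff_monomial, if_pos rfl]
  · intro j _ hj
    rw [coeff_monomial, if_neg (fun h => hj (Fin.ext h))]
  · intro h
    exact absurd (Finset.mem_univ i) h

private theorem pl_deg {R : Type} [Semiring R] {k : ℕ} (a : Fin k → R) :
    (pl a).degree < (k : WithBot ℕ) := by
  have h1 := degree_sum_fin_lt a
  simp only [C_mul_X_pow_eq_monomial] at h1
  exact h1

private theorem pl_map {R S : Type} [Semiring R] [Semiring S] (φ : R →+* S) {k : ℕ}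
    (a : Fin k → R) : (pl a).map φ = pl (fun i => φ (a i)) := by
  unfold pl
  rw [Polynomial.map_sum]
  exact Finset.sum_congr rfl fun i _ => Polynomial.map_monomial φ

private theorem pl_smul {R : Type} [CommSemiring R] {k : ℕ} (x : R) (a : Fin k → R) :
    pl (fun i => x * a i) = x • pl a := by
  unfold pl
  rw [Finset.smul_sum]
  exact Finset.sum_congr rfl fun i _ => by rw [smul_monomial, smul_eq_mul]

private theorem eq_pl {R : Type} [Semiring R] {k : ℕ} {p : R[X]}
    (hp : p.degree < (k : WithBot ℕ)) : p = pl (fun i : Fin k => p.coeff i) := by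
  ext n
  by_cases hn : n < k
  · exact (pl_coeff (fun i : Fin k => p.coeff i) ⟨n, hn⟩).symm
  · have h1 : (k : WithBot ℕ) ≤ (n : WithBot ℕ) := by exact_mod_cast not_lt.1 hn
    rw [coeff_eq_zero_of_degree_lt (lt_of_lt_of_le hp h1),
      coeff_eq_zero_of_degree_lt (lt_of_lt_of_le (pl_deg _) h1)]

private theorem pl_eval {R S : Type} [CommSemiring R] [CommSemiring S] (φ : R →+* S) (x : S)
    {k : ℕ} (a : Fin k → R) : (pl a).eval₂ φ x = ∑ i : Fin k, φ (a i) * x ^ (i : ℕ) := by
  unfold pl
  rw [eval₂_finsetSum]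
  exact Finset.sum_congr rfl fun i _ => eval₂_monomial φ x

private theorem pl_ne {R : Type} [Semiring R] {k : ℕ} {a : Fin k → R} (i : Fin k)
    (h : a i ≠ 0) : pl a ≠ 0 := by
  intro h0
  apply h
  rw [← pl_coeff a i, h0, coeff_zero]

/-! ### the residue field at infinity -/

private theorem bcm_data [Finite F] (h : Good f) [IsDomain (AdjoinRoot f)] :
    ∃ (B : ValuationSubring (FractionRing (AdjoinRoot f))) (κ : Type) (_ : Field κ)
      (_ : Algebra F κ) (ρ : B →+* κ) (τ : F →+* B),
      (∀ a b : AdjoinRoot f, b ≠ 0 →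
        (algebraMap (AdjoinRoot f) (FractionRing (AdjoinRoot f)) a /
          algebraMap (AdjoinRoot f) (FractionRing (AdjoinRoot f)) b ∈ B ↔ dg f a ≤ dg f b)) ∧
      FiniteDimensional F κ ∧ Module.finrank F κ ≤ f.natDegree ∧
      (∀ c, ρ (τ c) = algebraMap F κ c) ∧
      (∀ c, ((τ c : B) : FractionRing (AdjoinRoot f)) =
        algebraMap (AdjoinRoot f) (FractionRing (AdjoinRoot f))
          (algebraMap F (AdjoinRoot f) c)) ∧
      ∀ z : B, ρ z ≠ 0 → ((z : FractionRing (AdjoinRoot f)))⁻¹ ∈ B ∧
        (z : FractionRing (AdjoinRoot f)) ≠ 0 := by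
  classical
  obtain ⟨B, hB⟩ := bcv h
  have hm := h.monic
  let ι := algebraMap (AdjoinRoot f) (FractionRing (AdjoinRoot f))
  have hι : Function.Injective ι := IsFractionRing.injective (AdjoinRoot f) _
  have hι0 : ∀ b : AdjoinRoot f, b ≠ 0 → ι b ≠ 0 := by
    intro b hb h0
    apply hb
    apply hι
    rw [h0, map_zero]
  have hF : ∀ c : F, (ι.comp (algebraMap F (AdjoinRoot f))) c ∈ B := fun c => by
    have h1 := (hB (algebraMap F (AdjoinRoot f) c) 1 one_ne_zero).2
      (by rw [dg_const hm]; exact Nat.zero_le _)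
    rwa [map_one, div_one] at h1
  let τ : F →+* B := (ι.comp (algebraMap F (AdjoinRoot f))).codRestrict B hF
  have hτ : ∀ c, ((τ c : B) : FractionRing (AdjoinRoot f)) = ι (algebraMap F (AdjoinRoot f) c) :=
    fun c => rfl
  let ρ : B →+* IsLocalRing.ResidueField B := IsLocalRing.residue B
  letI : Algebra F (IsLocalRing.ResidueField B) := (ρ.comp τ).toAlgebra
  have halg : ∀ c, algebraMap F (IsLocalRing.ResidueField B) c = ρ (τ c) := fun c => rfl
  have hunit : ∀ z : B, ρ z ≠ 0 → ((z : FractionRing (AdjoinRoot f)))⁻¹ ∈ B ∧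
      (z : FractionRing (AdjoinRoot f)) ≠ 0 := by
    intro z hz
    have h1 : IsUnit z := by
      by_contra hu
      exact hz ((IsLocalRing.residue_eq_zero_iff z).2 ((IsLocalRing.mem_maximalIdeal z).2 hu))
    obtain ⟨z', hz'⟩ := h1.exists_right_inv
    have h2 : (z : FractionRing (AdjoinRoot f)) * (z' : FractionRing (AdjoinRoot f)) = 1 := by
      have := congrArg (fun w : B => (w : FractionRing (AdjoinRoot f))) hz'
      exact this
    refine ⟨?_, left_ne_zero_of_mul_eq_one h2⟩
    rw [← eq_inv_of_mul_eq_one_right h2]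
    exact z'.2
  have hdep : ∀ v : Fin (f.natDegree + 1) → IsLocalRing.ResidueField B,
      ¬ LinearIndependent F v := by
    intro v hv
    choose w hw using fun i => IsLocalRing.residue_surjective (v i)
    obtain ⟨d, hd⟩ := IsLocalization.exist_integer_multiples_of_finite
      (nonZeroDivisors (AdjoinRoot f)) (fun i => ((w i : B) : FractionRing (AdjoinRoot f)))
    choose a ha using hd
    have hd0 : (d : AdjoinRoot f) ≠ 0 := nonZeroDivisors.ne_zero d.2
    have hw' : ∀ i, ((w i : B) : FractionRing (AdjoinRoot f)) = ι (a i) / ι d := by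
      intro i
      have h1 : ι (a i) = (d : AdjoinRoot f) • ((w i : B) : FractionRing (AdjoinRoot f)) := ha i
      rw [h1, Algebra.smul_def, mul_div_cancel_left₀ _ (hι0 _ hd0)]
    have hdeg : ∀ i, dg f (a i) ≤ dg f d := fun i => (hB _ _ hd0).1 (by
      have h1 := (w i).2
      rw [hw'] at h1
      exact h1)
    obtain ⟨c, hc0, hc⟩ := bcj h d hd0 a hdeg
    have hz : ((∑ i, τ (c i) * w i : B) : FractionRing (AdjoinRoot f)) =
        ι (∑ i, algebraMap F (AdjoinRoot f) (c i) * a i) / ι d := by
      have h1 : ((∑ i, τ (c i) * w i : B) : FractionRing (AdjoinRoot f)) =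
          B.subtype (∑ i, τ (c i) * w i) := rfl
      rw [h1, map_sum, map_sum, Finset.sum_div]
      refine Finset.sum_congr rfl fun i _ => ?_
      rw [map_mul, map_mul, mul_div_assoc, ← hw']
      rfl
    have hres : ρ (∑ i, τ (c i) * w i) = 0 := by
      by_contra hne
      obtain ⟨h1, h2⟩ := hunit _ hne
      rw [hz] at h1 h2
      have hs : (∑ i, algebraMap F (AdjoinRoot f) (c i) * a i) ≠ 0 := by
        intro h0
        rw [h0, map_zero, zero_div] at h2
        exact h2 rfl
      rw [inv_div] at h1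
      have h3 := (hB _ _ hs).1 h1
      rcases hc with hc | hc
      · exact hs hc
      · omega
    rw [map_sum] at hres
    have h4 := Fintype.linearIndependent_iff.1 hv c (by
      rw [← hres]
      refine Finset.sum_congr rfl fun i _ => ?_
      rw [Algebra.smul_def, halg, map_mul, ← hw i])
    exact hc0 (funext h4)
  have hrank : Module.rank F (IsLocalRing.ResidueField B) ≤ f.natDegree := by
    refine rank_le (fun s hs => ?_)
    by_contra hcon
    push Not at hcon
    have hle : f.natDegree + 1 ≤ s.card := hcon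
    refine hdep (fun i => ((s.equivFin.symm (Fin.castLE hle i)) : IsLocalRing.ResidueField B)) ?_
    exact hs.comp (fun i => s.equivFin.symm (Fin.castLE hle i))
      (s.equivFin.symm.injective.comp (Fin.castLE_injective hle))
  have hfd : FiniteDimensional F (IsLocalRing.ResidueField B) :=
    Module.rank_lt_aleph0_iff.1 (lt_of_le_of_lt hrank (Cardinal.natCast_lt_aleph0))
  exact ⟨B, IsLocalRing.ResidueField B, inferInstance, inferInstance, ρ, τ, hB, hfd,
    Module.finrank_le_of_rank_le hrank, fun c => rfl, hτ, hunit⟩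

/-- the minimal polynomial of `θ` -/
private theorem bcm_min {k : ℕ} (θ : F') (β : Module.Basis (Fin k) F F')
    (hβ : ∀ i, β i = θ ^ (i : ℕ)) : (minpoly F θ).natDegree = k ∧ Irreducible (minpoly F θ) ∧
      (minpoly F θ).Monic := by
  have hfin : Module.Finite F F' := Module.Finite.of_basis β
  have hint : IsIntegral F θ := IsIntegral.of_finite F θ
  have hfr : Module.finrank F F' = k := by
    rw [Module.finrank_eq_card_basis β, Fintype.card_fin]
  refine ⟨?_, minpoly.irreducible hint, minpoly.monic hint⟩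
  rw [← IntermediateField.adjoin.finrank hint, ← hfr]
  have htop : IntermediateField.adjoin F {θ} = ⊤ := by
    rw [eq_top_iff]
    intro x _
    rw [← β.sum_repr x]
    refine sum_mem fun i _ => ?_
    rw [hβ, Algebra.smul_def]
    exact mul_mem (algebraMap_mem _ _)
      (pow_mem (IntermediateField.mem_adjoin_simple_self F θ) _)
  rw [htop]
  exact IntermediateField.finrank_top'

private theorem bcm_io (c : F) : io F' f (algebraMap F (AdjoinRoot f) c) =
    algebraMap F' (AdjoinRoot (bc F' f)) (algebraMap F F' c) := by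
  have h1 : io F' f (AdjoinRoot.of f (C c)) = AdjoinRoot.of (bc F' f) (C (algebraMap F F' c)) := by
    unfold io AdjoinRoot.map
    rw [AdjoinRoot.lift_of, RingHom.comp_apply, coe_mapRingHom, map_C]
  exact h1

/-- a nonzero coordinate of largest degree -/
private theorem bcm_max (h : Good f) {k : ℕ} (a : Fin k → AdjoinRoot f) (ha : a ≠ 0) :
    ∃ i, a i ≠ 0 ∧ (∀ j, dg f (a j) ≤ dg f (a i)) ∧ mx a = dg f (a i) := by
  classical
  have hne : (Finset.univ.filter (fun i => a i ≠ 0)).Nonempty := by
    obtain ⟨i, hi⟩ := Function.ne_iff.1 ha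
    exact ⟨i, Finset.mem_filter.2 ⟨Finset.mem_univ i, hi⟩⟩
  obtain ⟨i, hi, hmax⟩ := Finset.exists_max_image _ (fun i => dg f (a i)) hne
  have h1 : ∀ j, dg f (a j) ≤ dg f (a i) := by
    intro j
    by_cases hj : a j = 0
    · rw [hj, dg_zero h.monic h.pos]
      exact Nat.zero_le _
    · exact hmax j (Finset.mem_filter.2 ⟨Finset.mem_univ j, hj⟩)
  refine ⟨i, (Finset.mem_filter.1 hi).2, h1, le_antisymm (Finset.sup_le fun j _ => h1 j) ?_⟩
  exact Finset.le_sup (f := fun i => dg f (a i)) (Finset.mem_univ i)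

theorem bcm [Finite F] (h : Good f) {k : ℕ} (θ : F') (β : Module.Basis (Fin k) F F')
    (hβ : ∀ i, β i = θ ^ (i : ℕ)) (hk : ∀ p : ℕ, p.Prime → p ∣ k → f.natDegree < p)
    (a b c : Fin k → AdjoinRoot f) (ha : a ≠ 0) (hb : b ≠ 0)
    (hc : (em θ c : AdjoinRoot (bc F' f)) = em θ a * em θ b) :
    c ≠ 0 ∧ mx c = mx a + mx b := by
  classical
  have hdom := h.dom
  have hm := h.monic
  obtain ⟨B, κ, _, _, ρ, τ, hB, hfd, hfr, hρτ, hτ, hinv⟩ := bcm_data h
  obtain ⟨hπk, hπi, hπm⟩ := bcm_min θ β hβ
  obtain ⟨π, hπ⟩ : ∃ π, π = minpoly F θ := ⟨_, rfl⟩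
  have hπ0 : aeval θ π = 0 := by rw [hπ]; exact minpoly.aeval F θ
  rw [← hπ] at hπk hπi hπm
  let ι := algebraMap (AdjoinRoot f) (FractionRing (AdjoinRoot f))
  have hι : Function.Injective ι := IsFractionRing.injective (AdjoinRoot f) _
  have hι0 : ∀ b : AdjoinRoot f, b ≠ 0 → ι b ≠ 0 := by
    intro b hb h0
    apply hb
    apply hι
    rw [h0, map_zero]
  have hπκ : Irreducible (π.map (algebraMap F κ)) := by
    apply bci π hπi
    rw [hπk]
    by_contra hcop
    obtain ⟨p, hp, hp1, hp2⟩ := Nat.Prime.not_coprime_iff_dvd.1 hcop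
    have h1 := hk p hp hp2
    have h3 := Nat.le_of_dvd Module.finrank_pos hp1
    omega
  -- coordinates of largest degree
  obtain ⟨i0, hi0, himax, himx⟩ := bcm_max h a ha
  obtain ⟨j0, hj0, hjmax, hjmx⟩ := bcm_max h b hb
  let α : Fin k → B := fun i => ⟨ι (a i) / ι (a i0), (hB _ _ hi0).2 (himax i)⟩
  let α' : Fin k → B := fun i => ⟨ι (b i) / ι (b j0), (hB _ _ hj0).2 (hjmax i)⟩
  have hα1 : α i0 = 1 := Subtype.ext (div_self (hι0 _ hi0))
  have hα1' : α' j0 = 1 := Subtype.ext (div_self (hι0 _ hj0))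
  -- reduction modulo `π` over `B`
  obtain ⟨R, hR⟩ : ∃ R, R = (pl α * pl α') %ₘ (π.map τ) := ⟨_, rfl⟩
  have hRκ : R.map ρ ≠ 0 := by
    have hcomp : (π.map τ).map ρ = π.map (algebraMap F κ) := by
      rw [Polynomial.map_map]
      congr 1
      exact RingHom.ext hρτ
    rw [hR, Polynomial.map_modByMonic ρ (hπm.map τ), hcomp, Polynomial.map_mul, pl_map, pl_map]
    intro h0
    rw [Polynomial.modByMonic_eq_zero_iff_dvd (hπm.map _)] at h0
    have hdeg : (π.map (algebraMap F κ)).degree = (k : WithBot ℕ) := by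
      rw [Polynomial.degree_map, Polynomial.degree_eq_natDegree hπm.ne_zero, hπk]
    rcases hπκ.prime.dvd_or_dvd h0 with h1 | h1
    · refine absurd (Polynomial.degree_le_of_dvd h1 ?_) (not_le.2 ?_)
      · refine pl_ne i0 ?_
        rw [hα1, map_one]
        exact one_ne_zero
      · rw [hdeg]
        exact pl_deg _
    · refine absurd (Polynomial.degree_le_of_dvd h1 ?_) (not_le.2 ?_)
      · refine pl_ne j0 ?_
        rw [hα1', map_one]
        exact one_ne_zero
      · rw [hdeg]
        exact pl_deg _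
  have hRdeg : R.degree < (k : WithBot ℕ) := by
    rw [hR]
    refine lt_of_lt_of_le (Polynomial.degree_modByMonic_lt _ (hπm.map τ)) ?_
    refine Polynomial.degree_map_le.trans ?_
    rw [Polynomial.degree_eq_natDegree hπm.ne_zero, hπk]
  -- reduction modulo `π` over `O`
  obtain ⟨S, hS⟩ : ∃ S, S = (pl a * pl b) %ₘ (π.map (algebraMap F (AdjoinRoot f))) := ⟨_, rfl⟩
  have hSdeg : S.degree < (k : WithBot ℕ) := by
    rw [hS]
    refine lt_of_lt_of_le (Polynomial.degree_modByMonic_lt _ (hπm.map _)) ?_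
    refine Polynomial.degree_map_le.trans ?_
    rw [Polynomial.degree_eq_natDegree hπm.ne_zero, hπk]
  have hem : ∀ u : Fin k → AdjoinRoot f, (pl u).eval₂ (io F' f)
      (algebraMap F' (AdjoinRoot (bc F' f)) θ) = em θ u := by
    intro u
    rw [pl_eval]
    unfold em
    exact Finset.sum_congr rfl fun i _ => by rw [map_pow]
  have hevπ : (π.map (algebraMap F (AdjoinRoot f))).eval₂ (io F' f)
      (algebraMap F' (AdjoinRoot (bc F' f)) θ) = 0 := by
    rw [Polynomial.eval₂_map]
    have h1 : (io F' f).comp (algebraMap F (AdjoinRoot f)) =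
        (algebraMap F' (AdjoinRoot (bc F' f))).comp (algebraMap F F') :=
      RingHom.ext fun c => bcm_io c
    rw [h1, ← Polynomial.hom_eval₂, ← Polynomial.aeval_def, hπ0, map_zero]
  have hSc : S = pl c := by
    have h1 : em θ (fun i : Fin k => S.coeff i) = em θ c := by
      rw [← hem, ← eq_pl hSdeg, hc, ← hem a, ← hem b, ← Polynomial.eval₂_mul]
      have h2 := Polynomial.modByMonic_add_div (pl a * pl b)
        (π.map (algebraMap F (AdjoinRoot f)))
      conv_rhs => rw [← h2]
      rw [Polynomial.eval₂_add, Polynomial.eval₂_mul _ _ (p := π.map _), hevπ, zero_mul, add_zero,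
        ← hS]
    have h2 : (fun i : Fin k => S.coeff i) = c := by
      apply (bc_bij (f := f) β).1
      show ∑ i, _ * _ = ∑ i, _ * _
      have h3 := h1
      unfold em at h3
      simp only [hβ]
      exact h3
    rw [eq_pl hSdeg, h2]
  -- comparison over `L`
  have hBL : ∀ z : B, B.subtype z = (z : FractionRing (AdjoinRoot f)) := fun z => rfl
  have hcmp : S.map ι = (ι (a i0) * ι (b j0)) • R.map B.subtype := by
    have hp1 : (π.map (algebraMap F (AdjoinRoot f))).map ι = (π.map τ).map B.subtype := by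
      rw [Polynomial.map_map, Polynomial.map_map]
      congr 1
      exact RingHom.ext fun c => (hτ c).symm
    have hq1 : (pl a).map ι = ι (a i0) • (pl α).map B.subtype := by
      rw [pl_map, pl_map, ← pl_smul]
      congr 1
      funext i
      show ι (a i) = ι (a i0) * (ι (a i) / ι (a i0))
      rw [mul_div_cancel₀ _ (hι0 _ hi0)]
    have hq2 : (pl b).map ι = ι (b j0) • (pl α').map B.subtype := by
      rw [pl_map, pl_map, ← pl_smul]
      congr 1
      funext i
      show ι (b i) = ι (b j0) * (ι (b i) / ι (b j0))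
      rw [mul_div_cancel₀ _ (hι0 _ hj0)]
    rw [hS, Polynomial.map_modByMonic _ (hπm.map _), hp1, Polynomial.map_mul, hq1, hq2,
      smul_mul_smul_comm, Polynomial.smul_modByMonic, ← Polynomial.map_mul,
      ← Polynomial.map_modByMonic _ (hπm.map τ), ← hR]
  have hci : ∀ i : Fin k, ι (c i) = ι (a i0) * ι (b j0) *
      ((R.coeff i : B) : FractionRing (AdjoinRoot f)) := by
    intro i
    have h1 := congrArg (fun p => Polynomial.coeff p (i : ℕ)) hcmp
    simp only [Polynomial.coeff_map, Polynomial.coeff_smul, smul_eq_mul, hSc, pl_coeff] at h1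
    exact h1
  have hab0 : a i0 * b j0 ≠ 0 := mul_ne_zero hi0 hj0
  have hle : ∀ i : Fin k, dg f (c i) ≤ dg f (a i0 * b j0) := by
    intro i
    apply (hB _ _ hab0).1
    show ι (c i) / ι (a i0 * b j0) ∈ B
    rw [hci, map_mul, mul_div_cancel_left₀ _ (mul_ne_zero (hι0 _ hi0) (hι0 _ hj0))]
    exact (R.coeff i : B).2
  obtain ⟨n, hn⟩ : ∃ n, (R.map ρ).coeff n ≠ 0 := by
    by_contra hcon
    push Not at hcon
    exact hRκ (Polynomial.ext fun n => by rw [hcon n, Polynomial.coeff_zero])
  rw [Polynomial.coeff_map] at hn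
  have hnk : n < k := by
    by_contra hnk
    apply hn
    rw [Polynomial.coeff_eq_zero_of_degree_lt (lt_of_lt_of_le hRdeg (by
      exact_mod_cast not_lt.1 hnk)), map_zero]
  obtain ⟨hn1, hn2⟩ := hinv _ hn
  have hcn : c ⟨n, hnk⟩ ≠ 0 := by
    intro h0
    have h1 := hci ⟨n, hnk⟩
    rw [h0, map_zero] at h1
    exact (mul_ne_zero (mul_ne_zero (hι0 _ hi0) (hι0 _ hj0)) hn2) h1.symm
  have hge : dg f (a i0 * b j0) ≤ dg f (c ⟨n, hnk⟩) := by
    apply (hB _ _ hcn).1
    show ι (a i0 * b j0) / ι (c ⟨n, hnk⟩) ∈ B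
    rw [hci, map_mul, div_mul_eq_div_div, div_self (mul_ne_zero (hι0 _ hi0) (hι0 _ hj0)),
      one_div]
    exact hn1
  refine ⟨fun h0 => hcn (by rw [h0]; rfl), ?_⟩
  rw [himx, hjmx, ← dg_mul hm hi0 hj0]
  refine le_antisymm (Finset.sup_le fun i _ => hle i) (hge.trans ?_)
  exact Finset.le_sup (f := fun i => dg f (c i)) (Finset.mem_univ _)

end H13.TA
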