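import Pool.Agent.H13.TA.BcM

/-!
# TA-BCN: the degree of the norm on `O'` is the degree of the coordinates

`O'` is a domain (`bcm`, `bc_bij`). Let `x' = em θ a ≠ 0`, `μ = mx a = dg f x` for one nonzero coordinate `x` of largest
degree. `A = O'`, `v(em θ b) = mx b`, `s` = multiplication by `x'`: `fil` applies (`bcm`; `{v ≤ D}` is in bijection with
`{b : Fin k → O, dg (b i) ≤ D}`, so it has `X(D) ^ k` elements, `X(D) = XD f ⊤ D`, finite by `xd_fin`; `O'/(x')` is finite with
`Q ^ dg' x'` elements, `Q = q ^ k = #F'`: `card_quot`, `ideg_span` for `bc F' f`). So for large `D`: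
`X(D + μ) ^ k = Q ^ dg' x' X(D) ^ k`; and `X(D + μ) = q ^ μ X(D)` (`xd_grow` for `x`, `J = ⊤`). So `Q ^ μ = Q ^ dg' x'`.
-/

set_option autoImplicit false

open Polynomial

noncomputable section

namespace H13.TA

variable {F : Type} [Field F] {f : F[X][X]} {F' : Type} [Field F'] [Algebra F F']

private theorem em_bij {k : ℕ} (θ : F') (β : Module.Basis (Fin k) F F')
    (hβ : ∀ i, β i = θ ^ (i : ℕ)) :
    Function.Bijective (em θ : (Fin k → AdjoinRoot f) → AdjoinRoot (bc F' f)) := by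
  have h := bc_bij (f := f) β
  have e : (em θ : (Fin k → AdjoinRoot f) → AdjoinRoot (bc F' f)) =
      fun a => ∑ i, io F' f (a i) * algebraMap F' (AdjoinRoot (bc F' f)) (β i) := by
    funext a
    unfold em
    refine Finset.sum_congr rfl fun i _ => ?_
    rw [hβ]
  rw [e]
  exact h

private theorem em_zero {k : ℕ} (θ : F') :
    (em θ (0 : Fin k → AdjoinRoot f) : AdjoinRoot (bc F' f)) = 0 := by
  unfold em
  refine Finset.sum_eq_zero fun i _ => ?_
  rw [Pi.zero_apply, map_zero, zero_mul]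

private theorem em_sub {k : ℕ} (θ : F') (a b : Fin k → AdjoinRoot f) :
    (em θ (a - b) : AdjoinRoot (bc F' f)) = em θ a - em θ b := by
  unfold em
  rw [← Finset.sum_sub_distrib]
  refine Finset.sum_congr rfl fun i _ => ?_
  rw [Pi.sub_apply, map_sub, sub_mul]

private theorem k_pos {k : ℕ} (β : Module.Basis (Fin k) F F') : 0 < k := by
  rcases Nat.eq_zero_or_pos k with h | h
  · subst h
    have h1 : Subsingleton F' := β.equivFun.toEquiv.subsingleton
    exact absurd (Subsingleton.elim (1 : F') 0) one_ne_zero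
  · exact h

theorem bc_dom [Finite F] (h : Good f) {k : ℕ} (θ : F') (β : Module.Basis (Fin k) F F')
    (hβ : ∀ i, β i = θ ^ (i : ℕ)) (hk : ∀ p : ℕ, p.Prime → p ∣ k → f.natDegree < p) :
    IsDomain (AdjoinRoot (bc F' f)) := by
  have hd := h.dom
  have hb := em_bij (f := f) θ β hβ
  have hk0 := k_pos β
  have h1 : NoZeroDivisors (AdjoinRoot (bc F' f)) := by
    constructor
    intro x y hxy
    obtain ⟨a, rfl⟩ := hb.2 x
    obtain ⟨b, rfl⟩ := hb.2 y
    by_contra hcon
    push Not at hcon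
    have ha : a ≠ 0 := by
      rintro rfl
      exact hcon.1 (em_zero θ)
    have hb0 : b ≠ 0 := by
      rintro rfl
      exact hcon.2 (em_zero θ)
    exact (bcm h θ β hβ hk a b 0 ha hb0 ((em_zero θ).trans hxy.symm)).1 rfl
  have h2 : Nontrivial (AdjoinRoot (bc F' f)) := by
    refine ⟨⟨em θ (0 : Fin k → AdjoinRoot f), em θ (fun _ : Fin k => (1 : AdjoinRoot f)),
      fun h3 => ?_⟩⟩
    have h4 := congrFun (hb.1 h3) ⟨0, hk0⟩
    exact zero_ne_one h4
  exact NoZeroDivisors.to_isDomain _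

private theorem mx_le {k : ℕ} (a : Fin k → AdjoinRoot f) (D : ℕ) : mx a ≤ D ↔ ∀ i, dg f (a i) ≤ D := by
  unfold mx
  rw [Finset.sup_le_iff]
  exact ⟨fun h i => h i (Finset.mem_univ i), fun h i _ => h i⟩

private theorem mx_zero (h : Good f) {k : ℕ} : mx (0 : Fin k → AdjoinRoot f) = 0 := by
  apply Nat.le_zero.1
  rw [mx_le]
  intro i
  rw [Pi.zero_apply, dg_zero h.monic h.pos]

theorem bcn [Finite F] (h : Good f) {k : ℕ} (θ : F') (β : Module.Basis (Fin k) F F')
    (hβ : ∀ i, β i = θ ^ (i : ℕ)) (hk : ∀ p : ℕ, p.Prime → p ∣ k → f.natDegree < p)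
    (a : Fin k → AdjoinRoot f) : dg (bc F' f) (em θ a) = mx a := by
  classical
  have hd := h.dom
  have hded := h.ded
  have hd' := bc_dom h θ β hβ hk
  have hm' : (bc F' f).Monic := bc_monic h.monic
  have hp' : (bc F' f).natDegree ≠ 0 := by
    rw [bc_deg h.monic]
    exact h.pos
  by_cases ha : a = 0
  · rw [ha, em_zero, dg_zero hm' hp', mx_zero h]
  have hb := em_bij (f := f) θ β hβ
  have hk0 := k_pos β
  have hfinF' : Finite F' := Finite.of_equiv _ β.equivFun.toEquiv.symm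
  have hQ : Nat.card F' = Nat.card F ^ k := by
    rw [Nat.card_congr β.equivFun.toEquiv, Nat.card_fun, Nat.card_fin]
  have hq2 : 2 ≤ Nat.card F := Finite.one_lt_card
  -- the coordinate of largest degree
  obtain ⟨i, hi0, hi⟩ : ∃ i, a i ≠ 0 ∧ dg f (a i) = mx a := by
    have hne : (Finset.univ : Finset (Fin k)).Nonempty := ⟨⟨0, hk0⟩, Finset.mem_univ _⟩
    obtain ⟨i, -, hi⟩ := Finset.exists_mem_eq_sup Finset.univ hne (fun i => dg f (a i))
    by_cases h0 : a i = 0
    · obtain ⟨j, hj⟩ : ∃ j, a j ≠ 0 := by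
        by_contra hcon
        push Not at hcon
        exact ha (funext hcon)
      refine ⟨j, hj, ?_⟩
      have h1 : mx a = 0 := by
        unfold mx
        rw [hi, h0, dg_zero h.monic h.pos]
      have h2 := (mx_le a 0).1 h1.le j
      rw [h1]
      omega
    · exact ⟨i, h0, hi.symm⟩
  have hx0 : (em θ a : AdjoinRoot (bc F' f)) ≠ 0 := by
    intro h1
    exact ha (hb.1 (h1.trans (em_zero θ).symm))
  obtain ⟨D0, hD0⟩ := xd_grow h (J := ⊤) (top_ne_bot) hi0
  -- the coordinates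
  let e : (Fin k → AdjoinRoot f) ≃ AdjoinRoot (bc F' f) := Equiv.ofBijective _ hb
  have he : ∀ b, e b = em θ b := fun b => rfl
  let v : AdjoinRoot (bc F' f) → ℕ := fun y => mx (e.symm y)
  have hv : ∀ b : Fin k → AdjoinRoot f, v (em θ b) = mx b := by
    intro b
    change mx (e.symm (e b)) = mx b
    rw [Equiv.symm_apply_apply]
  let s : AdjoinRoot (bc F' f) →+ AdjoinRoot (bc F' f) := AddMonoidHom.mulLeft (em θ a)
  have hs : Function.Injective s := mul_right_injective₀ hx0
  have hv1 : ∀ y z, v (y - z) ≤ max (v y) (v z) := by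
    intro y z
    obtain ⟨b, rfl⟩ := hb.2 y
    obtain ⟨c, rfl⟩ := hb.2 z
    rw [← em_sub, hv, hv, hv, mx_le]
    intro j
    rw [Pi.sub_apply]
    have h1 := h.ultra (b j) (-c j)
    rw [dg_neg h.monic, ← sub_eq_add_neg] at h1
    refine h1.trans (max_le_max ?_ ?_)
    · exact (mx_le b _).1 le_rfl j
    · exact (mx_le c _).1 le_rfl j
  have hfin : ∀ D, {y | v y ≤ D}.Finite := by
    intro D
    have h1 : {y | v y ≤ D} = (em θ) '' (Set.univ.pi fun _ : Fin k => {a : AdjoinRoot f | dg f a ≤ D}) := by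
      ext y
      obtain ⟨b, rfl⟩ := hb.2 y
      constructor
      · intro hy
        change v (em θ b) ≤ D at hy
        rw [hv, mx_le] at hy
        exact ⟨b, fun j _ => hy j, rfl⟩
      · rintro ⟨c, hc, hcb⟩
        change v (em θ b) ≤ D
        rw [← hcb, hv, mx_le]
        exact fun j => hc j (Set.mem_univ j)
    rw [h1]
    exact (Set.Finite.pi fun _ => xd_fin h D).image _
  have hμ : ∀ y D, v (s y) ≤ D + mx a ↔ v y ≤ D := by
    intro y D
    obtain ⟨b, rfl⟩ := hb.2 y
    change v (em θ a * em θ b) ≤ D + mx a ↔ v (em θ b) ≤ D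
    by_cases hb0 : b = 0
    · have h5 : v 0 = 0 := by
        rw [← em_zero (f := f) (k := k) θ, hv, mx_zero h]
      rw [hb0, em_zero, mul_zero, h5]
      omega
    · obtain ⟨c, hc⟩ := hb.2 (em θ a * em θ b)
      rw [← hc, hv, hv, (bcm h θ β hβ hk a b c ha hb0 hc).2]
      omega
  have hr : (s.range : AddSubgroup (AdjoinRoot (bc F' f))) =
      Submodule.toAddSubgroup (Ideal.span {(em θ a : AdjoinRoot (bc F' f))}) := by
    ext y
    have h2 : y ∈ Submodule.toAddSubgroup (Ideal.span {(em θ a : AdjoinRoot (bc F' f))}) ↔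
        y ∈ Ideal.span {(em θ a : AdjoinRoot (bc F' f))} := Iff.rfl
    rw [h2, Ideal.mem_span_singleton', AddMonoidHom.mem_range]
    constructor
    · rintro ⟨z, rfl⟩
      exact ⟨z, mul_comm _ _⟩
    · rintro ⟨z, rfl⟩
      exact ⟨z, mul_comm _ _⟩
  have hIne : Ideal.span {(em θ a : AdjoinRoot (bc F' f))} ≠ ⊥ := by
    rw [Ne, Ideal.span_singleton_eq_bot]
    exact hx0
  have hcq := card_quot hm' hIne
  have hcard : Nat.card (AdjoinRoot (bc F' f) ⧸ s.range) = Nat.card F' ^ dg (bc F' f) (em θ a) := by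
    rw [hr, ← ideg_span hm' hx0]
    exact hcq.2
  have hfq : Finite (AdjoinRoot (bc F' f) ⧸ s.range) := by
    rw [hr]
    exact hcq.1
  obtain ⟨D1, hD1⟩ := fil s hs v hv1 hfin (mx a) hμ hfq
  have hnum : ∀ D, Nat.card {y // v y ≤ D} = XD f ⊤ D ^ k := by
    intro D
    have e1 : {y // v y ≤ D} ≃ {b : Fin k → AdjoinRoot f // ∀ i, dg f (b i) ≤ D} :=
      (e.symm.subtypeEquiv fun y => mx_le (e.symm y) D)
    have e2 : {b : Fin k → AdjoinRoot f // ∀ i, dg f (b i) ≤ D} ≃
        (Fin k → {a : AdjoinRoot f // a ∈ (⊤ : Ideal (AdjoinRoot f)) ∧ dg f a ≤ D}) :=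
      { toFun := fun b i => ⟨b.1 i, Submodule.mem_top, b.2 i⟩
        invFun := fun b => ⟨fun i => (b i).1, fun i => (b i).2.2⟩
        left_inv := fun b => rfl
        right_inv := fun b => rfl }
    rw [Nat.card_congr (e1.trans e2), Nat.card_fun, Nat.card_fin]
    rfl
  have hX : 0 < XD f ⊤ (D0 + D1) := by
    unfold XD
    have hf : Finite {a : AdjoinRoot f // a ∈ (⊤ : Ideal (AdjoinRoot f)) ∧ dg f a ≤ D0 + D1} :=
      ((xd_fin h (D0 + D1)).subset fun a ha => ha.2).to_subtype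
    have hn : Nonempty {a : AdjoinRoot f // a ∈ (⊤ : Ideal (AdjoinRoot f)) ∧ dg f a ≤ D0 + D1} :=
      ⟨⟨0, Submodule.mem_top, by
        rw [dg_zero h.monic h.pos]
        exact Nat.zero_le _⟩⟩
    exact Nat.card_pos
  have h1 := hD1 (D0 + D1) (by omega)
  have h2 := hD0 (D0 + D1) (by omega)
  rw [hnum, hnum, hcard, ← hi, h2, mul_pow] at h1
  have h3 := Nat.eq_of_mul_eq_mul_right (pow_pos hX k) h1
  rw [hQ, ← pow_mul, ← pow_mul, mul_comm k] at h3
  have h4 := Nat.pow_right_injective hq2 h3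
  have h5 := Nat.eq_of_mul_eq_mul_right hk0 h4
  rw [← h5, hi]

end H13.TA
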