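import Pool.Agent.H13.TA.Bas

/-!
# TA-CLF: the class group is finite

Mathlib `ClassGroup.fintypeOfAdmissibleOfAlgebraic` with `Polynomial.cardPowDegreeIsAdmissible` and the power basis of the
Dedekind domain `O` over `F[t]` (`O` is finite, so integral and algebraic over `F[t]`).
-/

set_option autoImplicit false

open Polynomial

noncomputable section

namespace H13.TA

variable {F : Type} [Field F] {f : F[X][X]}

theorem clf [Finite F] (hf : f.Monic) [IsDedekindDomain (AdjoinRoot f)] :
    Finite (ClassGroup (AdjoinRoot f)) := by
  classical
  have := Fintype.ofFinite F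
  have h1 := hf.finite_adjoinRoot
  have h2 : Algebra.IsIntegral F[X] (AdjoinRoot f) := Algebra.IsIntegral.of_finite _ _
  exact @Finite.of_fintype _ (ClassGroup.fintypeOfAdmissibleOfAlgebraic
    (AdjoinRoot.powerBasis' hf).basis Polynomial.cardPowDegreeIsAdmissible)

end H13.TA
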