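import Pool.Agent.H13.TA.Zeta
import Pool.Agent.H13.TA.Psum
import Pool.Agent.H13.TA.Resl
import Pool.Agent.H13.TA.Bc0
import Pool.Agent.H13.TA.BcP

/-!
# TA-CLN: the class number over `F'` is prime to `l`

`V` the zeta polynomial of `f`, `V'` that of `f' = bc F' f` (`zeta`), `k' = k l ^ j = [F' : F]`, `Q = q ^ k'`. By `bcp`
and the formulas for `npt` (`m ∣ k' r` iff `m ∣ r`, `bc_deg`): `∑_(V') ρ' ^ r = ∑_V (ρ ^ k') ^ r` for all `r ≥ 1`, so
`V'(1) = ∏ (1 - ρ')= ∏ (1 - ρ ^ k')` (`psum`; `V'` is monic and splits over `ℂ`), so with `z = V'(1) ∈ ℤ`: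
`(Q - 1) z = h' (Q ^ m - 1)`, `z = h' (1 + Q + .. + Q ^ (m - 1))`. If `l ∣ h'` then `l ∣ z` and `resl` contradicts `hno`.
So `l ∤ h'`, and `C ^ (l ^ s) = 1` implies `C = 1` (order divides `l ^ s` and `h'`).
-/

set_option autoImplicit false

open Polynomial

noncomputable section

namespace H13.TA

variable {F : Type} [Field F] {f : F[X][X]} {F' : Type} [Field F'] [Algebra F F']

theorem cln [Finite F] [Finite F'] (h : Good f) (h' : Good (bc F' f))
    [IsDomain (AdjoinRoot (bc F' f))] (V : ℤ[X]) (c : ℕ) (hV : IsZeta f V c) (l k j : ℕ)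
    (hl : l.Prime) (hk : k ∣ l - 1) (hF : Module.finrank F F' = k * l ^ j)
    (hco : (k * l ^ j).Coprime f.natDegree)
    (hno : ∀ b : ZMod l, (V.map (Int.castRingHom (ZMod l))).eval b = 0 → b ^ k ≠ 1) (s : ℕ)
    (C : ClassGroup (AdjoinRoot (bc F' f))) (hC : C ^ (l ^ s) = 1) : C = 1 := by
  classical
  have hded := h'.ded
  obtain ⟨V', hV'⟩ := zeta h'
  have hdeg : (bc F' f).natDegree = f.natDegree := bc_deg h.monic
  have hfin : Module.Finite F F' := Module.Finite.of_finite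
  have hQ : Nat.card F' = Nat.card F ^ (k * l ^ j) := by
    rw [← hF]
    exact Module.natCard_eq_pow_finrank
  have hQ1 : 1 < Nat.card F' := Finite.one_lt_card
  have hk0 : k * l ^ j ≠ 0 := by
    intro h0
    rw [h0, pow_zero] at hQ
    omega
  have hsum : ∀ r : ℕ, r ≠ 0 → ((V'.aroots ℂ).map fun ρ => ρ ^ r).sum =
      (((V.aroots ℂ).map fun ρ => ρ ^ (k * l ^ j)).map fun ρ => ρ ^ r).sum := by
    intro r hr
    have e1 := hV'.npt r hr
    have e2 := hV.npt (k * l ^ j * r) (mul_ne_zero hk0 hr)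
    have e3 : npt (bc F' f) r = npt f (k * l ^ j * r) := by
      rw [bcp r, hF]
    have e4 : f.natDegree ∣ k * l ^ j * r ↔ f.natDegree ∣ r :=
      ⟨fun hd => (hco.symm).dvd_of_dvd_mul_left hd, fun hd => hd.mul_left _⟩
    have e5 : (Nat.card F' : ℂ) ^ r = (Nat.card F : ℂ) ^ (k * l ^ j * r) := by
      rw [hQ, Nat.cast_pow, ← pow_mul]
    have e6 : (((V.aroots ℂ).map fun ρ => ρ ^ (k * l ^ j)).map fun ρ => ρ ^ r).sum =
        ((V.aroots ℂ).map fun ρ => ρ ^ (k * l ^ j * r)).sum := by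
      rw [Multiset.map_map]
      congr 1
      refine Multiset.map_congr rfl fun ρ _ => ?_
      rw [Function.comp_apply, ← pow_mul]
    rw [e6]
    rw [hdeg, e5, e3, e2] at e1
    simp only [e4] at e1
    exact (sub_right_injective e1).symm
  have hprod := psum _ _ hsum
  rw [Multiset.map_map] at hprod
  have hev : ((V'.eval 1 : ℤ) : ℂ) = ((V'.aroots ℂ).map fun ρ => 1 - ρ).prod := by
    have e1 : (V'.map (algebraMap ℤ ℂ)).eval 1 = ((V'.aroots ℂ).map fun ρ => 1 - ρ).prod :=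
      (IsAlgClosed.splits (V'.map (algebraMap ℤ ℂ))).eval_eq_prod_roots_of_monic
        (hV'.monic.map _) 1
    rw [← e1]
    have e2 : ((V'.eval 1 : ℤ) : ℂ) = (V'.map (Int.castRingHom ℂ)).eval ((1 : ℤ) : ℂ) := by
      rw [Polynomial.eval_intCast_map, eq_intCast, Int.cast_id]
    rw [e2, Int.cast_one]
    rfl
  have hQ2 : (Nat.card F' : ℤ) - 1 ≠ 0 := by
    have : (1 : ℤ) < (Nat.card F' : ℤ) := by exact_mod_cast hQ1
    omega
  have hz : V'.eval 1 = Nat.card (ClassGroup (AdjoinRoot (bc F' f))) *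
      ∑ i ∈ Finset.range f.natDegree, (Nat.card F' : ℤ) ^ i := by
    have e1 := hV'.one
    rw [hdeg] at e1
    have e2 : (∑ i ∈ Finset.range f.natDegree, (Nat.card F' : ℤ) ^ i) * ((Nat.card F' : ℤ) - 1) =
        (Nat.card F' : ℤ) ^ f.natDegree - 1 := geom_sum_mul _ _
    apply mul_left_cancel₀ hQ2
    rw [e1, ← e2]
    ring
  have hndvd : ¬ l ∣ Nat.card (ClassGroup (AdjoinRoot (bc F' f))) := by
    intro hd
    obtain ⟨b, hb, hb1⟩ := resl V hV.monic l k j hl hk (V'.eval 1) (by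
      rw [hev, hprod]
      rfl) (by
      rw [hz]
      exact Dvd.dvd.mul_right (by exact_mod_cast hd) _)
    exact hno b hb hb1
  have hfinC : Finite (ClassGroup (AdjoinRoot (bc F' f))) := clf h'.monic
  have h1 : orderOf C ∣ l ^ s := orderOf_dvd_of_pow_eq_one hC
  have h2 : orderOf C ∣ Nat.card (ClassGroup (AdjoinRoot (bc F' f))) := orderOf_dvd_natCard C
  have h3 : (l ^ s).Coprime (Nat.card (ClassGroup (AdjoinRoot (bc F' f)))) :=
    Nat.Coprime.pow_left _ ((Nat.Prime.coprime_iff_not_dvd hl).2 hndvd)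
  exact orderOf_eq_one_iff.1 (Nat.eq_one_of_dvd_coprimes h3 h1 h2)

end H13.TA
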