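import Pool.Agent.H13.TA.Xd
import Pool.Agent.H13.TA.Clf
import Pool.Agent.H13.TA.IdF

/-!
# TA-CLS: counting the ideals of bounded degree by classes

For a class `C` let `J C ≠ 0` be an integral ideal of class `C⁻¹`. The ideals `I` of class `C` with `ideg I ≤ N` correspond
to the `x ∈ J C`, `x ≠ 0`, `dg x ≤ N + ideg (J C)`, modulo units: `(x) = I (J C)` (`ideg_mul`, `ideg_span`); the units are the
`q - 1` constants (`unit_const`; `ClassGroup.mk0_eq_mk0_inv_iff`, `Ideal.dvd_span_singleton`). `XD` counts also `x = 0`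
(`dg_zero`). Sum over `C`.
-/

set_option autoImplicit false

open Polynomial

noncomputable section

namespace H13.TA

variable {F : Type} [Field F] {f : F[X][X]}

private theorem exists_gen [IsDedekindDomain (AdjoinRoot f)] (I J : Ideal (AdjoinRoot f))
    (hI : I ≠ ⊥) (hJ : J ≠ ⊥)
    (h : ClassGroup.mk0 ⟨I, mem_nonZeroDivisors_of_ne_zero hI⟩ *
      ClassGroup.mk0 ⟨J, mem_nonZeroDivisors_of_ne_zero hJ⟩ = 1) :
    ∃ g : AdjoinRoot f, I * J = Ideal.span {g} := by
  rw [← map_mul, ClassGroup.mk0_eq_one_iff] at h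
  obtain ⟨g, hg⟩ := h
  exact ⟨g, hg⟩

private theorem mk0_of_span [IsDedekindDomain (AdjoinRoot f)] (I J : Ideal (AdjoinRoot f))
    (hI : I ≠ ⊥) (hJ : J ≠ ⊥) (g : AdjoinRoot f) (h : I * J = Ideal.span {g}) :
    ClassGroup.mk0 ⟨I, mem_nonZeroDivisors_of_ne_zero hI⟩ *
      ClassGroup.mk0 ⟨J, mem_nonZeroDivisors_of_ne_zero hJ⟩ = 1 := by
  rw [← map_mul, ClassGroup.mk0_eq_one_iff]
  exact ⟨g, h⟩

private theorem key [Finite F] (h : Good f) [IsDedekindDomain (AdjoinRoot f)]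
    (C : ClassGroup (AdjoinRoot f)) (J : Ideal (AdjoinRoot f)) (hJ : J ≠ ⊥)
    (hJC : ClassGroup.mk0 ⟨J, mem_nonZeroDivisors_of_ne_zero hJ⟩ = C⁻¹) (N : ℕ) :
    XD f J (N + ideg f J) = 1 + (Nat.card F - 1) *
      Nat.card {I : {I : Ideal (AdjoinRoot f) // I ≠ ⊥ ∧ ideg f I ≤ N} //
        ClassGroup.mk0 ⟨I.1, mem_nonZeroDivisors_of_ne_zero I.2.1⟩ = C} := by
  classical
  set S := {I : {I : Ideal (AdjoinRoot f) // I ≠ ⊥ ∧ ideg f I ≤ N} //
        ClassGroup.mk0 ⟨I.1, mem_nonZeroDivisors_of_ne_zero I.2.1⟩ = C} with hS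
  have hfinT : Finite {I : Ideal (AdjoinRoot f) // I ≠ ⊥ ∧ ideg f I ≤ N} :=
    (fin_ideg h.monic N).to_subtype
  have hfinS : Finite S := inferInstance
  have hgen : ∀ I : S, ∃ g : AdjoinRoot f, I.1.1 * J = Ideal.span {g} := by
    intro I
    refine exists_gen I.1.1 J I.1.2.1 hJ ?_
    rw [I.2, hJC, mul_inv_cancel]
  choose g hg using hgen
  have hg0 : ∀ I : S, g I ≠ 0 := by
    intro I h0
    have h1 := hg I
    rw [h0, Ideal.span_singleton_zero] at h1
    rcases mul_eq_zero.1 h1 with h2 | h2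
    · exact I.1.2.1 h2
    · exact hJ h2
  have hgJ : ∀ I : S, g I ∈ J := by
    intro I
    have h1 : Ideal.span {g I} ≤ J := by
      rw [← hg I]
      exact Ideal.mul_le_right (I := I.1.1) (J := J)
    exact h1 (Ideal.mem_span_singleton_self _)
  have hgd : ∀ I : S, dg f (g I) = ideg f I.1.1 + ideg f J := by
    intro I
    rw [← ideg_span h.monic (hg0 I), ← hg I, ideg_mul h.monic I.1.2.1 hJ]
  let Φ : Option (Fˣ × S) → {a : AdjoinRoot f // a ∈ J ∧ dg f a ≤ N + ideg f J} := fun o =>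
    match o with
    | none => ⟨0, J.zero_mem, by rw [dg_zero h.monic h.pos]; exact Nat.zero_le _⟩
    | some (c, I) => ⟨algebraMap F (AdjoinRoot f) c * g I, J.mul_mem_left _ (hgJ I), by
        rw [dg_cmul h.monic c.ne_zero, hgd I]
        exact Nat.add_le_add_right I.1.2.2 _⟩
  have hcm : ∀ c : Fˣ, IsUnit (algebraMap F (AdjoinRoot f) c) := fun c => c.isUnit.map _
  have hinj : Function.Injective Φ := by
    rintro (_ | ⟨c, I⟩) (_ | ⟨c', I'⟩) heq
    · rfl
    · exfalso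
      have h1 : (0 : AdjoinRoot f) = algebraMap F (AdjoinRoot f) c' * g I' := congrArg Subtype.val heq
      rcases mul_eq_zero.1 h1.symm with h2 | h2
      · exact (hcm c').ne_zero h2
      · exact hg0 _ h2
    · exfalso
      have h1 : algebraMap F (AdjoinRoot f) c * g I = 0 := congrArg Subtype.val heq
      rcases mul_eq_zero.1 h1 with h2 | h2
      · exact (hcm c).ne_zero h2
      · exact hg0 _ h2
    · have h1 : algebraMap F (AdjoinRoot f) c * g I = algebraMap F (AdjoinRoot f) c' * g I' :=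
        congrArg Subtype.val heq
      have h2 : Ideal.span {g I} = Ideal.span {g I'} := by
        rw [← Ideal.span_singleton_mul_left_unit (hcm c) (g I),
          ← Ideal.span_singleton_mul_left_unit (hcm c') (g I'), h1]
      have h3 : I.1.1 * J = I'.1.1 * J := by rw [hg I, hg I', h2]
      have h4 : I.1.1 = I'.1.1 := mul_right_cancel₀ hJ h3
      have h5 : I = I' := Subtype.ext (Subtype.ext h4)
      subst h5
      have h6 := mul_right_cancel₀ (hg0 I) h1
      have h7 : (c : F) = c' := (algebraMap F (AdjoinRoot f)).injective h6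
      rw [Units.ext h7]
  have hsurj : Function.Surjective Φ := by
    rintro ⟨a, haJ, had⟩
    by_cases ha : a = 0
    · exact ⟨none, Subtype.ext ha.symm⟩
    have hdvd : J ∣ Ideal.span {a} := by
      rw [Ideal.dvd_span_singleton]
      exact haJ
    obtain ⟨I, hI⟩ := hdvd
    have hI' : I * J = Ideal.span {a} := by rw [hI, mul_comm]
    have hI0 : I ≠ ⊥ := by
      intro h0
      rw [h0] at hI
      have h1 : Ideal.span {a} = ⊥ := by rw [hI]; exact Ideal.mul_bot _
      exact ha (Ideal.span_singleton_eq_bot.1 h1)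
    have hdeg : dg f a = ideg f I + ideg f J := by
      rw [← ideg_span h.monic ha, ← hI', ideg_mul h.monic hI0 hJ]
    have hIC : ClassGroup.mk0 ⟨I, mem_nonZeroDivisors_of_ne_zero hI0⟩ = C := by
      have h1 := mk0_of_span I J hI0 hJ a hI'
      rw [hJC] at h1
      exact mul_inv_eq_one.1 h1
    let I₁ : S := ⟨⟨I, hI0, by omega⟩, hIC⟩
    have hs : Ideal.span {a} = Ideal.span {g I₁} := by
      rw [← hI', ← hg I₁]
    rw [Ideal.span_singleton_eq_span_singleton] at hs
    obtain ⟨u, hu⟩ := hs.symm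
    obtain ⟨c, hc0, hc⟩ := unit_const h u
    refine ⟨some (Units.mk0 c hc0, I₁), Subtype.ext ?_⟩
    show algebraMap F (AdjoinRoot f) c * g I₁ = a
    rw [← hc, mul_comm]
    exact hu
  rw [XD, ← Nat.card_congr (Equiv.ofBijective Φ ⟨hinj, hsurj⟩), Finite.card_option, Nat.card_prod,
    Nat.card_units, add_comm]

theorem cls [Finite F] (h : Good f) [IsDedekindDomain (AdjoinRoot f)]
    [Fintype (ClassGroup (AdjoinRoot f))] :
    ∃ J : ClassGroup (AdjoinRoot f) → Ideal (AdjoinRoot f), (∀ C, J C ≠ ⊥) ∧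
      ∀ N, (Nat.card F - 1) * AN f N + Nat.card (ClassGroup (AdjoinRoot f)) =
        ∑ C, XD f (J C) (N + ideg f (J C)) := by
  classical
  have hex : ∀ C : ClassGroup (AdjoinRoot f), ∃ (J : Ideal (AdjoinRoot f)) (hJ : J ≠ ⊥),
      ClassGroup.mk0 ⟨J, mem_nonZeroDivisors_of_ne_zero hJ⟩ = C⁻¹ := by
    intro C
    obtain ⟨J, hJ⟩ := ClassGroup.mk0_surjective C⁻¹
    exact ⟨J.1, nonZeroDivisors.ne_zero J.2, hJ⟩
  choose J hJ hJC using hex
  refine ⟨J, hJ, fun N => ?_⟩
  have hfinT : Finite {I : Ideal (AdjoinRoot f) // I ≠ ⊥ ∧ ideg f I ≤ N} :=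
    (fin_ideg h.monic N).to_subtype
  have hAN : AN f N = ∑ C, Nat.card {I : {I : Ideal (AdjoinRoot f) // I ≠ ⊥ ∧ ideg f I ≤ N} //
        ClassGroup.mk0 ⟨I.1, mem_nonZeroDivisors_of_ne_zero I.2.1⟩ = C} := by
    rw [AN, ← Nat.card_congr (Equiv.sigmaFiberEquiv
      (fun I : {I : Ideal (AdjoinRoot f) // I ≠ ⊥ ∧ ideg f I ≤ N} =>
        ClassGroup.mk0 ⟨I.1, mem_nonZeroDivisors_of_ne_zero I.2.1⟩)), Nat.card_sigma]
  have hcl : Nat.card (ClassGroup (AdjoinRoot f)) = ∑ _C : ClassGroup (AdjoinRoot f), 1 := by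
    rw [Nat.card_eq_fintype_card, ← Finset.card_univ, Finset.card_eq_sum_ones]
  rw [hAN, Finset.mul_sum, hcl, ← Finset.sum_add_distrib]
  refine Finset.sum_congr rfl fun C _ => ?_
  rw [key h C (J C) (hJ C) (hJC C) N, add_comm]

end H13.TA
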