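import Pool.Agent.H13.TA.Xd

/-!
# TA-CON: elements of degree zero are algebraic

`a ≠ 0`, `dg a = 0`. All powers of `a` have `dg = 0` (`dg_mul`), and the set `{dg ≤ 0}` is finite (proof of `xd_fin`, which
uses only `ultra`, not `const`: repeat it). So `a ^ i = a ^ j` for some `i < j`, `a` is algebraic over `F`, so constant by
`hc`.
-/

set_option autoImplicit false

open Polynomial

noncomputable section

namespace H13.TA

variable {F : Type} [Field F] {f : F[X][X]}

theorem cst [Finite F] (hf : f.Monic) (h0 : f.natDegree ≠ 0) [IsDomain (AdjoinRoot f)]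
    (hu : ∀ a b : AdjoinRoot f, dg f (a + b) ≤ max (dg f a) (dg f b))
    (hc : ∀ a : AdjoinRoot f, IsAlgebraic F a → ∃ c : F, a = algebraMap F (AdjoinRoot f) c)
    (a : AdjoinRoot f) (ha : dg f a = 0) : ∃ c : F, a = algebraMap F (AdjoinRoot f) c := by
  by_cases ha0 : a = 0
  · exact ⟨0, by rw [ha0, map_zero]⟩
  have hfree := hf.free_adjoinRoot
  -- the elements of degree zero are finite in number
  set T : AdjoinRoot f := algebraMap F[X] (AdjoinRoot f) (X ^ 1) with hT
  have hT0 : T ≠ 0 := by
    rw [hT, Algebra.algebraMap_eq_smul_one]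
    intro h3
    rcases smul_eq_zero.mp h3 with h4 | h4
    · exact pow_ne_zero 1 X_ne_zero h4
    · exact one_ne_zero h4
  have hTd : 0 < dg f T := by
    rw [hT, dg_base hf, natDegree_X_pow, mul_one]
    exact Nat.pos_of_ne_zero h0
  have hS : Ideal.span {T} ≠ ⊥ := by
    rw [Ne, Ideal.span_singleton_eq_bot]
    exact hT0
  have hq := (card_quot hf hS).1
  have hfin : {b : AdjoinRoot f | dg f b ≤ 0}.Finite := by
    apply Set.Finite.of_finite_image (f := Ideal.Quotient.mk (Ideal.span {T})) (Set.toFinite _)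
    intro b hb b' hb' hab
    rw [Ideal.Quotient.eq, Ideal.mem_span_singleton'] at hab
    obtain ⟨c, hc'⟩ := hab
    by_cases hc0 : c = 0
    · rw [hc0, zero_mul] at hc'
      exact (sub_eq_zero.mp hc'.symm)
    · exfalso
      have h1 := hu b (-b')
      rw [dg_neg hf, ← sub_eq_add_neg, ← hc', dg_mul hf hc0 hT0] at h1
      have h2 : max (dg f b) (dg f b') ≤ 0 := max_le hb hb'
      omega
  have hpow : ∀ n : ℕ, dg f (a ^ n) = 0 := by
    intro n
    induction n with
    | zero =>
      rw [pow_zero]
      have := dg_const hf (1 : F)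
      rwa [map_one] at this
    | succ n ih => rw [pow_succ, dg_mul hf (pow_ne_zero n ha0) ha0, ih, ha]
  have hFs := hfin.to_subtype
  obtain ⟨i, j, hij, he⟩ := Finite.exists_ne_map_eq_of_infinite
    (fun n : ℕ => (⟨a ^ n, (hpow n).le⟩ : {b : AdjoinRoot f | dg f b ≤ 0}))
  have he' : a ^ i = a ^ j := congrArg Subtype.val he
  apply hc
  refine ⟨X ^ i - X ^ j, ?_, ?_⟩
  · intro h1
    rw [sub_eq_zero] at h1
    have h2 := congrArg natDegree h1
    rw [natDegree_X_pow, natDegree_X_pow] at h2
    exact hij h2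
  · rw [map_sub, map_pow, map_pow, aeval_X, he', sub_self]

end H13.TA
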