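import Mathlib

/-!
# Theorem A (MP_1bad5e_ag), definitions

`F` is a field, `f ∈ F[t][x]`, `O = F[t][x]/(f) = AdjoinRoot f`.

* `dg f a` : the degree of the norm of `a ∈ O` in `F[t]`;
* `dt f` : the derivative with respect to `t`;
* `Good f` : `f` monic of positive degree `m` in `x`, `f = 0` a smooth irreducible affine curve with only one place at
  infinity (`ultra`) and with constants `F` (`const`);
* `ideg f I` : dimension over `F` of `O/I`;
* `ev f p` : the value of `f` at `p ∈ E × E`; `npt f r` : number of points over the field with `q ^ r` elements;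
* `XD f J D` : number of the `a ∈ J` with `dg f a ≤ D`; `an f n`, `AN f n` : number of the ideals `I ≠ 0` with
  `ideg f I = n` or `≤ n`; `pn f d` : number of the primes `≠ 0` with `ideg = d`.
-/

set_option autoImplicit false

open Polynomial

noncomputable section

namespace H13.TA

/-- the derivative with respect to `t` of `f ∈ R[t][x]` -/
def dt {R : Type*} [CommRing R] (f : R[X][X]) : R[X][X] :=
  f.sum fun i c => monomial i (derivative c)

/-- the degree of the norm -/
def dg {F : Type} [Field F] (f : F[X][X]) (a : AdjoinRoot f) : ℕ :=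
  (Algebra.norm F[X] a).natDegree

/-- smooth affine curve, irreducible, one place at infinity, constants `F` -/
structure Good {F : Type} [Field F] (f : F[X][X]) : Prop where
  monic : f.Monic
  pos : f.natDegree ≠ 0
  smooth : Ideal.span {f, derivative f, dt f} = ⊤
  dom : IsDomain (AdjoinRoot f)
  ultra : ∀ a b : AdjoinRoot f, dg f (a + b) ≤ max (dg f a) (dg f b)
  const : ∀ a : AdjoinRoot f, dg f a = 0 → ∃ c : F, a = algebraMap F (AdjoinRoot f) c

/-- dimension of `O/I` -/
def ideg {F : Type} [Field F] (f : F[X][X]) (I : Ideal (AdjoinRoot f)) : ℕ :=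
  Module.finrank F (AdjoinRoot f ⧸ I)

/-- the value `f(p)` -/
def ev {F : Type} [Field F] {E : Type} [Field E] [Algebra F E] (f : F[X][X]) (p : E × E) : E :=
  f.eval₂ ((aeval p.1 : F[X] →ₐ[F] E) : F[X] →+* E) p.2

/-- number of points of `f = 0` with coordinates in the field with `q ^ r` elements -/
def npt {F : Type} [Field F] (f : F[X][X]) (r : ℕ) : ℕ :=
  Nat.card {p : AlgebraicClosure F × AlgebraicClosure F //
    ev f p = 0 ∧ p.1 ^ Nat.card F ^ r = p.1 ∧ p.2 ^ Nat.card F ^ r = p.2}

/-- number of the `a ∈ J` with `dg a ≤ D` -/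
def XD {F : Type} [Field F] (f : F[X][X]) (J : Ideal (AdjoinRoot f)) (D : ℕ) : ℕ :=
  Nat.card {a : AdjoinRoot f // a ∈ J ∧ dg f a ≤ D}

/-- number of ideals of degree `n` -/
def an {F : Type} [Field F] (f : F[X][X]) (n : ℕ) : ℕ :=
  Nat.card {I : Ideal (AdjoinRoot f) // I ≠ ⊥ ∧ ideg f I = n}

/-- number of ideals of degree at most `n` -/
def AN {F : Type} [Field F] (f : F[X][X]) (n : ℕ) : ℕ :=
  Nat.card {I : Ideal (AdjoinRoot f) // I ≠ ⊥ ∧ ideg f I ≤ n}

/-- number of primes of degree `d` -/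
def pn {F : Type} [Field F] (f : F[X][X]) (d : ℕ) : ℕ :=
  Nat.card {P : Ideal (AdjoinRoot f) // (P ≠ ⊥ ∧ P.IsPrime) ∧ ideg f P = d}

/-- `f` over the extension `F'` of `F` -/
def bc {F : Type} [Field F] (F' : Type) [Field F'] [Algebra F F'] (f : F[X][X]) : F'[X][X] :=
  f.map (mapRingHom (algebraMap F F'))

/-- the map from `O` to `O' = F'[t][x]/(f)` -/
def io {F : Type} [Field F] (F' : Type) [Field F'] [Algebra F F'] (f : F[X][X]) :
    AdjoinRoot f →+* AdjoinRoot (bc F' f) :=
  AdjoinRoot.map (mapRingHom (algebraMap F F')) f (bc F' f) dvd_rfl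

/-- the element `∑ a_i θ ^ i` of `O'` -/
def em {F : Type} [Field F] {F' : Type} [Field F'] [Algebra F F'] {f : F[X][X]} {k : ℕ} (θ : F')
    (a : Fin k → AdjoinRoot f) : AdjoinRoot (bc F' f) :=
  ∑ i, io F' f (a i) * algebraMap F' (AdjoinRoot (bc F' f)) (θ ^ (i : ℕ))

/-- the largest degree of the coordinates -/
def mx {F : Type} [Field F] {f : F[X][X]} {k : ℕ} (a : Fin k → AdjoinRoot f) : ℕ :=
  Finset.univ.sup fun i => dg f (a i)

/-- `V` is the zeta polynomial of `f` (with class number `h`) -/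
structure IsZeta {F : Type} [Field F] (f : F[X][X]) (V : ℤ[X]) (h : ℕ) : Prop where
  monic : V.Monic
  zero : V.eval 0 ≠ 0
  one : ((Nat.card F : ℤ) - 1) * V.eval 1 = h * ((Nat.card F : ℤ) ^ f.natDegree - 1)
  card : V.eval (Nat.card F : ℤ) ≠ 0
  npt : ∀ r : ℕ, r ≠ 0 → (npt f r : ℂ) =
    (if f.natDegree ∣ r then (f.natDegree : ℂ) * (Nat.card F : ℂ) ^ r else 0) -
      ((V.aroots ℂ).map fun ρ => ρ ^ r).sum

end H13.TA
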