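import Pool.Agent.H13.TA.EPz

/-!
# TA-ECC: primes whose Frobenius is a given involution

`K` = fixed field of `{1, c}` in `M`, `[M : K] = 2`, `inert_pz`. A prime `v` in that set with `l = nm v` has `w` above it,
`l ∈ w` (as `l = nm v ∈ v`), and `c x ≡ x ^ l` modulo `w`. Only finitely many `v` are below primes `w ∋ y`. For each `l`
there are at most `[K : ℚ]` primes `v` above `l` (`H63.MA.pzb_card_above`, `v ∋ l`). So, if the sum of `1/l` over the set
in the statement were `A < ∞`, `PZ(set) ≤ [K : ℚ] ∑ l ^ (-s) + C ≤ [K : ℚ] A + C` for all `s > 1`, against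
`inert_pz` for `s → 1`.
-/

set_option autoImplicit false

open Polynomial NumberField IsDedekindDomain
open H63.MA (Pl nm PZ Over)

noncomputable section

namespace H13.TA

private theorem cc_aux {K M : Type} [Field K] [NumberField K] [Field M] [NumberField M]
    [Algebra K M] (h2 : Module.finrank K M = 2) (c : M ≃ₐ[K] M) (hc : c ≠ 1)
    (y : 𝓞 M) (hy : y ≠ 0) :
    ¬ Summable (fun l : {l : ℕ // l.Prime ∧ ∃ w : Pl M, (l : 𝓞 M) ∈ w.asIdeal ∧ y ∉ w.asIdeal ∧
      ∀ x : 𝓞 M, ∃ z ∈ w.asIdeal, (z : M) = c (x : M) - (x : M) ^ l} => (1 : ℝ) / (l : ℕ)) := by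
  classical
  intro hs
  obtain ⟨C, hC⟩ := inert_pz h2 c hc
  set P : ℕ → Prop := fun l => l.Prime ∧ ∃ w : Pl M, (l : 𝓞 M) ∈ w.asIdeal ∧ y ∉ w.asIdeal ∧
      ∀ x : 𝓞 M, ∃ z ∈ w.asIdeal, (z : M) = c (x : M) - (x : M) ^ l with hP
  set S : Set (Pl K) := {v : Pl K | (nm v).Prime ∧ ∃ w : Pl M, Over w v ∧
        ∀ x : 𝓞 M, ∃ z ∈ w.asIdeal, (z : M) = c (x : M) - (x : M) ^ nm v} with hS
  set S0 : Set (Pl K) := (fun w : Pl M => w.under (𝓞 K)) '' {w : Pl M | y ∈ w.asIdeal} with hS0
  have hfin : {w : Pl M | y ∈ w.asIdeal}.Finite := by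
    have h1 : Ideal.span {y} ≠ 0 := by
      rw [Ne, Ideal.zero_eq_bot, Ideal.span_singleton_eq_bot]
      exact hy
    refine (Ideal.finite_factors h1).subset ?_
    intro w hw
    change w.asIdeal ∣ _
    rw [Ideal.dvd_iff_le]
    exact (Ideal.span_singleton_le_iff_mem _).2 hw
  obtain ⟨C0, hC0⟩ := H63.MA.pz_finite (hfin.image (fun w : Pl M => w.under (𝓞 K)))
  -- the good ones
  have hgood : ∀ v ∈ S \ S0, P (nm v) := by
    rintro v ⟨⟨hl, w, hw, hfr⟩, hv0⟩
    refine ⟨hl, w, ?_, ?_, hfr⟩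
    · have h1 : (nm v : 𝓞 K) ∈ v.asIdeal := Ideal.absNorm_mem v.asIdeal
      have h3 : (nm v : 𝓞 K) ∈ w.asIdeal.comap (algebraMap (𝓞 K) (𝓞 M)) := by
        rw [show w.asIdeal.comap (algebraMap (𝓞 K) (𝓞 M)) = v.asIdeal from hw]
        exact h1
      have h4 : algebraMap (𝓞 K) (𝓞 M) (nm v : 𝓞 K) ∈ w.asIdeal := h3
      simpa using h4
    · intro hyw
      exact hv0 ⟨w, hyw, HeightOneSpectrum.ext hw⟩
  set n : ℕ := Module.finrank ℤ (𝓞 K) with hn
  set A : ℝ := ∑' l : {l : ℕ // P l}, (1 : ℝ) / (l : ℕ) with hA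
  have hA0 : 0 ≤ A := tsum_nonneg fun l => by positivity
  have hfs : ∀ T : Finset ℕ, (∀ l ∈ T, P l) → ∑ l ∈ T, (1 : ℝ) / (l : ℕ) ≤ A := by
    intro T hT
    have h1 := hs.sum_le_tsum (T.subtype P) (fun l _ => by positivity)
    rw [Finset.sum_subtype_of_mem (f := fun l : ℕ => (1 : ℝ) / (l : ℕ)) hT] at h1
    exact h1
  have hSg : ∀ s : ℝ, 1 < s → PZ (S \ S0) s ≤ n * A := by
    intro s hs1
    unfold PZ
    refine Real.tsum_le_of_sum_le (fun v => Set.indicator_nonneg (fun v _ =>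
      Real.rpow_nonneg (Nat.cast_nonneg _) _) v) ?_
    intro F
    set F' := F.filter (· ∈ S \ S0) with hF'
    have e1 : ∑ v ∈ F, (S \ S0).indicator (fun v => (nm v : ℝ) ^ (-s)) v =
        ∑ v ∈ F', (nm v : ℝ) ^ (-s) := by
      rw [hF', Finset.sum_filter]
      apply Finset.sum_congr rfl
      intro v _
      rw [Set.indicator_apply]
    rw [e1]
    have hmem : ∀ v ∈ F', P (nm v) := fun v hv => hgood v (Finset.mem_filter.mp hv).2
    calc ∑ v ∈ F', (nm v : ℝ) ^ (-s) ≤ ∑ v ∈ F', (1 : ℝ) / (nm v : ℕ) := by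
          apply Finset.sum_le_sum
          intro v hv
          have hp : (1 : ℝ) ≤ nm v := by exact_mod_cast (hmem v hv).1.one_lt.le
          rw [one_div, ← Real.rpow_neg_one]
          exact Real.rpow_le_rpow_of_exponent_le hp (by linarith)
      _ = ∑ l ∈ F'.image nm, ∑ v ∈ F' with nm v = l, (1 : ℝ) / (nm v : ℕ) := by
          rw [Finset.sum_fiberwise_of_maps_to (fun v hv => Finset.mem_image_of_mem _ hv)]
      _ ≤ ∑ l ∈ F'.image nm, n * ((1 : ℝ) / (l : ℕ)) := by
          apply Finset.sum_le_sum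
          intro l hl
          rw [Finset.mem_image] at hl
          obtain ⟨v0, hv0, hv0l⟩ := hl
          have hlp : l.Prime := by rw [← hv0l]; exact (hmem v0 hv0).1
          have e2 : ∑ v ∈ F' with nm v = l, (1 : ℝ) / (nm v : ℕ) =
              ∑ v ∈ F' with nm v = l, (1 : ℝ) / (l : ℕ) := by
            apply Finset.sum_congr rfl
            intro v hv
            rw [(Finset.mem_filter.mp hv).2]
          rw [e2, Finset.sum_const, nsmul_eq_mul]
          apply mul_le_mul_of_nonneg_right _ (by positivity)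
          have := H63.MA.pzb_card_above hlp (F'.filter (fun v => nm v = l)) (by
            intro v hv
            have h1 := (Finset.mem_filter.mp hv).2
            change (l : 𝓞 K) ∈ v.asIdeal
            rw [← h1]
            exact Ideal.absNorm_mem v.asIdeal)
          exact_mod_cast this
      _ = n * ∑ l ∈ F'.image nm, (1 : ℝ) / (l : ℕ) := by rw [Finset.mul_sum]
      _ ≤ n * A := by
          apply mul_le_mul_of_nonneg_left _ (Nat.cast_nonneg n)
          apply hfs
          intro l hl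
          rw [Finset.mem_image] at hl
          obtain ⟨v, hv, rfl⟩ := hl
          exact hmem v hv
  have hup : ∀ s : ℝ, 1 < s → PZ S s ≤ n * A + C0 := by
    intro s hs1
    have h1 : PZ S s ≤ PZ ((S \ S0) ∪ S0) s := by
      apply H63.MA.pz_mono _ hs1
      intro v hv
      by_cases h : v ∈ S0
      · exact Or.inr h
      · exact Or.inl ⟨hv, h⟩
    have h3 := H63.MA.pz_add (S \ S0) S0 hs1
    have h4 := H63.MA.pz_nonneg ((S \ S0) ∩ S0) s
    have h5 := hSg s hs1
    have h6 := hC0 s hs1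
    rw [← hS0] at h6
    linarith
  set D : ℝ := 2 * (|C + n * A + C0| + 1) with hD
  have hD0 : 0 < D := by
    have := abs_nonneg (C + n * A + C0)
    linarith
  have h1 := hC (1 + Real.exp (-D)) (by linarith [Real.exp_pos (-D)]) (by
    have : Real.exp (-D) ≤ 1 := Real.exp_le_one_iff.mpr (by linarith)
    linarith)
  have h3 := hup (1 + Real.exp (-D)) (by linarith [Real.exp_pos (-D)])
  have hlog : Real.log (1 / (1 + Real.exp (-D) - 1)) = D := by
    rw [show (1 + Real.exp (-D) - 1 : ℝ) = Real.exp (-D) by ring, one_div, Real.log_inv,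
      Real.log_exp, neg_neg]
  rw [hlog] at h1
  have h4 := le_abs_self (C + n * A + C0)
  have h5 : 1 / 2 * D - C ≤ n * A + C0 := h1.trans h3
  rw [hD] at h5
  linarith

theorem cc (M : Type) [Field M] [NumberField M] (c : M ≃ₐ[ℚ] M) (hc : c ≠ 1)
    (hc2 : ∀ x, c (c x) = x) (y : 𝓞 M) (hy : y ≠ 0) :
    ¬ Summable (fun l : {l : ℕ // l.Prime ∧ ∃ w : Pl M, (l : 𝓞 M) ∈ w.asIdeal ∧ y ∉ w.asIdeal ∧
      ∀ x : 𝓞 M, ∃ z ∈ w.asIdeal, (z : M) = c (x : M) - (x : M) ^ l} => (1 : ℝ) / (l : ℕ)) := by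
  have hord : orderOf c = 2 := by
    apply orderOf_eq_prime _ hc
    ext x
    rw [pow_two]
    exact hc2 x
  have h2 : Module.finrank (IntermediateField.fixedField (Subgroup.zpowers c)) M = 2 := by
    rw [IntermediateField.finrank_fixedField_eq_card, Nat.card_zpowers, hord]
  let c' : M ≃ₐ[IntermediateField.fixedField (Subgroup.zpowers c)] M :=
    AlgEquiv.ofRingEquiv (f := c.toRingEquiv) (fun x => by
      have h1 := x.2
      rw [IntermediateField.mem_fixedField_iff] at h1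
      exact h1 c (Subgroup.mem_zpowers c))
  have hc' : c' ≠ 1 := by
    intro h
    apply hc
    ext x
    have := DFunLike.congr_fun h x
    exact this
  exact cc_aux h2 c' hc' y hy

end H13.TA
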