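import Pool.Agent.H13.TA.ECc

/-!
# TA-ECF: complex conjugation

`M ⊂ ℂ` the field generated by all complex roots of `H = G (X ^ N - 1) (X ^ 2 - a) (X ^ 2 + 1)` (`IntermediateField.adjoin ℚ`
of the root set, a finite set of algebraic numbers; a number field), stable under complex conjugation as the set of roots
is; `c` its restriction, `c ≠ 1` (`i ∈ M`), `c c = 1`. `g` = leading coefficient of `G`, `ρ` the roots of `G` in `M`; the
`g ρ` are integral. `y` = product of `2`, `g`, `a`, `N` and all `g ρ - c(g ρ)` (nonzero as no root is real), `y ∈ 𝓞 M`.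
Apply `cc`: let `l`, `w` be as there. As `y ∉ w`: `l` divides none of `2, g, a, N`.
* `ζ = exp(2 π i/N) ∈ 𝓞 M`: `c ζ = ζ⁻¹`, so `ζ ^ (l + 1) ≡ 1` modulo `w`; the powers `1, ζ, .., ζ ^ (N - 1)` are different
  modulo `w` (`X ^ N - 1` is separable modulo `l ∤ N`), so `N ∣ l + 1`.
* `√a` is real: `√a ≡ √a ^ l`, so `a ^ ((l - 1)/2) ≡ 1` modulo `w`, so modulo `l`: `a` is a square (Euler's criterion).
* If `b ∈ ℤ`, `G(b) ≡ 0` modulo `l`: `g ^ (d - 1) G(b) = ∏ (g b - g ρ)`, so `g b ≡ g ρ` modulo `w` for one `ρ`,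
  `c (g ρ) ≡ (g ρ) ^ l ≡ (g b) ^ l ≡ g b ≡ g ρ` (Fermat), so `g ρ - c(g ρ) ∈ w`, against `y ∉ w`.
The sum over a larger set of `l` diverges too.
-/

set_option autoImplicit false

open Polynomial NumberField IsDedekindDomain
open H63.MA (Pl nm PZ Over)

noncomputable section

namespace H13.TA

private theorem oext {M : Type} [Field M] [NumberField M] {x y : 𝓞 M}
    (h : algebraMap (𝓞 M) M x = algebraMap (𝓞 M) M y) : x = y := RingOfIntegers.ext h

private theorem dvd_of_one_sub_pow_mem {R : Type*} [CommRing R] [IsDomain R] (w : Ideal R) {N : ℕ}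
    (hN : N ≠ 0) {ζ : R} (hζ : IsPrimitiveRoot ζ N) (hNw : (N : R) ∉ w) {j : ℕ}
    (hj : 1 - ζ ^ j ∈ w) : N ∣ j := by
  by_contra hd
  apply hNw
  obtain ⟨n, rfl⟩ := Nat.exists_eq_succ_of_ne_zero hN
  have hr : j % (n + 1) ≠ 0 := fun h => hd (Nat.dvd_of_mod_eq_zero h)
  have hlt : j % (n + 1) < n + 1 := Nat.mod_lt _ (Nat.succ_pos n)
  have hpw : ζ ^ j = ζ ^ (j % (n + 1)) := by
    have := Nat.div_add_mod j (n + 1)
    conv_lhs => rw [← this, pow_add, pow_mul, hζ.pow_eq_one, one_pow, one_mul]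
  have hprod := IsPrimitiveRoot.prod_one_sub_pow_eq_order (n := n) (μ := ζ) hζ
  have hcast : ((n + 1 : ℕ) : R) = ((n : R) + 1) := by push_cast; ring
  have hmem : j % (n + 1) - 1 ∈ Finset.range n := by
    rw [Finset.mem_range]; omega
  have hdv := Finset.dvd_prod_of_mem (fun k => (1 - ζ ^ (k + 1))) hmem
  rw [hprod] at hdv
  have hidx : j % (n + 1) - 1 + 1 = j % (n + 1) := by omega
  simp only [hidx] at hdv
  rw [← hpw] at hdv
  have := w.mem_of_dvd hdv hj
  rw [Nat.succ_eq_add_one, hcast]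
  exact this

private theorem int_mem {R : Type*} [CommRing R] {w : Ideal R} (hw : w ≠ ⊤) {l : ℕ} (hl : l.Prime)
    (hlw : (l : R) ∈ w) {n : ℤ} (hn : (n : R) ∈ w) : (l : ℤ) ∣ n := by
  by_contra hd
  have hco : IsCoprime (l : ℤ) n :=
    (Prime.coprime_iff_not_dvd (Nat.prime_iff_prime_int.mp hl)).mpr hd
  obtain ⟨u, v, huv⟩ := hco
  apply hw
  rw [Ideal.eq_top_iff_one]
  have h1 : (1 : R) = (u : R) * (l : R) + (v : R) * (n : R) := by
    have := congrArg (fun z : ℤ => (z : R)) huv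
    push_cast at this
    exact this.symm
  rw [h1]
  exact w.add_mem (w.mul_mem_left _ hlw) (w.mul_mem_left _ hn)

private theorem ccf_aux (M : Type) [Field M] [NumberField M] (c : M ≃ₐ[ℚ] M)
    (G : ℤ[X]) (hG : G ≠ 0) (N a : ℕ) (hN : N ≠ 0) (ha : a ≠ 0)
    (hsp : (G.map (algebraMap ℤ M)).Splits)
    (hroots : ∀ ρ : M, aeval ρ G = 0 → c ρ ≠ ρ)
    (ζ : M) (hζ : IsPrimitiveRoot ζ N) (hcζ : c ζ = ζ⁻¹)
    (s : M) (hs : s ^ 2 = a) (hcs : c s = s) :
    ∃ y : 𝓞 M, y ≠ 0 ∧ ∀ l : ℕ, l.Prime → ∀ w : Pl M, (l : 𝓞 M) ∈ w.asIdeal → y ∉ w.asIdeal →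
      (∀ x : 𝓞 M, ∃ z ∈ w.asIdeal, (z : M) = c (x : M) - (x : M) ^ l) →
      N ∣ l + 1 ∧ IsSquare (a : ZMod l) ∧ ¬ l ∣ a ∧
        ∀ b : ZMod l, (G.map (Int.castRingHom (ZMod l))).eval b ≠ 0 := by
  classical
  set g : ℤ := G.leadingCoeff with hg
  have hg0 : g ≠ 0 := leadingCoeff_ne_zero.mpr hG
  set Rt : Multiset M := (G.map (algebraMap ℤ M)).roots with hRt
  have hRt' : ∀ ρ ∈ Rt, aeval ρ G = 0 := by
    intro ρ hρ
    rw [hRt] at hρ
    have := isRoot_of_mem_roots hρ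
    rw [IsRoot.def, eval_map_algebraMap] at this
    exact this
  have hint : ∀ ρ ∈ Rt, IsIntegral ℤ ((g : M) * ρ) := by
    intro ρ hρ
    have := isIntegral_leadingCoeff_smul G ρ (hRt' ρ hρ)
    rw [Algebra.smul_def] at this
    simpa using this
  let r : M → 𝓞 M := fun ρ => if h : IsIntegral ℤ ((g : M) * ρ) then ⟨(g : M) * ρ, h⟩ else 0
  have hr : ∀ ρ ∈ Rt, ((r ρ : 𝓞 M) : M) = (g : M) * ρ := by
    intro ρ hρ
    simp only [r, dif_pos (hint ρ hρ)]
    rfl
  have hcint : ∀ x : M, IsIntegral ℤ x → IsIntegral ℤ (c x) := fun x hx =>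
    hx.map (c : M →ₐ[ℚ] M).toIntAlgHom
  let cr : M → 𝓞 M := fun ρ => if h : IsIntegral ℤ (c ((g : M) * ρ)) then ⟨c ((g : M) * ρ), h⟩ else 0
  have hcr : ∀ ρ ∈ Rt, ((cr ρ : 𝓞 M) : M) = c ((g : M) * ρ) := by
    intro ρ hρ
    simp only [cr, dif_pos (hcint _ (hint ρ hρ))]
    rfl
  let d : 𝓞 M := (Rt.map fun ρ => r ρ - cr ρ).prod
  have hd : d ≠ 0 := by
    intro h0
    rw [Multiset.prod_eq_zero_iff, Multiset.mem_map] at h0
    obtain ⟨ρ, hρ, h⟩ := h0
    have h1 : ((r ρ : 𝓞 M) : M) = ((cr ρ : 𝓞 M) : M) := by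
      rw [sub_eq_zero.mp h]
    rw [hr ρ hρ, hcr ρ hρ, map_mul] at h1
    have h2 : c ((g : ℤ) : M) = (g : M) := map_intCast c g
    rw [h2] at h1
    have h3 : ((g : ℤ) : M) ≠ 0 := by exact_mod_cast hg0
    exact hroots ρ (hRt' ρ hρ) (mul_left_cancel₀ h3 h1).symm
  refine ⟨2 * (g : 𝓞 M) * (a : 𝓞 M) * (N : 𝓞 M) * d, ?_, ?_⟩
  · have h1 : (2 : 𝓞 M) ≠ 0 := two_ne_zero
    have h2 : ((g : ℤ) : 𝓞 M) ≠ 0 := by exact_mod_cast hg0
    have h3 : ((a : ℕ) : 𝓞 M) ≠ 0 := by exact_mod_cast ha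
    have h4 : ((N : ℕ) : 𝓞 M) ≠ 0 := by exact_mod_cast hN
    exact mul_ne_zero (mul_ne_zero (mul_ne_zero (mul_ne_zero h1 h2) h3) h4) hd
  · intro l hl w hlw hy hfr
    have hwt : w.asIdeal ≠ ⊤ := w.isPrime.ne_top
    have hprime := w.isPrime
    have : Fact l.Prime := ⟨hl⟩
    have hdw : d ∉ w.asIdeal := fun h => hy (w.asIdeal.mul_mem_left _ h)
    have hy1 : 2 * (g : 𝓞 M) * (a : 𝓞 M) * (N : 𝓞 M) ∉ w.asIdeal :=
      fun h => hy (w.asIdeal.mul_mem_right _ h)
    have hNw : (N : 𝓞 M) ∉ w.asIdeal := fun h => hy1 (w.asIdeal.mul_mem_left _ h)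
    have hy2 : 2 * (g : 𝓞 M) * (a : 𝓞 M) ∉ w.asIdeal :=
      fun h => hy1 (w.asIdeal.mul_mem_right _ h)
    have haw : (a : 𝓞 M) ∉ w.asIdeal := fun h => hy2 (w.asIdeal.mul_mem_left _ h)
    have hy3 : 2 * (g : 𝓞 M) ∉ w.asIdeal :=
      fun h => hy2 (w.asIdeal.mul_mem_right _ h)
    have hgw : (g : 𝓞 M) ∉ w.asIdeal := fun h => hy3 (w.asIdeal.mul_mem_left _ h)
    have h2w : (2 : 𝓞 M) ∉ w.asIdeal := fun h => hy3 (w.asIdeal.mul_mem_right _ h)
    have hl2 : l ≠ 2 := by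
      rintro rfl
      apply h2w
      simpa using hlw
    refine ⟨?_, ?_, ?_, ?_⟩
    · -- roots of unity
      have hζi : IsIntegral ℤ ζ := hζ.isIntegral (Nat.pos_of_ne_zero hN)
      let z : 𝓞 M := ⟨ζ, hζi⟩
      have hz : (z : M) = ζ := rfl
      have hzp : IsPrimitiveRoot z N := by
        refine IsPrimitiveRoot.of_map_of_injective (f := algebraMap (𝓞 M) M) ?_
          (FaithfulSMul.algebraMap_injective (𝓞 M) M)
        exact hζ
      apply dvd_of_one_sub_pow_mem w.asIdeal hN hzp hNw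
      obtain ⟨t, htw, ht⟩ := hfr z
      have hζ0 : ζ ≠ 0 := hζ.ne_zero hN
      have h1 : 1 - z ^ (l + 1) = z * t := by
        apply oext
        rw [map_mul, map_sub, map_one, map_pow]
        change 1 - (z : M) ^ (l + 1) = (z : M) * (t : M)
        rw [ht, hz, hcζ, mul_sub, mul_inv_cancel₀ hζ0, pow_succ]
        ring
      rw [h1]
      exact w.asIdeal.mul_mem_left _ htw
    · -- squares
      have hsi : IsIntegral ℤ s := by
        refine IsIntegral.of_pow (n := 2) two_pos ?_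
        rw [hs]
        exact isIntegral_natCast (R := ℤ) a
      let z : 𝓞 M := ⟨s, hsi⟩
      have hz : (z : M) = s := rfl
      have hz2 : z ^ 2 = (a : 𝓞 M) := by
        apply oext
        rw [map_pow, map_natCast]
        exact hs
      obtain ⟨t, htw, ht⟩ := hfr z
      have hodd : l = 2 * (l / 2) + 1 := by
        rcases hl.eq_two_or_odd with h | h
        · exact absurd h hl2
        · omega
      have h1 : t = z * (1 - (a : 𝓞 M) ^ (l / 2)) := by
        apply oext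
        rw [← hz2, ← pow_mul]
        rw [map_mul, map_sub, map_one, map_pow]
        change (t : M) = (z : M) * (1 - (z : M) ^ (2 * (l / 2)))
        rw [ht, hz, hcs]
        conv_lhs => rw [hodd, pow_succ]
        ring
      have hzw : z ∉ w.asIdeal := by
        intro h
        apply haw
        rw [← hz2, pow_two]
        exact w.asIdeal.mul_mem_left _ h
      rw [h1] at htw
      have h2 : 1 - (a : 𝓞 M) ^ (l / 2) ∈ w.asIdeal := (hprime.mem_or_mem htw).resolve_left hzw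
      have h3 : ((1 - (a : ℤ) ^ (l / 2) : ℤ) : 𝓞 M) ∈ w.asIdeal := by
        push_cast
        exact h2
      have h4 := int_mem hwt hl hlw h3
      have h5 : ((1 - (a : ℤ) ^ (l / 2) : ℤ) : ZMod l) = 0 := by
        rw [ZMod.intCast_zmod_eq_zero_iff_dvd]
        exact h4
      have h6 : (a : ZMod l) ^ (l / 2) = 1 := by
        push_cast at h5
        exact (sub_eq_zero.mp h5).symm
      have ha0 : (a : ZMod l) ≠ 0 := by
        rw [Ne, ZMod.natCast_eq_zero_iff]
        intro h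
        apply haw
        obtain ⟨k, hk⟩ := h
        rw [hk, Nat.cast_mul]
        exact w.asIdeal.mul_mem_right _ hlw
      exact (ZMod.euler_criterion l ha0).mpr h6
    · intro h
      apply haw
      obtain ⟨k, hk⟩ := h
      rw [hk, Nat.cast_mul]
      exact w.asIdeal.mul_mem_right _ hlw
    · intro b hb
      -- lift
      obtain ⟨b', rfl⟩ := ZMod.intCast_surjective b
      have hb1 : (((G.eval b' : ℤ)) : ZMod l) = 0 := by
        rw [← hb, eval_intCast_map]
        simp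
      rw [ZMod.intCast_zmod_eq_zero_iff_dvd] at hb1
      have hb2 : ((G.eval b' : ℤ) : 𝓞 M) ∈ w.asIdeal := by
        obtain ⟨k, hk⟩ := hb1
        rw [hk, Int.cast_mul]
        apply w.asIdeal.mul_mem_right
        simpa using hlw
      -- product formula
      have hpf : ((g : ℤ) : 𝓞 M) ^ (Multiset.card Rt) * ((G.eval b' : ℤ) : 𝓞 M) =
          (g : 𝓞 M) * (Rt.map fun ρ => (g : 𝓞 M) * (b' : 𝓞 M) - r ρ).prod := by
        apply oext
        rw [map_mul, map_mul, map_pow, map_intCast, map_intCast]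
        have h1 : ((G.eval b' : ℤ) : M) = (g : M) * (Rt.map ((b' : M) - ·)).prod := by
          have h2 := hsp.eval_eq_prod_roots (b' : M)
          rw [eval_intCast_map] at h2
          rw [leadingCoeff_map_of_injective (algebraMap ℤ M).injective_int, ← hRt, ← hg,
            eq_intCast, eq_intCast] at h2
          exact h2
        rw [h1]
        have h3 : (algebraMap (𝓞 M) M) (Rt.map fun ρ => (g : 𝓞 M) * (b' : 𝓞 M) - r ρ).prod =
            (Rt.map fun ρ => (g : M) * ((b' : M) - ρ)).prod := by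
          rw [map_multiset_prod, Multiset.map_map]
          congr 1
          apply Multiset.map_congr rfl
          intro ρ hρ
          simp only [Function.comp_apply, map_sub, map_mul, map_intCast]
          have := hr ρ hρ
          rw [show (algebraMap (𝓞 M) M) (r ρ) = ((r ρ : 𝓞 M) : M) from rfl, this]
          ring
        rw [h3, Multiset.prod_map_mul, Multiset.map_const', Multiset.prod_replicate]
        ring
      have hm1 : (g : 𝓞 M) * (Rt.map fun ρ => (g : 𝓞 M) * (b' : 𝓞 M) - r ρ).prod ∈ w.asIdeal := by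
        rw [← hpf]
        exact w.asIdeal.mul_mem_left _ hb2
      have hm2 := (hprime.mem_or_mem hm1).resolve_left hgw
      rw [hprime.multiset_prod_mem_iff_exists_mem] at hm2
      obtain ⟨p, hp, hpw⟩ := hm2
      rw [Multiset.mem_map] at hp
      obtain ⟨ρ, hρ, rfl⟩ := hp
      -- contradiction with d
      apply hdw
      have hdd : r ρ - cr ρ ∣ d := Multiset.dvd_prod (Multiset.mem_map_of_mem _ hρ)
      refine w.asIdeal.mem_of_dvd hdd ?_
      obtain ⟨t, htw, ht⟩ := hfr (r ρ)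
      have e1 : cr ρ = t + r ρ ^ l := by
        apply oext
        rw [map_add, map_pow]
        change ((cr ρ : 𝓞 M) : M) = (t : M) + ((r ρ : 𝓞 M) : M) ^ l
        rw [ht, hcr ρ hρ, hr ρ hρ]
        ring
      -- Fermat
      have e2 : (((g * b') ^ l - g * b' : ℤ) : 𝓞 M) ∈ w.asIdeal := by
        have h1 : (l : ℤ) ∣ (g * b') ^ l - g * b' := by
          rw [← ZMod.intCast_zmod_eq_zero_iff_dvd]
          push_cast
          rw [ZMod.pow_card, sub_self]
        obtain ⟨k, hk⟩ := h1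
        rw [hk, Int.cast_mul]
        apply w.asIdeal.mul_mem_right
        simpa using hlw
      have e3 : ((g : 𝓞 M) * (b' : 𝓞 M)) ^ l - r ρ ^ l ∈ w.asIdeal :=
        w.asIdeal.mem_of_dvd (sub_dvd_pow_sub_pow _ _ l) hpw
      have e4 : r ρ - cr ρ = -((g : 𝓞 M) * (b' : 𝓞 M) - r ρ) - (((g * b') ^ l - g * b' : ℤ) : 𝓞 M) +
          (((g : 𝓞 M) * (b' : 𝓞 M)) ^ l - r ρ ^ l) - t := by
        rw [e1]
        push_cast
        ring
      rw [e4]
      exact w.asIdeal.sub_mem (w.asIdeal.add_mem (w.asIdeal.sub_mem (w.asIdeal.neg_mem hpw) e2) e3) htw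

theorem ccf (G : ℤ[X]) (hG : G ≠ 0) (hr : ∀ x : ℝ, aeval x G ≠ 0) (N a : ℕ) (hN : N ≠ 0)
    (ha : a ≠ 0) :
    ¬ Summable (fun l : {l : ℕ // l.Prime ∧ N ∣ l + 1 ∧ IsSquare (a : ZMod l) ∧ ¬ l ∣ a ∧
      ∀ b : ZMod l, (G.map (Int.castRingHom (ZMod l))).eval b ≠ 0} => (1 : ℝ) / (l : ℕ)) := by
  classical
  set H : ℤ[X] := G * ((X ^ N - 1) * ((X ^ 2 - C (a : ℤ)) * (X ^ 2 + 1))) with hH
  have hX1 : (X ^ N - 1 : ℤ[X]) ≠ 0 := by
    have := X_pow_sub_C_ne_zero (R := ℤ) (Nat.pos_of_ne_zero hN) 1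
    simpa using this
  have hX2 : (X ^ 2 - C (a : ℤ) : ℤ[X]) ≠ 0 := X_pow_sub_C_ne_zero (R := ℤ) two_pos _
  have hX3 : (X ^ 2 + 1 : ℤ[X]) ≠ 0 := by
    have := X_pow_sub_C_ne_zero (R := ℤ) two_pos (-1)
    simpa using this
  have hH0 : H ≠ 0 := mul_ne_zero hG (mul_ne_zero hX1 (mul_ne_zero hX2 hX3))
  set H' : ℚ[X] := H.map (algebraMap ℤ ℚ) with hH'
  have hH'0 : H' ≠ 0 :=
    (Polynomial.map_ne_zero_iff (algebraMap ℤ ℚ).injective_int).mpr hH0
  have hHs : (H'.map (algebraMap ℚ ℂ)).Splits := IsAlgClosed.splits _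
  have hsf : IsSplittingField ℚ (IntermediateField.adjoin ℚ (H'.rootSet ℂ)) H' :=
    IntermediateField.adjoin_rootSet_isSplittingField hHs
  have hfd : FiniteDimensional ℚ (IntermediateField.adjoin ℚ (H'.rootSet ℂ)) :=
    IsSplittingField.finiteDimensional _ H'
  have hnf : NumberField (IntermediateField.adjoin ℚ (H'.rootSet ℂ)) := { }
  have hno : Normal ℚ (IntermediateField.adjoin ℚ (H'.rootSet ℂ)) := Normal.of_isSplittingField H'
  have hmem : ∀ x : ℂ, aeval x H = 0 → x ∈ IntermediateField.adjoin ℚ (H'.rootSet ℂ) := by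
    intro x hx
    apply IntermediateField.subset_adjoin
    rw [mem_rootSet]
    refine ⟨hH'0, ?_⟩
    rw [hH', aeval_map_algebraMap]
    exact hx
  have hHx : ∀ x : ℂ, aeval x H = aeval x G * ((x ^ N - 1) * ((x ^ 2 - (a : ℂ)) * (x ^ 2 + 1))) := by
    intro x
    rw [hH]
    simp
  generalize hM : IntermediateField.adjoin ℚ (H'.rootSet ℂ) = M at hsf hfd hnf hno hmem
  set c : M ≃ₐ[ℚ] M := AlgEquiv.restrictNormal (Complex.conjAe.restrictScalars ℚ) M with hc
  have hcc : ∀ x : M, ((c x : M) : ℂ) = (starRingEnd ℂ) (x : ℂ) := by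
    intro x
    have := AlgEquiv.restrictNormal_commutes (Complex.conjAe.restrictScalars ℚ) M x
    rw [← hc] at this
    exact this
  have hc2 : ∀ x, c (c x) = x := by
    intro x
    apply Subtype.ext
    rw [hcc, hcc, Complex.conj_conj]
  -- elements
  have hi : Complex.I ∈ M := by
    apply hmem
    rw [hHx, Complex.I_sq]
    ring
  have hc1 : c ≠ 1 := by
    intro h
    have h1 := hcc ⟨Complex.I, hi⟩
    rw [h] at h1
    have h2 : Complex.I = (starRingEnd ℂ) Complex.I := h1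
    rw [Complex.conj_I] at h2
    exact Complex.I_ne_zero (self_eq_neg.mp h2)
  have hζ : IsPrimitiveRoot (Complex.exp (2 * Real.pi * Complex.I / N)) N :=
    Complex.isPrimitiveRoot_exp N hN
  have hζm : Complex.exp (2 * Real.pi * Complex.I / N) ∈ M := by
    apply hmem
    rw [hHx, hζ.pow_eq_one]
    ring
  have hsq : ((Real.sqrt a : ℝ) : ℂ) ^ 2 = (a : ℂ) := by
    rw [← Complex.ofReal_pow, Real.sq_sqrt (Nat.cast_nonneg a)]
    simp
  have hsm : ((Real.sqrt a : ℝ) : ℂ) ∈ M := by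
    apply hmem
    rw [hHx, hsq]
    ring
  have hHsp : (H'.map (algebraMap ℚ M)).Splits := hsf.splits'
  have hGsp : (G.map (algebraMap ℤ M)).Splits := by
    have h1 : H'.map (algebraMap ℚ M) = H.map (algebraMap ℤ M) := by
      rw [hH', Polynomial.map_map, ← IsScalarTower.algebraMap_eq]
    rw [h1] at hHsp
    refine hHsp.of_dvd ?_ ?_
    · exact (Polynomial.map_ne_zero_iff (algebraMap ℤ M).injective_int).mpr hH0
    · rw [hH, Polynomial.map_mul]
      exact dvd_mul_right _ _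
  have hroots : ∀ ρ : M, aeval ρ G = 0 → c ρ ≠ ρ := by
    intro ρ hρ h
    have h1 := hcc ρ
    rw [h] at h1
    have h2 : ((ρ : ℂ).re : ℂ) = (ρ : ℂ) := Complex.conj_eq_iff_re.mp h1.symm
    apply hr (ρ : ℂ).re
    have h3 : aeval (ρ : ℂ) G = 0 := by
      have := congrArg (fun z : M => (z : ℂ)) hρ
      have h4 : ((aeval ρ G : M) : ℂ) = aeval (ρ : ℂ) G := by
        have := aeval_algebraMap_apply ℂ ρ G
        exact this.symm
      rw [← h4, hρ]
      rfl
    rw [← h2] at h3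
    have h5 : aeval (((ρ : ℂ).re : ℝ) : ℂ) G = ((aeval (ρ : ℂ).re G : ℝ) : ℂ) := by
      have := aeval_algebraMap_apply ℂ ((ρ : ℂ).re) G
      exact this
    rw [h5] at h3
    exact_mod_cast h3
  obtain ⟨y, hy0, hy⟩ := ccf_aux M c G hG N a hN ha hGsp hroots
    ⟨Complex.exp (2 * Real.pi * Complex.I / N), hζm⟩ (by
      refine IsPrimitiveRoot.of_map_of_injective (f := algebraMap M ℂ) ?_
        (FaithfulSMul.algebraMap_injective M ℂ)
      exact hζ) (by
      apply Subtype.ext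
      rw [hcc]
      change (starRingEnd ℂ) (Complex.exp (2 * Real.pi * Complex.I / N)) =
        (Complex.exp (2 * Real.pi * Complex.I / N))⁻¹
      rw [← Complex.exp_conj, ← Complex.exp_neg]
      congr 1
      have h2 : (starRingEnd ℂ) 2 = 2 := Complex.conj_ofNat 2
      simp only [map_div₀, map_mul, Complex.conj_I, Complex.conj_ofReal, Complex.conj_natCast, h2]
      ring)
    ⟨((Real.sqrt a : ℝ) : ℂ), hsm⟩ (by
      apply Subtype.ext
      exact hsq) (by
      apply Subtype.ext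
      rw [hcc]
      exact Complex.conj_ofReal _)
  have hcc' := cc M c hc1 hc2 y hy0
  intro hs
  apply hcc'
  have key : ∀ l : ℕ, (l.Prime ∧ ∃ w : Pl M, (l : 𝓞 M) ∈ w.asIdeal ∧ y ∉ w.asIdeal ∧
      ∀ x : 𝓞 M, ∃ z ∈ w.asIdeal, (z : M) = c (x : M) - (x : M) ^ l) →
      (l.Prime ∧ N ∣ l + 1 ∧ IsSquare (a : ZMod l) ∧ ¬ l ∣ a ∧
      ∀ b : ZMod l, (G.map (Int.castRingHom (ZMod l))).eval b ≠ 0) := by
    rintro l ⟨hl, w, hlw, hyw, hfr⟩
    exact ⟨hl, hy l hl w hlw hyw hfr⟩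
  have := hs.comp_injective (i := fun l : {l : ℕ // l.Prime ∧ ∃ w : Pl M, (l : 𝓞 M) ∈ w.asIdeal ∧
      y ∉ w.asIdeal ∧ ∀ x : 𝓞 M, ∃ z ∈ w.asIdeal, (z : M) = c (x : M) - (x : M) ^ l} =>
        (⟨l.1, key l.1 l.2⟩ : {l : ℕ // l.Prime ∧ N ∣ l + 1 ∧ IsSquare (a : ZMod l) ∧ ¬ l ∣ a ∧
      ∀ b : ZMod l, (G.map (Int.castRingHom (ZMod l))).eval b ≠ 0})) (by
      intro a b hab
      apply Subtype.ext
      have h' := Subtype.ext_iff.mp hab
      exact h')
  exact this

end H13.TA
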