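import Pool.Agent.H13.TA.ECf

/-!
# TA-EGP: the good primes

`a = √q` if `q` is a square, `a = q` otherwise. `V = (product of factors X + c, c = 1, q, a) G` with `G ∈ ℤ[X]` without real
roots (divide out). `ccf` with `N = 4 m!` and `a`: let `l` be such a prime, `k = orderOf q` in `ZMod l`. `4 m! ∣ l + 1`, so
`l > m`, `l` odd, `(l - 1)/2 ≡ -1` modulo `2 m!`, so `s = (l - 1)/2` is odd and prime to `m!`. `a` is a nonzero square modulo
`l`, so `a ^ s = 1`, `q ^ s = 1`, `k ∣ s`: `k` is odd and prime to `m!`; `a ^ k = 1` (the order of `a` divides `s` and `2 k`). If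
`V(b) = 0` modulo `l`: `G(b) ≠ 0`, so `b = -c`, `c = 1, q, a`, and `b ^ k = -1 ≠ 1` (`l ≠ 2`). The set in the statement
contains the set of `ccf`.
-/

set_option autoImplicit false

open Polynomial NumberField IsDedekindDomain
open H63.MA (Pl nm PZ Over)

noncomputable section

namespace H13.TA

private theorem split_off (L : List ℕ) : ∀ (n : ℕ) (V : ℤ[X]), V ≠ 0 → V.natDegree ≤ n →
    ∃ (s : Multiset ℕ) (G : ℤ[X]), (∀ c ∈ s, c ∈ L) ∧
      V = (s.map fun c : ℕ => X - C (-(c : ℤ))).prod * G ∧ ∀ c ∈ L, G.eval (-(c : ℤ)) ≠ 0 := by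
  intro n
  induction n with
  | zero =>
    intro V hV hn
    refine ⟨0, V, by simp, by simp, ?_⟩
    intro c _ hc
    have h1 : V = C (V.coeff 0) := eq_C_of_natDegree_le_zero hn
    rw [h1, eval_C] at hc
    rw [hc, C_0] at h1
    exact hV h1
  | succ n ih =>
    intro V hV hn
    by_cases h : ∃ c ∈ L, V.eval (-(c : ℤ)) = 0
    · obtain ⟨c, hcL, hc⟩ := h
      obtain ⟨W, hW⟩ := (dvd_iff_isRoot.2 hc : X - C (-(c : ℤ)) ∣ V)
      have hW0 : W ≠ 0 := by
        rintro rfl
        exact hV (by rw [hW, mul_zero])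
      have hdeg : V.natDegree = 1 + W.natDegree := by
        rw [hW, natDegree_mul (X_sub_C_ne_zero _) hW0, natDegree_X_sub_C]
      obtain ⟨s, G, hs, hG, hr⟩ := ih W hW0 (by omega)
      refine ⟨c ::ₘ s, G, ?_, ?_, hr⟩
      · intro c' hc'
        rcases Multiset.mem_cons.1 hc' with h1 | h1
        · rw [h1]; exact hcL
        · exact hs c' h1
      · rw [Multiset.map_cons, Multiset.prod_cons, mul_assoc, ← hG]
        exact hW
    · push Not at h
      exact ⟨0, V, by simp, by simp, h⟩

theorem egp (V : ℤ[X]) (hV : V.Monic) (q m : ℕ) (hq : 2 ≤ q) (hm : m ≠ 0)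
    (hr : ∀ x : ℝ, aeval x V = 0 → x = -1 ∨ x = -(q : ℝ) ∨ (IsSquare q ∧ x = -√(q : ℝ))) :
    ¬ Summable (fun l : {l : ℕ // l.Prime ∧ m < l ∧ ¬ l ∣ q ∧
      (orderOf (q : ZMod l)).Coprime m.factorial ∧
      ∀ b : ZMod l, (V.map (Int.castRingHom (ZMod l))).eval b = 0 →
        b ^ orderOf (q : ZMod l) ≠ 1} => (1 : ℝ) / (l : ℕ)) := by
  obtain ⟨a, ha0, haq, hsqr⟩ : ∃ a : ℕ, a ≠ 0 ∧ (q = a ∨ q = a ^ 2) ∧
      (IsSquare q → √(q : ℝ) = (a : ℝ)) := by
    by_cases hsq : IsSquare q
    · obtain ⟨r, hr1⟩ := hsq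
      refine ⟨r, ?_, Or.inr (by rw [hr1, sq]), fun _ => ?_⟩
      · rintro rfl
        omega
      · rw [hr1, Nat.cast_mul]
        exact Real.sqrt_mul_self (Nat.cast_nonneg r)
    · exact ⟨q, by omega, Or.inl rfl, fun h => absurd h hsq⟩
  obtain ⟨S, G, hS, hVG, hG⟩ := split_off [1, q, a] V.natDegree V hV.ne_zero le_rfl
  have hG0 : G ≠ 0 := by
    rintro rfl
    exact hV.ne_zero (by rw [hVG, mul_zero])
  have hGr : ∀ x : ℝ, aeval x G ≠ 0 := by
    intro x hx
    have hVx : aeval x V = 0 := by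
      rw [hVG, map_mul, hx, mul_zero]
    have hint : ∀ c : ℕ, c ∈ [1, q, a] → x ≠ -(c : ℝ) := by
      intro c hc h
      apply hG c hc
      have h1 : aeval ((-(c : ℤ) : ℤ) : ℝ) G = 0 := by
        rw [h] at hx
        push_cast
        exact hx
      have h2 : ((G.eval (-(c : ℤ)) : ℤ) : ℝ) = 0 := by
        rw [← h1]
        have := aeval_algebraMap_apply_eq_algebraMap_eval (A := ℝ) (-(c : ℤ)) G
        simpa using this.symm
      exact_mod_cast h2
    rcases hr x hVx with h | h | ⟨hs, h⟩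
    · exact hint 1 (by simp) (by rw [h, Nat.cast_one])
    · exact hint q (by simp) h
    · exact hint a (by simp) (by rw [h, hsqr hs])
  have hN : 4 * m.factorial ≠ 0 := by
    have := Nat.factorial_ne_zero m
    omega
  have hc := ccf G hG0 hGr (4 * m.factorial) a hN ha0
  intro hs
  apply hc
  have key : ∀ l : ℕ, (l.Prime ∧ 4 * m.factorial ∣ l + 1 ∧ IsSquare (a : ZMod l) ∧ ¬ l ∣ a ∧
      ∀ b : ZMod l, (G.map (Int.castRingHom (ZMod l))).eval b ≠ 0) →
      (l.Prime ∧ m < l ∧ ¬ l ∣ q ∧
      (orderOf (q : ZMod l)).Coprime m.factorial ∧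
      ∀ b : ZMod l, (V.map (Int.castRingHom (ZMod l))).eval b = 0 →
        b ^ orderOf (q : ZMod l) ≠ 1) := by
    rintro l ⟨hl, hdv, hsq, hla, hb⟩
    have : Fact l.Prime := ⟨hl⟩
    obtain ⟨t, ht⟩ := hdv
    have hfac : m ≤ m.factorial := Nat.self_le_factorial m
    have hfp : 0 < m.factorial := Nat.factorial_pos m
    have ht0 : 0 < t := by
      rcases Nat.eq_zero_or_pos t with h | h
      · rw [h] at ht; omega
      · exact h
    have h4 : 4 * m.factorial ≤ l + 1 := by
      rw [ht]; exact Nat.le_mul_of_pos_right _ ht0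
    have hml : m < l := by omega
    have hl3 : 3 ≤ l := by omega
    have hlq : ¬ l ∣ q := by
      intro h
      rcases haq with h1 | h1
      · exact hla (h1 ▸ h)
      · rw [h1] at h
        exact hla (hl.dvd_of_dvd_pow h)
    -- the order
    have ha1 : (a : ZMod l) ≠ 0 := by
      rw [Ne, ZMod.natCast_eq_zero_iff]
      exact hla
    obtain ⟨r, hr'⟩ := hsq
    have hr0 : r ≠ 0 := by
      rintro rfl
      exact ha1 (by rw [hr', mul_zero])
    set s := 2 * m.factorial * t - 1 with hs'
    have hpos : 1 ≤ 2 * m.factorial * t := by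
      have : 0 < 2 * m.factorial * t := by positivity
      omega
    have hs1 : s + 1 = 2 * (m.factorial * t) := by
      rw [← mul_assoc]; omega
    have h2s : 2 * s = l - 1 := by
      have : l + 1 = 2 * (2 * m.factorial * t) := by rw [ht]; ring
      omega
    have has : (a : ZMod l) ^ s = 1 := by
      rw [hr', ← pow_two, ← pow_mul, h2s]
      exact ZMod.pow_card_sub_one_eq_one hr0
    have hqs : (q : ZMod l) ^ s = 1 := by
      rcases haq with h1 | h1
      · rw [h1]; exact has
      · rw [h1, Nat.cast_pow, ← pow_mul, mul_comm, pow_mul, has, one_pow]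
    have hks : orderOf (q : ZMod l) ∣ s := orderOf_dvd_of_pow_eq_one hqs
    have hcs : Nat.Coprime s (s + 1) := by
      rw [Nat.coprime_self_add_right]
      exact Nat.coprime_one_right s
    have hcs2 : Nat.Coprime s (2 * (m.factorial * t)) := hs1 ▸ hcs
    have hco : Nat.Coprime s m.factorial := by
      have : Nat.Coprime s (m.factorial * t) := Nat.Coprime.coprime_mul_left_right hcs2
      exact Nat.Coprime.coprime_mul_right_right this
    have hs2 : Nat.Coprime s 2 := Nat.Coprime.coprime_mul_right_right hcs2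
    have hk1 : (orderOf (q : ZMod l)).Coprime m.factorial := Nat.Coprime.coprime_dvd_left hks hco
    have hk2 : (orderOf (q : ZMod l)).Coprime 2 := Nat.Coprime.coprime_dvd_left hks hs2
    have hodd : Odd (orderOf (q : ZMod l)) := Nat.coprime_two_right.mp hk2
    have hqk : (q : ZMod l) ^ orderOf (q : ZMod l) = 1 := pow_orderOf_eq_one _
    have hak : (a : ZMod l) ^ orderOf (q : ZMod l) = 1 := by
      rcases haq with h1 | h1
      · rw [← h1]; exact hqk
      · apply orderOf_dvd_iff_pow_eq_one.1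
        have h2 : orderOf (a : ZMod l) ∣ 2 * orderOf (q : ZMod l) := by
          apply orderOf_dvd_of_pow_eq_one
          rw [pow_mul, ← Nat.cast_pow, ← h1]
          exact hqk
        have h3 : orderOf (a : ZMod l) ∣ s := orderOf_dvd_of_pow_eq_one has
        exact (Nat.Coprime.coprime_dvd_left h3 hs2).dvd_of_dvd_mul_left h2
    have hne : (-1 : ZMod l) ≠ 1 := by
      have : Fact (2 < l) := ⟨by omega⟩
      exact ZMod.neg_one_ne_one
    refine ⟨hl, hml, hlq, hk1, ?_⟩
    intro b hVb
    have hGb := hb b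
    rw [hVG, Polynomial.map_mul, eval_mul, mul_eq_zero] at hVb
    have hVb1 := hVb.resolve_right hGb
    rw [Polynomial.map_multiset_prod, eval_multiset_prod, Multiset.prod_eq_zero_iff,
      Multiset.map_map, Multiset.map_map, Multiset.mem_map] at hVb1
    obtain ⟨c, hcS, hc0⟩ := hVb1
    have hb1 : b = -(c : ZMod l) := by
      simp only [Function.comp_apply, Polynomial.map_sub, Polynomial.map_X, Polynomial.map_C,
        eval_sub, eval_X, eval_C] at hc0
      rw [sub_eq_zero] at hc0
      rw [hc0]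
      simp
    have hck : (c : ZMod l) ^ orderOf (q : ZMod l) = 1 := by
      have hcL := hS c hcS
      simp only [List.mem_cons, List.not_mem_nil, or_false] at hcL
      rcases hcL with h | h | h
      · rw [h, Nat.cast_one, one_pow]
      · rw [h]; exact hqk
      · rw [h]; exact hak
    rw [hb1, hodd.neg_pow, hck]
    exact hne
  have := hs.comp_injective (i := fun l : {l : ℕ // l.Prime ∧ 4 * m.factorial ∣ l + 1 ∧
      IsSquare (a : ZMod l) ∧ ¬ l ∣ a ∧
      ∀ b : ZMod l, (G.map (Int.castRingHom (ZMod l))).eval b ≠ 0} =>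
        (⟨l.1, key l.1 l.2⟩ : {l : ℕ // l.Prime ∧ m < l ∧ ¬ l ∣ q ∧
      (orderOf (q : ZMod l)).Coprime m.factorial ∧
      ∀ b : ZMod l, (V.map (Int.castRingHom (ZMod l))).eval b = 0 →
        b ^ orderOf (q : ZMod l) ≠ 1})) (by
      intro a b hab
      apply Subtype.ext
      have h' := Subtype.ext_iff.mp hab
      exact h')
  exact this

end H13.TA
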