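import Pool.Agent.H63.MA.LBd

/-!
# TA-EINV: primes of degree one in a quadratic extension

`M/K` quadratic with nontrivial automorphism `c`, `θ ∈ 𝓞 M` with `c θ ≠ θ` (some element is not fixed; multiply by a
denominator). `T` = the primes `v` of `K` below the finitely many primes `w` of `M` containing `θ - c θ`. Let `v ∉ T`,
`nm v = l` prime (a rational prime), `w` above `v` (exists). There is an arithmetic Frobenius at `w` in the group `{1, c}`
of automorphisms of `𝓞 M` over `𝓞 K` (Mathlib: `AlgHom.IsArithFrobAt`, `IsArithFrobAt.exists..` for the invariants of a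
finite group): `σ x ≡ x ^ l` modulo `w` for all `x`. If `σ = c`: second alternative. If `σ = 1`: `x ^ l ≡ x` modulo `w` for
all `x`, so the field `𝓞 M / w` has at most `l` elements, `nm w = l = nm v`; let `w₂ = c w`, it is above `v` and
`nm w₂ = nm w`; if `w₂ = w`, then `c` acts on `𝓞 M / w = F_l` trivially, so `θ - c θ ∈ w`: excluded. So `w₁ = w ≠ w₂`.
-/

set_option autoImplicit false

open Polynomial NumberField IsDedekindDomain
open H63.MA (Pl nm PZ Over)

noncomputable section

namespace H13.TA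

private theorem einv_mem {K M : Type} [Field K] [NumberField K] [Field M] [NumberField M]
    [Algebra K M] (h2 : Module.finrank K M = 2) (c : M ≃ₐ[K] M) (hc : c ≠ 1) :
    (∀ x, c (c x) = x) ∧ ∀ x : M, c x = x → x ∈ Set.range (algebraMap K M) := by
  have hfd : FiniteDimensional K M := FiniteDimensional.of_finrank_pos (by rw [h2]; exact two_pos)
  have hle : Nat.card (M ≃ₐ[K] M) ≤ 2 := by
    have := AlgEquiv.card_le (F := K) (K := M)
    rw [h2] at this
    rwa [Nat.card_eq_fintype_card]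
  have hge : 1 < Nat.card (M ≃ₐ[K] M) := by
    have : Nontrivial (M ≃ₐ[K] M) := ⟨⟨c, 1, hc⟩⟩
    exact Finite.one_lt_card
  have hcard : Nat.card (M ≃ₐ[K] M) = 2 := by omega
  have hgal : IsGalois K M := IsGalois.of_card_aut_eq_finrank K M (by rw [hcard, h2])
  have hall : ∀ f : M ≃ₐ[K] M, f ≠ 1 → f = c := by
    intro f hf
    rw [Nat.card_eq_two_iff' (1 : M ≃ₐ[K] M)] at hcard
    obtain ⟨y, _, hu⟩ := hcard
    rw [hu f hf, hu c hc]
  refine ⟨?_, ?_⟩
  · intro x
    have h1 : c * c = 1 := by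
      by_contra hne
      have := hall (c * c) hne
      exact hc (mul_eq_left.mp this)
    have := DFunLike.congr_fun h1 x
    exact this
  · intro x hx
    rw [IsGalois.mem_range_algebraMap_iff_fixed]
    intro f
    by_cases hf : f = 1
    · rw [hf]; rfl
    · rw [hall f hf]; exact hx

/-- `c` on the integers -/
private def cI {K M : Type} [Field K] [NumberField K] [Field M] [NumberField M]
    [Algebra K M] (c : M ≃ₐ[K] M) : 𝓞 M ≃+* 𝓞 M := RingOfIntegers.mapRingEquiv c.toRingEquiv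

private theorem cI_apply {K M : Type} [Field K] [NumberField K] [Field M] [NumberField M]
    [Algebra K M] (c : M ≃ₐ[K] M) (x : 𝓞 M) : ((cI c x : 𝓞 M) : M) = c (x : M) := rfl

private theorem oext' {M : Type} [Field M] [NumberField M] {x y : 𝓞 M}
    (h : algebraMap (𝓞 M) M x = algebraMap (𝓞 M) M y) : x = y := RingOfIntegers.ext h

private theorem cI_alg {K M : Type} [Field K] [NumberField K] [Field M] [NumberField M]
    [Algebra K M] (c : M ≃ₐ[K] M) (x : 𝓞 K) :
    cI c (algebraMap (𝓞 K) (𝓞 M) x) = algebraMap (𝓞 K) (𝓞 M) x := by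
  apply oext'
  change c (algebraMap K M (x : K)) = algebraMap K M (x : K)
  exact c.commutes _

private theorem einv_down {K M : Type} [Field K] [NumberField K] [Field M] [NumberField M]
    [Algebra K M] (h2 : Module.finrank K M = 2) (c : M ≃ₐ[K] M) (hc : c ≠ 1) (x : 𝓞 M)
    (hx : cI c x = x) : ∃ t : 𝓞 K, algebraMap (𝓞 K) (𝓞 M) t = x := by
  have h1 : c (x : M) = (x : M) := by
    rw [← cI_apply, hx]
  obtain ⟨t, ht⟩ := (einv_mem h2 c hc).2 (x : M) h1
  have hti : IsIntegral ℤ t := by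
    have : IsIntegral ℤ (algebraMap K M t) := by
      rw [ht]; exact x.2
    exact (isIntegral_algebraMap_iff (algebraMap K M).injective).mp this
  refine ⟨⟨t, hti⟩, ?_⟩
  apply oext'
  exact ht

private theorem einv_pow {K : Type} [Field K] [NumberField K] (v : Pl K) (t : 𝓞 K) :
    t ^ nm v - t ∈ v.asIdeal := by
  have := v.isMaximal
  letI := Ideal.Quotient.field v.asIdeal
  have : Finite (𝓞 K ⧸ v.asIdeal) := Ideal.finiteQuotientOfFreeOfNeBot v.asIdeal v.ne_bot
  letI := Fintype.ofFinite (𝓞 K ⧸ v.asIdeal)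
  have hcard : Fintype.card (𝓞 K ⧸ v.asIdeal) = nm v := by
    unfold nm
    rw [Ideal.absNorm_apply, Submodule.cardQuot_apply, Nat.card_eq_fintype_card]
  have h1 := FiniteField.pow_card (Ideal.Quotient.mk v.asIdeal t)
  rw [hcard] at h1
  rw [← Ideal.Quotient.eq_zero_iff_mem, map_sub, map_pow, h1, sub_self]

theorem inert_or_split {K M : Type} [Field K] [NumberField K] [Field M] [NumberField M]
    [Algebra K M] (h2 : Module.finrank K M = 2) (c : M ≃ₐ[K] M) (hc : c ≠ 1) :
    ∃ T : Set (Pl K), T.Finite ∧ ∀ v ∉ T, (nm v).Prime →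
      (∃ w₁ w₂ : Pl M, w₁ ≠ w₂ ∧ Over w₁ v ∧ Over w₂ v ∧ nm w₁ = nm v ∧ nm w₂ = nm v) ∨
      (∃ w : Pl M, Over w v ∧ ∀ x : 𝓞 M, ∃ z ∈ w.asIdeal, (z : M) = c (x : M) - (x : M) ^ nm v) := by
  classical
  obtain ⟨hcc, hfix⟩ := einv_mem h2 c hc
  have hcI2 : ∀ x, cI c (cI c x) = x := by
    intro x
    apply oext'
    exact hcc (x : M)
  -- an integer that is not fixed
  obtain ⟨θ, hθ⟩ : ∃ θ : 𝓞 M, cI c θ ≠ θ := by
    by_contra hall
    push Not at hall
    apply hc
    ext x
    obtain ⟨a, b, hb, rfl⟩ := IsFractionRing.div_surjective (𝓞 M) x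
    have ha' : c (algebraMap (𝓞 M) M a) = algebraMap (𝓞 M) M a := by
      have := congrArg (algebraMap (𝓞 M) M) (hall a)
      exact this
    have hb' : c (algebraMap (𝓞 M) M b) = algebraMap (𝓞 M) M b := by
      have := congrArg (algebraMap (𝓞 M) M) (hall b)
      exact this
    rw [map_div₀, ha', hb']
    rfl
  have hθ0 : θ - cI c θ ≠ 0 := sub_ne_zero.mpr (Ne.symm hθ)
  have hfin : {w : Pl M | θ - cI c θ ∈ w.asIdeal}.Finite := by
    have h1 : Ideal.span {θ - cI c θ} ≠ 0 := by
      rw [Ne, Ideal.zero_eq_bot, Ideal.span_singleton_eq_bot]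
      exact hθ0
    refine (Ideal.finite_factors h1).subset ?_
    intro w hw
    change w.asIdeal ∣ _
    rw [Ideal.dvd_iff_le]
    exact (Ideal.span_singleton_le_iff_mem _).2 hw
  refine ⟨(fun w : Pl M => w.under (𝓞 K)) '' {w : Pl M | θ - cI c θ ∈ w.asIdeal},
    hfin.image _, ?_⟩
  intro v hv hl
  set l := nm v with hlv
  have hlF : Fact l.Prime := ⟨hl⟩
  obtain ⟨w, hw⟩ : ∃ w : Pl M, Over w v := by
    obtain ⟨Q, hQ, hQv⟩ := Ideal.exists_maximal_ideal_liesOver_of_isIntegral (S := 𝓞 M) v.asIdeal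
    exact ⟨⟨Q, hQ.isPrime, Ideal.ne_bot_of_liesOver_of_ne_bot v.ne_bot Q⟩, hQv.over.symm⟩
  have hwmem : ∀ t : 𝓞 K, t ∈ v.asIdeal → algebraMap (𝓞 K) (𝓞 M) t ∈ w.asIdeal := by
    intro t ht
    have : t ∈ w.asIdeal.comap (algebraMap (𝓞 K) (𝓞 M)) := by
      rw [show w.asIdeal.comap (algebraMap (𝓞 K) (𝓞 M)) = v.asIdeal from hw]
      exact ht
    exact this
  have hθw : θ - cI c θ ∉ w.asIdeal := by
    intro h
    apply hv
    refine ⟨w, h, ?_⟩
    exact HeightOneSpectrum.ext hw
  have hlw : (l : 𝓞 M) ∈ w.asIdeal := by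
    have h1 : (l : 𝓞 K) ∈ v.asIdeal := Ideal.absNorm_mem v.asIdeal
    have := hwmem _ h1
    simpa using this
  have hwp := w.isPrime
  have hwm := w.isMaximal
  -- the quotient
  letI := Ideal.Quotient.field w.asIdeal
  have : CharP (𝓞 M ⧸ w.asIdeal) l := by
    rw [CharP.charP_iff_prime_eq_zero hl]
    rw [← map_natCast (Ideal.Quotient.mk w.asIdeal), Ideal.Quotient.eq_zero_iff_mem]
    exact hlw
  set π := Ideal.Quotient.mk w.asIdeal with hπ
  have hdich : ∀ x : 𝓞 M, x ^ l - x ∈ w.asIdeal ∨ x ^ l - cI c x ∈ w.asIdeal := by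
    intro x
    obtain ⟨t, ht⟩ := einv_down h2 c hc (x + cI c x) (by rw [map_add, hcI2, add_comm])
    obtain ⟨n, hn⟩ := einv_down h2 c hc (x * cI c x) (by rw [map_mul, hcI2, mul_comm])
    have h1 : π (algebraMap (𝓞 K) (𝓞 M) t) ^ l = π (algebraMap (𝓞 K) (𝓞 M) t) := by
      have := hwmem _ (einv_pow v t)
      rw [← Ideal.Quotient.eq_zero_iff_mem, map_sub, map_sub, map_pow, map_pow, sub_eq_zero] at this
      exact this
    have h3 : π (algebraMap (𝓞 K) (𝓞 M) n) ^ l = π (algebraMap (𝓞 K) (𝓞 M) n) := by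
      have := hwmem _ (einv_pow v n)
      rw [← Ideal.Quotient.eq_zero_iff_mem, map_sub, map_sub, map_pow, map_pow, sub_eq_zero] at this
      exact this
    rw [ht, map_add] at h1
    rw [hn, map_mul] at h3
    have h4 : (π x ^ l - π x) * (π x ^ l - π (cI c x)) = 0 := by
      have h5 : (π x ^ 2 - (π x + π (cI c x)) * π x + π x * π (cI c x)) ^ l = 0 := by
        have : π x ^ 2 - (π x + π (cI c x)) * π x + π x * π (cI c x) = 0 := by ring
        rw [this, zero_pow hl.ne_zero]
      rw [add_pow_char, sub_pow_char, mul_pow (π x + π (cI c x)), h1, h3] at h5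
      rw [← h5]
      ring
    rcases mul_eq_zero.mp h4 with h | h
    · left
      rw [← Ideal.Quotient.eq_zero_iff_mem, map_sub, map_pow]
      exact h
    · right
      rw [← Ideal.Quotient.eq_zero_iff_mem, map_sub, map_pow]
      exact h
  -- additivity
  have haddl : ∀ x y : 𝓞 M, (x + y) ^ l - (x ^ l + y ^ l) ∈ w.asIdeal := by
    intro x y
    rw [← Ideal.Quotient.eq_zero_iff_mem, map_sub, map_pow, map_add, map_add, map_pow, map_pow,
      add_pow_char, sub_self]
  by_cases hB : ∀ x : 𝓞 M, x ^ l - cI c x ∈ w.asIdeal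
  · right
    refine ⟨w, hw, fun x => ⟨cI c x - x ^ l, ?_, ?_⟩⟩
    · have := w.asIdeal.neg_mem (hB x)
      rwa [neg_sub] at this
    · have h1 : algebraMap (𝓞 M) M (cI c x - x ^ l) =
          algebraMap (𝓞 M) M (cI c x) - (algebraMap (𝓞 M) M x) ^ l := by
        rw [map_sub, map_pow]
      exact h1
  · left
    push Not at hB
    obtain ⟨b, hb⟩ := hB
    have hA : ∀ x : 𝓞 M, x ^ l - x ∈ w.asIdeal := by
      by_contra hA
      push Not at hA
      obtain ⟨a, ha⟩ := hA
      have ha' := (hdich a).resolve_left ha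
      have hb' := (hdich b).resolve_right hb
      rcases hdich (a + b) with h | h
      · apply ha
        have : a ^ l - a = ((a + b) ^ l - (a + b)) - (((a + b) ^ l - (a ^ l + b ^ l))) -
            (b ^ l - b) := by ring
        rw [this]
        exact w.asIdeal.sub_mem (w.asIdeal.sub_mem h (haddl a b)) hb'
      · apply hb
        have : b ^ l - cI c b = ((a + b) ^ l - cI c (a + b)) -
            (((a + b) ^ l - (a ^ l + b ^ l))) - (a ^ l - cI c a) := by
          rw [map_add]; ring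
        rw [this]
        exact w.asIdeal.sub_mem (w.asIdeal.sub_mem h (haddl a b)) ha'
    have : Finite (𝓞 M ⧸ w.asIdeal) := Ideal.finiteQuotientOfFreeOfNeBot w.asIdeal w.ne_bot
    letI := Fintype.ofFinite (𝓞 M ⧸ w.asIdeal)
    have hcard : Fintype.card (𝓞 M ⧸ w.asIdeal) = nm w := by
      unfold nm
      rw [Ideal.absNorm_apply, Submodule.cardQuot_apply, Nat.card_eq_fintype_card]
    have hle : Fintype.card (𝓞 M ⧸ w.asIdeal) ≤ l := by
      have hne : (X ^ l - X : (𝓞 M ⧸ w.asIdeal)[X]) ≠ 0 :=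
        FiniteField.X_pow_card_sub_X_ne_zero _ hl.one_lt
      have h1 : (Finset.univ : Finset (𝓞 M ⧸ w.asIdeal)).card ≤
          (X ^ l - X : (𝓞 M ⧸ w.asIdeal)[X]).natDegree := by
        apply card_le_degree_of_subset_roots
        intro x _
        rw [mem_roots hne, IsRoot.def, eval_sub, eval_pow, eval_X]
        obtain ⟨x, rfl⟩ := Ideal.Quotient.mk_surjective x
        rw [← map_pow, ← map_sub, Ideal.Quotient.eq_zero_iff_mem]
        exact hA x
      rw [FiniteField.X_pow_card_sub_X_natDegree_eq _ hl.one_lt] at h1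
      exact h1
    have hnmw : nm w = l := by
      obtain ⟨f, hf, hnf⟩ := H63.MA.pzb_nm_pow hl (v := w) hlw
      rw [hcard, hnf] at hle
      have h1 : l ^ f ≤ l ^ 1 := by rwa [pow_one]
      have h3 : f ≤ 1 := (Nat.pow_le_pow_iff_right hl.one_lt).1 h1
      have h4 : f = 1 := le_antisymm h3 hf
      rw [hnf, h4, pow_one]
    -- the conjugate prime
    have hcbot : w.asIdeal.comap (cI c : 𝓞 M →+* 𝓞 M) ≠ ⊥ := by
      intro h
      apply w.ne_bot
      rw [eq_bot_iff]
      intro y hy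
      have : (cI c).symm y ∈ w.asIdeal.comap (cI c : 𝓞 M →+* 𝓞 M) := by
        change cI c ((cI c).symm y) ∈ w.asIdeal
        rw [RingEquiv.apply_symm_apply]
        exact hy
      rw [h, Submodule.mem_bot] at this
      rw [Submodule.mem_bot]
      exact (map_eq_zero_iff _ (cI c).symm.injective).mp this
    let w₂ : Pl M := ⟨w.asIdeal.comap (cI c : 𝓞 M →+* 𝓞 M), inferInstance, hcbot⟩
    have hw2 : w₂.asIdeal = w.asIdeal.comap (cI c : 𝓞 M →+* 𝓞 M) := rfl
    have hnm2 : nm w₂ = nm w := by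
      unfold nm
      rw [Ideal.absNorm_apply, Submodule.cardQuot_apply, Ideal.absNorm_apply,
        Submodule.cardQuot_apply]
      apply Nat.card_congr
      refine (Ideal.quotientEquiv _ _ (cI c) ?_).toEquiv
      rw [hw2]
      exact (Ideal.map_comap_of_surjective _ (cI c).surjective _).symm
    refine ⟨w, w₂, ?_, hw, ?_, hnmw, hnm2.trans hnmw⟩
    · intro heq
      apply hθw
      have hcl : Fintype.card (𝓞 M ⧸ w.asIdeal) = l := by rw [hcard, hnmw]
      obtain ⟨m, hm⟩ := (ZMod.castHom_bijective (𝓞 M ⧸ w.asIdeal) hcl).2 (π θ)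
      have hm2 : θ - (m.val : 𝓞 M) ∈ w.asIdeal := by
        rw [← Ideal.Quotient.eq_zero_iff_mem, map_sub, map_natCast, ← hπ, ← hm, sub_eq_zero]
        conv_lhs => rw [← ZMod.natCast_zmod_val m]
        rw [map_natCast]
      have hm3 : cI c (θ - (m.val : 𝓞 M)) ∈ w.asIdeal := by
        have : θ - (m.val : 𝓞 M) ∈ w₂.asIdeal := by
          rw [← heq]; exact hm2
        exact this
      have hm4 : θ - cI c θ = (θ - (m.val : 𝓞 M)) - cI c (θ - (m.val : 𝓞 M)) := by
        rw [map_sub, map_natCast]; ring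
      rw [hm4]
      exact w.asIdeal.sub_mem hm2 hm3
    · change (w.asIdeal.comap (cI c : 𝓞 M →+* 𝓞 M)).comap (algebraMap (𝓞 K) (𝓞 M)) = v.asIdeal
      rw [Ideal.comap_comap]
      have : (cI c : 𝓞 M →+* 𝓞 M).comp (algebraMap (𝓞 K) (𝓞 M)) = algebraMap (𝓞 K) (𝓞 M) := by
        ext x
        have := cI_alg c x
        exact congrArg (algebraMap (𝓞 M) M) this
      rw [this]
      exact hw

end H13.TA
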