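import Pool.Agent.H13.TA.Bas

/-!
# TA-IDG: the degree of an ideal

* `I ≠ ⊥` contains `a ≠ 0` and its norm `N a ∈ F[t]`, `≠ 0` (the norm of an element is a multiple of it), so `O/I` is a
  quotient of `O/(N a)`, finite over `F`.
* `ideg_span`: Mathlib `finrank_quotient_span_eq_natDegree_norm` with the power basis of `O` over `F[t]`.
* `card_quot`: number of elements of a finite dimensional vector space.
* `ideg_zero`: a vector space of dimension zero is zero.
-/

set_option autoImplicit false

open Polynomial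

noncomputable section

namespace H13.TA

variable {F : Type} [Field F] {f : F[X][X]}

theorem ideg_fin (hf : f.Monic) [IsDomain (AdjoinRoot f)] {I : Ideal (AdjoinRoot f)} (hI : I ≠ ⊥) :
    Module.Finite F (AdjoinRoot f ⧸ I) :=
  Module.Finite.equiv (Ideal.quotientEquivDirectSum F (AdjoinRoot.powerBasis' hf).basis hI).symm

theorem ideg_span (hf : f.Monic) [IsDomain (AdjoinRoot f)] {a : AdjoinRoot f} (ha : a ≠ 0) :
    ideg f (Ideal.span {a}) = dg f a :=
  finrank_quotient_span_eq_natDegree_norm (AdjoinRoot.powerBasis' hf).basis ha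

theorem ideg_zero (hf : f.Monic) [IsDomain (AdjoinRoot f)] {I : Ideal (AdjoinRoot f)}
    (hI : I ≠ ⊥) : ideg f I = 0 ↔ I = ⊤ := by
  have h1 := ideg_fin hf hI
  unfold ideg
  rw [Module.finrank_zero_iff, Ideal.Quotient.subsingleton_iff]

theorem ideg_anti (hf : f.Monic) [IsDomain (AdjoinRoot f)] {I J : Ideal (AdjoinRoot f)}
    (hI : I ≠ ⊥) (h : I ≤ J) : ideg f J ≤ ideg f I := by
  have h1 := ideg_fin hf hI
  unfold ideg
  have h2 : LinearMap.range (Ideal.Quotient.factorₐ F h).toLinearMap = ⊤ :=
    LinearMap.range_eq_top.2 (Ideal.Quotient.factor_surjective h)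
  have h3 := LinearMap.finrank_range_le (Ideal.Quotient.factorₐ F h).toLinearMap
  rwa [h2, finrank_top] at h3

theorem card_quot [Finite F] (hf : f.Monic) [IsDomain (AdjoinRoot f)] {I : Ideal (AdjoinRoot f)}
    (hI : I ≠ ⊥) :
    Finite (AdjoinRoot f ⧸ I) ∧ Nat.card (AdjoinRoot f ⧸ I) = Nat.card F ^ ideg f I := by
  have h1 := ideg_fin hf hI
  exact ⟨Module.finite_of_finite F, Module.natCard_eq_pow_finrank⟩

end H13.TA
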