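import Mathlib

/-!
# TA-RHR: real roots

`m q ^ r [m ∣ r] = ∑_(ζ ^ m = 1) (q ζ) ^ r`. So for all `r ≥ 1` a linear relation between the sequences `r ↦ γ ^ r` for
the distinct nonzero complex numbers `γ` among: `S` (`0 ∉ S` by `hS`, as `0` is none of the four numbers), the roots of `V`
(nonzero by `V0`), and the `q ζ`. These sequences (`r ≥ 1`) are linearly independent (Vandermonde, or
`linearIndependent_monoidHom` for the characters `r ↦ γ ^ r` of the monoid `Multiplicative ℕ`, then shift by one: divide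
the coefficients by `γ`). Let `x` be a real root of `V`, `x ∉ S`, different from `-q`; also `x ≠ q` by `Vq`. `x` is no `q ζ` (real ones are `± q`), so
its total coefficient is the multiplicity of `x` in `V`, not zero: contradiction (`rhr_core`). If `q` is no square and `-√q` is
a root of `V`, then `√q` is a root (`V ∈ ℤ[X]`), but `√q ∉ S`.
-/

set_option autoImplicit false

open Polynomial

noncomputable section

namespace H13.TA

private lemma rhr_indep (T : Finset ℂ) (hT : (0 : ℂ) ∉ T) (c : ℂ → ℂ)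
    (h : ∀ r : ℕ, r ≠ 0 → ∑ γ ∈ T, c γ * γ ^ r = 0) : ∀ γ ∈ T, c γ = 0 := by
  have hl := (linearIndependent_monoidHom (Multiplicative ℕ) ℂ).comp (fun γ : ℂ => powersHom ℂ γ)
    (powersHom ℂ).injective
  rw [linearIndependent_iff'] at hl
  intro γ hγ
  have h2 := hl T (fun γ => c γ * γ) ?_ γ hγ
  · have h3 : γ ≠ 0 := fun h => hT (h ▸ hγ)
    exact (mul_eq_zero.1 h2).resolve_right h3
  · funext r
    have := h (Multiplicative.toAdd r + 1) (by omega)
    simp only [Finset.sum_apply, Pi.smul_apply, Function.comp, smul_eq_mul, Pi.zero_apply, powersHom_apply]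
    rw [← this]
    refine Finset.sum_congr rfl fun γ _ => ?_
    ring

private lemma rhr_ms (T : Finset ℂ) (Q : Multiset ℂ) (hQ : Q.toFinset ⊆ T) (r : ℕ) :
    (Q.map fun ρ => ρ ^ r).sum = ∑ γ ∈ T, (Q.count γ : ℂ) * γ ^ r := by
  classical
  rw [Finset.sum_multiset_map_count]
  refine Finset.sum_subset_zero_on_sdiff hQ ?_ ?_
  · intro γ hγ
    rw [Finset.mem_sdiff, Multiset.mem_toFinset] at hγ
    rw [Multiset.count_eq_zero_of_notMem hγ.2]
    simp
  · intro γ _
    rw [nsmul_eq_mul]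

private lemma rhr_roots (m : ℕ) (hm : m ≠ 0) : ∃ ζ : ℂ, ζ ^ m = 1 ∧ ∀ r : ℕ,
    ∑ i ∈ Finset.range m, (ζ ^ i) ^ r = if m ∣ r then (m : ℂ) else 0 := by
  have hp := Complex.isPrimitiveRoot_exp m hm
  set ζ := Complex.exp (2 * Real.pi * Complex.I / m) with hζ
  refine ⟨ζ, hp.pow_eq_one, fun r => ?_⟩
  have e1 : ∑ i ∈ Finset.range m, (ζ ^ i) ^ r = ∑ i ∈ Finset.range m, (ζ ^ r) ^ i :=
    Finset.sum_congr rfl fun i _ => by rw [← pow_mul, ← pow_mul, mul_comm]
  rw [e1]
  split_ifs with h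
  · rw [hp.pow_eq_one_iff_dvd r |>.2 h]
    simp
  · have h1 : ζ ^ r ≠ 1 := fun h2 => h ((hp.pow_eq_one_iff_dvd r).1 h2)
    have h2 := mul_geom_sum (ζ ^ r) m
    rw [← pow_mul, mul_comm r m, pow_mul, hp.pow_eq_one, one_pow, sub_self] at h2
    exact (mul_eq_zero.1 h2).resolve_left (sub_ne_zero.2 h1)

private theorem rhr_core (q m : ℕ) (hq : 2 ≤ q) (hm : m ≠ 0) (V : ℤ[X]) (hV : V.Monic) (V0 : V.eval 0 ≠ 0)
    (Vq : V.eval (q : ℤ) ≠ 0) (S : Finset ℂ) (μ : ℂ → ℤ) (h0S : (0 : ℂ) ∉ S)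
    (h : ∀ r : ℕ, r ≠ 0 → ∑ γ ∈ S, (μ γ : ℂ) * γ ^ r =
      (if m ∣ r then (m : ℂ) * (q : ℂ) ^ r else 0) - ((V.aroots ℂ).map fun ρ => ρ ^ r).sum)
    (x : ℝ) (hx : aeval x V = 0) (hxS : (x : ℂ) ∉ S) : x = -(q : ℝ) := by
  classical
  obtain ⟨ζ, hζ, hsum⟩ := rhr_roots m hm
  have hq0 : (q : ℂ) ≠ 0 := by
    have : q ≠ 0 := by omega
    exact_mod_cast this
  have hζ0 : ζ ≠ 0 := by
    rintro rfl
    rw [zero_pow hm] at hζ
    exact zero_ne_one hζ
  have hev : ∀ n : ℤ, aeval (n : ℂ) V = ((V.eval n : ℤ) : ℂ) := by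
    intro n
    rw [aeval_def, eval₂_at_intCast]
    simp
  -- the multiset of the numbers `q ζ ^ i`
  set Z : Multiset ℂ := (Multiset.range m).map (fun i => (q : ℂ) * ζ ^ i) with hZ
  have hZsum : ∀ r : ℕ, (Z.map fun ρ => ρ ^ r).sum = if m ∣ r then (m : ℂ) * (q : ℂ) ^ r else 0 := by
    intro r
    rw [hZ, Multiset.map_map]
    have e1 : (Multiset.map ((fun ρ : ℂ => ρ ^ r) ∘ fun i => (q : ℂ) * ζ ^ i) (Multiset.range m)).sum =
        ∑ i ∈ Finset.range m, ((q : ℂ) * ζ ^ i) ^ r := rfl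
    rw [e1]
    simp only [mul_pow]
    rw [← Finset.mul_sum, hsum r]
    split_ifs
    · ring
    · ring
  set T : Finset ℂ := S ∪ Z.toFinset ∪ (V.aroots ℂ).toFinset with hT
  have hV0 : V ≠ 0 := hV.ne_zero
  have memV : ∀ z : ℂ, z ∈ V.aroots ℂ ↔ aeval z V = 0 := by
    intro z
    rw [mem_aroots]
    exact ⟨fun h => h.2, fun h => ⟨hV0, h⟩⟩
  have h0T : (0 : ℂ) ∉ T := by
    intro h0
    rw [hT, Finset.mem_union, Finset.mem_union, Multiset.mem_toFinset, Multiset.mem_toFinset] at h0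
    rcases h0 with (h0 | h0) | h0
    · exact h0S h0
    · rw [hZ, Multiset.mem_map] at h0
      obtain ⟨i, _, hi⟩ := h0
      exact mul_ne_zero hq0 (pow_ne_zero _ hζ0) hi
    · rw [memV] at h0
      have := hev 0
      rw [Int.cast_zero, h0] at this
      exact V0 (by exact_mod_cast this.symm)
  have key := rhr_indep T h0T
    (fun γ => (if γ ∈ S then (μ γ : ℂ) else 0) - (Z.count γ : ℂ) + ((V.aroots ℂ).count γ : ℂ)) (by
      intro r hr
      have h2 := h r hr
      rw [← hZsum r, rhr_ms T Z (by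
        rw [hT]
        exact fun z hz => Finset.mem_union_left _ (Finset.mem_union_right _ hz)) r,
        rhr_ms T (V.aroots ℂ) (by
        rw [hT]
        exact fun z hz => Finset.mem_union_right _ hz) r] at h2
      have h3 : ∑ γ ∈ S, (μ γ : ℂ) * γ ^ r = ∑ γ ∈ T, (if γ ∈ S then (μ γ : ℂ) else 0) * γ ^ r := by
        refine Finset.sum_subset_zero_on_sdiff (by
          rw [hT]
          exact fun z hz => Finset.mem_union_left _ (Finset.mem_union_left _ hz)) ?_ ?_
        · intro γ hγ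
          rw [Finset.mem_sdiff] at hγ
          rw [if_neg hγ.2, zero_mul]
        · intro γ hγ
          rw [if_pos hγ]
      rw [h3] at h2
      simp only [add_mul, sub_mul, Finset.sum_add_distrib, Finset.sum_sub_distrib]
      rw [h2]
      ring)
  by_contra hcon
  have hx' : aeval (x : ℂ) V = 0 := by
    have := aeval_algebraMap_apply ℂ x V
    rw [hx, map_zero] at this
    exact this
  have hxV : (x : ℂ) ∈ V.aroots ℂ := (memV _).2 hx'
  have hxT : (x : ℂ) ∈ T := by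
    rw [hT, Finset.mem_union, Multiset.mem_toFinset]
    exact Or.inr hxV
  have hxq : x ≠ (q : ℝ) := by
    rintro rfl
    have := hev (q : ℤ)
    rw [Int.cast_natCast] at this
    rw [Complex.ofReal_natCast] at hx'
    rw [hx'] at this
    exact Vq (by exact_mod_cast this.symm)
  have hxZ : (x : ℂ) ∉ Z := by
    intro hxZ
    rw [hZ, Multiset.mem_map] at hxZ
    obtain ⟨i, _, hi⟩ := hxZ
    have h1 : ‖(x : ℂ)‖ = q := by
      rw [← hi, norm_mul, norm_pow, Complex.norm_eq_one_of_pow_eq_one hζ hm, one_pow, mul_one]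
      simp
    rw [Complex.norm_real, Real.norm_eq_abs] at h1
    rcases eq_or_eq_neg_of_abs_eq h1 with h | h
    · exact hxq h
    · exact hcon h
  have h4 := key _ hxT
  rw [if_neg hxS, Multiset.count_eq_zero_of_notMem hxZ, Nat.cast_zero, sub_zero, zero_add, Nat.cast_eq_zero,
    Multiset.count_eq_zero] at h4
  exact h4 hxV

private theorem rhr_conj (q : ℕ) (hq : ¬ IsSquare q) (V : ℤ[X]) (h : aeval (-√(q : ℝ)) V = 0) :
    aeval (√(q : ℝ)) V = 0 := by
  have hirr : Irrational (√(q : ℝ)) := irrational_sqrt_natCast_iff.2 hq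
  have hmon : (X ^ 2 - C (q : ℤ) : ℤ[X]).Monic := monic_X_pow_sub_C _ two_ne_zero
  have hsq : (√(q : ℝ)) ^ 2 = (q : ℝ) := Real.sq_sqrt (Nat.cast_nonneg q)
  set R := V %ₘ (X ^ 2 - C (q : ℤ)) with hR
  have hdeg : R.natDegree < 2 := by
    have h1 := natDegree_modByMonic_lt V hmon (by
      intro h1
      have h2 : (X ^ 2 - C (q : ℤ) : ℤ[X]).natDegree = 2 := natDegree_X_pow_sub_C
      rw [h1, natDegree_one] at h2
      omega)
    rwa [natDegree_X_pow_sub_C] at h1
  have hev : ∀ y : ℝ, y ^ 2 = (q : ℝ) → aeval y V = (R.coeff 1 : ℝ) * y + (R.coeff 0 : ℝ) := by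
    intro y hy
    have h1 : V = R + (X ^ 2 - C (q : ℤ)) * (V /ₘ (X ^ 2 - C (q : ℤ))) :=
      (modByMonic_add_div V (X ^ 2 - C (q : ℤ))).symm
    have h2 : aeval y (X ^ 2 - C (q : ℤ) : ℤ[X]) = 0 := by
      simp [hy]
    have h3 : R = C (R.coeff 1) * X + C (R.coeff 0) := eq_X_add_C_of_natDegree_le_one (by omega)
    have h4 : aeval y R = (R.coeff 1 : ℝ) * y + (R.coeff 0 : ℝ) := by
      conv_lhs => rw [h3]
      simp
    rw [h1, map_add, map_mul, h2, zero_mul, add_zero, h4]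
  have h1 := hev (-√(q : ℝ)) (by rw [neg_sq, hsq])
  rw [h] at h1
  have h2 : R.coeff 1 = 0 := by
    by_contra h3
    have h4 : ((R.coeff 1 : ℤ) : ℝ) ≠ 0 := by exact_mod_cast h3
    have h5 : √(q : ℝ) = ((R.coeff 0 : ℤ) : ℝ) / ((R.coeff 1 : ℤ) : ℝ) := by
      rw [eq_div_iff h4]
      linarith
    apply hirr
    rw [h5]
    exact ⟨(R.coeff 0 : ℚ) / (R.coeff 1 : ℚ), by push_cast; rfl⟩
  rw [h2, Int.cast_zero, zero_mul, zero_add] at h1
  rw [hev _ hsq, h2, ← h1, Int.cast_zero, zero_mul, zero_add]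

theorem rhr (q m : ℕ) (hq : 2 ≤ q) (hm : m ≠ 0) (V : ℤ[X]) (hV : V.Monic) (V0 : V.eval 0 ≠ 0)
    (V1 : V.eval 1 ≠ 0) (Vq : V.eval (q : ℤ) ≠ 0) (S : Finset ℂ) (μ : ℂ → ℤ)
    (hS : ∀ γ ∈ S, γ.im = 0 →
      γ = 1 ∨ γ = -1 ∨ γ = (q : ℂ) ∨ γ = -(q : ℂ) ∨ γ = -((√(q : ℝ) : ℝ) : ℂ))
    (h : ∀ r : ℕ, r ≠ 0 → ∑ γ ∈ S, (μ γ : ℂ) * γ ^ r =
      (if m ∣ r then (m : ℂ) * (q : ℂ) ^ r else 0) - ((V.aroots ℂ).map fun ρ => ρ ^ r).sum)
    (x : ℝ) (hx : aeval x V = 0) : x = -1 ∨ x = -(q : ℝ) ∨ (IsSquare q ∧ x = -√(q : ℝ)) := by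
  have hq2 : (2 : ℝ) ≤ (q : ℝ) := by exact_mod_cast hq
  have hsq : (√(q : ℝ)) ^ 2 = (q : ℝ) := Real.sq_sqrt (Nat.cast_nonneg q)
  have hs0 : 0 < √(q : ℝ) := Real.sqrt_pos.2 (by linarith)
  have h0S : (0 : ℂ) ∉ S := by
    intro h0
    have hq0 : (q : ℂ) ≠ 0 := by
      have : q ≠ 0 := by omega
      exact_mod_cast this
    rcases hS 0 h0 (by simp) with h | h | h | h | h
    · exact zero_ne_one h
    · have : (1 : ℂ) = 0 := by linear_combination h
      exact one_ne_zero this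
    · exact hq0 h.symm
    · exact hq0 (by linear_combination h)
    · have h1 : ((√(q : ℝ) : ℝ) : ℂ) = 0 := by linear_combination h
      rw [Complex.ofReal_eq_zero] at h1
      exact hs0.ne' h1
  have hcore := rhr_core q m hq hm V hV V0 Vq S μ h0S h
  have hx1 : x ≠ 1 := by
    rintro rfl
    have h1 : aeval ((1 : ℤ) : ℝ) V = ((V.eval 1 : ℤ) : ℝ) := by
      rw [aeval_def, eval₂_at_intCast]
      simp
    rw [Int.cast_one, hx] at h1
    exact V1 (by exact_mod_cast h1.symm)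
  have hxq : x ≠ (q : ℝ) := by
    rintro rfl
    have h1 : aeval ((q : ℤ) : ℝ) V = ((V.eval (q : ℤ) : ℤ) : ℝ) := by
      rw [aeval_def, eval₂_at_intCast]
      simp
    rw [Int.cast_natCast, hx] at h1
    exact Vq (by exact_mod_cast h1.symm)
  by_cases hxS : (x : ℂ) ∈ S
  · rcases hS _ hxS (Complex.ofReal_im x) with h1 | h1 | h1 | h1 | h1
    · exact absurd (by exact_mod_cast h1) hx1
    · exact Or.inl (by exact_mod_cast h1)
    · exact absurd (by exact_mod_cast h1) hxq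
    · exact Or.inr (Or.inl (by exact_mod_cast h1))
    · have h2 : x = -√(q : ℝ) := by
        have h3 : (x : ℂ) = ((-√(q : ℝ) : ℝ) : ℂ) := by rw [h1, Complex.ofReal_neg]
        exact Complex.ofReal_injective h3
      by_cases hsqr : IsSquare q
      · exact Or.inr (Or.inr ⟨hsqr, h2⟩)
      · exfalso
        rw [h2] at hx
        have h3 := rhr_conj q hsqr V hx
        have h4 : ((√(q : ℝ) : ℝ) : ℂ) ∉ S := by
          intro h5
          rcases hS _ h5 (Complex.ofReal_im _) with h6 | h6 | h6 | h6 | h6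
          · have h7 : √(q : ℝ) = 1 := by exact_mod_cast h6
            rw [h7] at hsq
            linarith
          · have h7 : √(q : ℝ) = -1 := by exact_mod_cast h6
            linarith
          · have h7 : √(q : ℝ) = (q : ℝ) := by exact_mod_cast h6
            rw [h7] at hsq
            nlinarith
          · have h7 : √(q : ℝ) = -(q : ℝ) := by exact_mod_cast h6
            linarith
          · have h7 : √(q : ℝ) = -√(q : ℝ) := by
              have h8 : ((√(q : ℝ) : ℝ) : ℂ) = ((-√(q : ℝ) : ℝ) : ℂ) := by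
                rw [Complex.ofReal_neg]; exact h6
              exact Complex.ofReal_injective h8
            linarith
        have h5 := hcore _ h3 h4
        linarith
  · exact Or.inr (Or.inl (hcore x hx hxS))

end H13.TA
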