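import Pool.Agent.H13.TA.UltA
import Pool.Agent.H80.CC.Plane

/-!
# TA-ULTB: the degree of the norm is ultrametric if there is only one place at infinity

`K = F(t)`, `A` the valuation ring of the degree valuation: `x ∈ A` iff `x.intDegree ≤ 0` (or `x = 0`, `intDegree 0 = 0`).
`A ≠ ⊤` (`t ∉ A`), `A` is a discrete valuation ring, so the only overrings are `A` and `K`. `L = K[x]/(f)`. For
`a, b ∈ O`, `b ≠ 0`, `dg a ≤ dg b`: in `L` `N(a/b) = N(a)/N(b) ∈ A` (norms over `K` of elements of `O` are the norms over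
`F[t]`: `Algebra.norm_localization` or `Algebra.norm` of a matrix, `H94.TC.isFractionRing_toField`), `N(1) ∈ A`, so
`N((a + b)/b) ∈ A` by `ulta`: `dg (a + b) ≤ dg b`.
-/

set_option autoImplicit false

open Polynomial

noncomputable section

namespace H13.TA

variable {F : Type} [Field F] {f : F[X][X]}

/-- the valuation ring of `F(t)` at infinity -/
def inftyRing (F : Type) [Field F] : ValuationSubring (RatFunc F) :=
  open Classical in (RatFunc.inftyValuation F).valuationSubring

private theorem ub_mem (x : RatFunc F) : x ∈ inftyRing F ↔ x.intDegree ≤ 0 := by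
  unfold inftyRing
  rw [Valuation.mem_valuationSubring_iff, RatFunc.inftyValuation_apply, RatFunc.inftyValuationDef]
  split_ifs with h
  · rw [h, RatFunc.intDegree_zero]
    simp
  · rw [← WithZero.exp_zero, WithZero.exp_le_exp]

private theorem ub_norm (hf : f.Monic) (a : AdjoinRoot f) :
    Algebra.norm (RatFunc F) (Pool.Agent.H80.CC.Plane.toL f a) =
      algebraMap F[X] (RatFunc F) (Algebra.norm F[X] a) := by
  classical
  have hf' : (Pool.Agent.H80.CC.Plane.overK f).Monic := hf.map _
  have hd : (AdjoinRoot.powerBasis' hf').dim = (AdjoinRoot.powerBasis' hf).dim := by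
    rw [AdjoinRoot.powerBasis'_dim, AdjoinRoot.powerBasis'_dim]
    exact hf.natDegree_map _
  obtain ⟨b, hb1⟩ : ∃ b : Module.Basis (Fin (AdjoinRoot.powerBasis' hf).dim) F[X] (AdjoinRoot f),
      ∀ i, b i = AdjoinRoot.root f ^ (i : ℕ) :=
    ⟨(AdjoinRoot.powerBasis' hf).basis, fun i => by
      rw [PowerBasis.coe_basis, AdjoinRoot.powerBasis'_gen]⟩
  obtain ⟨b', hb2⟩ : ∃ b' : Module.Basis (Fin (AdjoinRoot.powerBasis' hf).dim) (RatFunc F)
      (AdjoinRoot (Pool.Agent.H80.CC.Plane.overK f)),
      ∀ i, b' i = AdjoinRoot.root (Pool.Agent.H80.CC.Plane.overK f) ^ (i : ℕ) :=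
    ⟨(AdjoinRoot.powerBasis' hf').basis.reindex (finCongr hd), fun i => by
      rw [Module.Basis.reindex_apply, PowerBasis.coe_basis, AdjoinRoot.powerBasis'_gen]
      rfl⟩
  have hb : ∀ i, Pool.Agent.H80.CC.Plane.toL f (b i) = b' i := by
    intro i
    rw [hb1, hb2, map_pow]
    unfold Pool.Agent.H80.CC.Plane.toL
    rw [AdjoinRoot.map_root]
  have hal : ∀ c : F[X], Pool.Agent.H80.CC.Plane.toL f (algebraMap F[X] (AdjoinRoot f) c) =
      algebraMap (RatFunc F) (AdjoinRoot (Pool.Agent.H80.CC.Plane.overK f))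
        (algebraMap F[X] (RatFunc F) c) := by
    intro c
    unfold Pool.Agent.H80.CC.Plane.toL
    exact AdjoinRoot.map_of _ _ _ _ _
  have hrepr : ∀ (x : AdjoinRoot f) i, b'.repr (Pool.Agent.H80.CC.Plane.toL f x) i =
      algebraMap F[X] (RatFunc F) (b.repr x i) := by
    intro x i
    have h1 : Pool.Agent.H80.CC.Plane.toL f x =
        ∑ l, algebraMap F[X] (RatFunc F) (b.repr x l) • b' l := by
      conv_lhs => rw [← b.sum_repr x]
      rw [map_sum]
      refine Finset.sum_congr rfl (fun l _ => ?_)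
      rw [Algebra.smul_def, map_mul, hb, hal, Algebra.smul_def]
    rw [h1, b'.repr_sum_self]
  rw [Algebra.norm_eq_matrix_det b', Algebra.norm_eq_matrix_det b]
  have h2 : Algebra.leftMulMatrix b' (Pool.Agent.H80.CC.Plane.toL f a) =
      (algebraMap F[X] (RatFunc F)).mapMatrix (Algebra.leftMulMatrix b a) := by
    ext i j
    rw [RingHom.mapMatrix_apply, Matrix.map_apply, Algebra.leftMulMatrix_eq_repr_mul,
      Algebra.leftMulMatrix_eq_repr_mul, ← hb, ← map_mul, hrepr]
  rw [h2, ← RingHom.map_det]

private theorem ub_top : inftyRing F ≠ ⊤ := by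
  intro h
  have h1 : (RatFunc.X : RatFunc F) ∈ inftyRing F := by
    rw [h]
    exact ValuationSubring.mem_top _
  rw [ub_mem, RatFunc.intDegree_X] at h1
  omega

private theorem ub_max (B : ValuationSubring (RatFunc F)) (hB : inftyRing F ≤ B) :
    B = inftyRing F ∨ B = ⊤ := by
  by_cases h : B ≤ inftyRing F
  · exact Or.inl (le_antisymm h hB)
  · right
    obtain ⟨y, hy1, hy2⟩ := SetLike.not_le_iff_exists.1 h
    rw [ub_mem, not_le] at hy2
    have hy0 : y ≠ 0 := by
      rintro rfl
      rw [RatFunc.intDegree_zero] at hy2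
      exact lt_irrefl _ hy2
    refine le_antisymm le_top (fun z _ => ?_)
    by_cases hz : z = 0
    · rw [hz]
      exact B.zero_mem
    have hpow : ∀ n : ℕ, (y ^ n).intDegree = n * y.intDegree := by
      intro n
      induction n with
      | zero => simp
      | succ n ih =>
        rw [pow_succ, RatFunc.intDegree_mul (pow_ne_zero n hy0) hy0, ih]
        push_cast
        ring
    have h1 : z / y ^ z.intDegree.natAbs ∈ inftyRing F := by
      rw [ub_mem, RatFunc.intDegree_div hz (pow_ne_zero _ hy0), hpow]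
      have h2 : z.intDegree ≤ (z.intDegree.natAbs : ℤ) := Int.le_natAbs
      nlinarith [Int.natCast_nonneg z.intDegree.natAbs]
    have h3 := B.mul_mem _ _ (hB h1) (B.toSubring.pow_mem hy1 z.intDegree.natAbs)
    rwa [div_mul_cancel₀ _ (pow_ne_zero _ hy0)] at h3

theorem ultb (hf : f.Monic) [IsDomain (AdjoinRoot f)]
    [Fact (Irreducible (Pool.Agent.H80.CC.Plane.overK f))]
    (huniq : ∀ R R' : ValuationSubring (AdjoinRoot (Pool.Agent.H80.CC.Plane.overK f)),
      R.comap (algebraMap (RatFunc F) (AdjoinRoot (Pool.Agent.H80.CC.Plane.overK f))) = inftyRing F →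
      R'.comap (algebraMap (RatFunc F) (AdjoinRoot (Pool.Agent.H80.CC.Plane.overK f))) = inftyRing F →
      R = R') (a b : AdjoinRoot f) : dg f (a + b) ≤ max (dg f a) (dg f b) := by
  classical
  have hf' : (Pool.Agent.H80.CC.Plane.overK f).Monic := hf.map _
  have hfin : FiniteDimensional (RatFunc F) (AdjoinRoot (Pool.Agent.H80.CC.Plane.overK f)) :=
    hf'.finite_adjoinRoot
  have key : ∀ a b : AdjoinRoot f, dg f a ≤ dg f b → b ≠ 0 → dg f (a + b) ≤ dg f b := by
    intro a b hab hb
    have hNb : Algebra.norm F[X] b ≠ 0 := norm_ne hf hb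
    have hNb' : algebraMap F[X] (RatFunc F) (Algebra.norm F[X] b) ≠ 0 := by
      simpa using hNb
    have hLb : Pool.Agent.H80.CC.Plane.toL f b ≠ 0 := by
      intro h0
      rw [← ub_norm hf, h0] at hNb'
      apply hNb'
      rw [Algebra.norm_eq_zero_iff]
    have hmem : ∀ c : AdjoinRoot f, (Algebra.norm (RatFunc F)
        (Pool.Agent.H80.CC.Plane.toL f c / Pool.Agent.H80.CC.Plane.toL f b) ∈ inftyRing F ↔
        dg f c ≤ dg f b) := by
      intro c
      have hN : Algebra.norm (RatFunc F) (Pool.Agent.H80.CC.Plane.toL f c /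
          Pool.Agent.H80.CC.Plane.toL f b) =
          algebraMap F[X] (RatFunc F) (Algebra.norm F[X] c) /
            algebraMap F[X] (RatFunc F) (Algebra.norm F[X] b) := by
        rw [eq_div_iff hNb', ← ub_norm hf, ← map_mul, div_mul_cancel₀ _ hLb, ub_norm hf]
      rw [hN, ub_mem]
      unfold dg
      by_cases hc : Algebra.norm F[X] c = 0
      · rw [hc, map_zero, zero_div, RatFunc.intDegree_zero, natDegree_zero]
        simp
      · rw [RatFunc.intDegree_div (by simpa using hc) hNb', RatFunc.intDegree_polynomial,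
          RatFunc.intDegree_polynomial]
        omega
    have h1 := ulta (inftyRing F) ub_top ub_max huniq
      (Pool.Agent.H80.CC.Plane.toL f a / Pool.Agent.H80.CC.Plane.toL f b)
      (Pool.Agent.H80.CC.Plane.toL f b / Pool.Agent.H80.CC.Plane.toL f b)
      ((hmem a).2 hab) ((hmem b).2 le_rfl)
    rw [← add_div, ← map_add] at h1
    exact (hmem (a + b)).1 h1
  by_cases hb : b = 0
  · rw [hb, add_zero]
    exact le_max_left _ _
  by_cases ha : a = 0
  · rw [ha, zero_add]
    exact le_max_right _ _
  rcases le_total (dg f a) (dg f b) with h | h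
  · exact (key a b h hb).trans (le_max_right _ _)
  · rw [add_comm]
    exact (key b a h ha).trans (le_max_left _ _)

end H13.TA
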