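import Pool.Agent.H13.TA.Bas

/-!
# TA-SMA: on a smooth curve the maximal ideals are locally principal

`P ⊂ O = F[t][x]/(f)` maximal. `O` is integral over `F[t]`, so `P ∩ F[t] = (p)`, `p` irreducible (or work directly: `P` is
nonzero as `F[t]` is not a field), and `O/P` is generated over `k = F[t]/(p)` by the class of `x`; let `h ∈ F[t][x]` be monic
with reduction the minimal polynomial of that class: the preimage of `P` in `F[t][x]` is `(p, h)` (it contains `f`). So
`f = h g + p u` in `F[t][x]`. In `O`: `h g = - p u`. If `g ∉ P` then `h ∈ p O_P`, so `P O_P = (p)`; if `u ∉ P` then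
`p ∈ h O_P`, so `P O_P = (h)`. If `g` and `u` are both in `(p, h)` (the preimage of `P`), then `f ∈ (p, h) ^ 2`, and both
derivatives (`derivative`, `dt`, both satisfy the Leibniz rule) map `(p, h) ^ 2` into `(p, h)`: so `f`, `f_x`, `f_t` are in
the proper ideal `(p, h)`, against `hs`.
-/

set_option autoImplicit false

open Polynomial

noncomputable section

namespace H13.TA

variable {F : Type} [Field F] {f : F[X][X]}

private theorem dt_coeff (g : F[X][X]) (n : ℕ) : (dt g).coeff n = derivative (g.coeff n) := by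
  unfold dt
  rw [Polynomial.sum_def, finsetSum_coeff]
  simp only [coeff_monomial]
  rw [Finset.sum_ite_eq' g.support n]
  by_cases hn : n ∈ g.support
  · rw [if_pos hn]
  · rw [if_neg hn, notMem_support_iff.1 hn, derivative_zero]

theorem dt_add (g h : F[X][X]) : dt (g + h) = dt g + dt h := by
  ext1 n
  rw [dt_coeff, coeff_add, coeff_add, dt_coeff, dt_coeff, derivative_add]

theorem dt_mul (g h : F[X][X]) : dt (g * h) = dt g * h + g * dt h := by
  ext1 n
  rw [dt_coeff, coeff_mul, coeff_add, coeff_mul, coeff_mul, derivative_sum,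
    ← Finset.sum_add_distrib]
  refine Finset.sum_congr rfl fun x _ => ?_
  rw [dt_coeff, dt_coeff, derivative_mul]

theorem sm_local (hf : f.Monic) [IsDomain (AdjoinRoot f)]
    (hs : Ideal.span {f, derivative f, dt f} = ⊤) (P : Ideal (AdjoinRoot f)) [P.IsMaximal] :
    (IsLocalRing.maximalIdeal (Localization.AtPrime P)).IsPrincipal := by
  classical
  have hfin := hf.finite_adjoinRoot
  have hPm : P.IsMaximal := inferInstance
  have hPp : P.IsPrime := hPm.isPrime
  set π : F[X][X] →+* AdjoinRoot f := AdjoinRoot.mk f with hπ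
  have hπs : Function.Surjective π := AdjoinRoot.mk_surjective
  set Q : Ideal F[X][X] := P.comap π with hQ
  have hQp : Q.IsPrime := Ideal.comap_isPrime π P
  have hQt : Q ≠ ⊤ := hQp.ne_top
  have hfQ : f ∈ Q := by
    rw [hQ, Ideal.mem_comap, hπ, AdjoinRoot.mk_self]
    exact P.zero_mem
  -- the contraction to `F[t]`
  have hint : Algebra.IsIntegral F[X] (AdjoinRoot f) := Algebra.IsIntegral.of_finite _ _
  have hI : (P.comap (algebraMap F[X] (AdjoinRoot f))).IsMaximal :=
    Ideal.isMaximal_comap_of_isIntegral_of_isMaximal P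
  set I : Ideal F[X] := P.comap (algebraMap F[X] (AdjoinRoot f)) with hIdef
  have hIC : ∀ c : F[X], c ∈ I ↔ (C c : F[X][X]) ∈ Q := by
    intro c
    rw [hIdef, hQ, Ideal.mem_comap, Ideal.mem_comap]
    rfl
  obtain ⟨p, hp⟩ : ∃ p : F[X], I = Ideal.span {p} := by
    obtain ⟨p, hp⟩ := (IsPrincipalIdealRing.principal I).principal
    exact ⟨p, hp⟩
  let _ : Field (F[X] ⧸ I) := Ideal.Quotient.field I
  set ρ : F[X][X] →+* (F[X] ⧸ I)[X] := mapRingHom (Ideal.Quotient.mk I) with hρ
  have hρs : Function.Surjective ρ := by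
    rw [hρ, coe_mapRingHom]
    exact Polynomial.map_surjective _ Ideal.Quotient.mk_surjective
  have hker : ∀ q : F[X][X], ρ q = 0 → ∃ a, q = C p * a := by
    intro q hq
    have h1 : (C p : F[X][X]) ∣ q := by
      rw [C_dvd_iff_dvd_coeff]
      intro i
      have h2 : (ρ q).coeff i = 0 := by rw [hq, coeff_zero]
      rw [hρ, coe_mapRingHom, coeff_map, Ideal.Quotient.eq_zero_iff_mem, hp,
        Ideal.mem_span_singleton] at h2
      exact h2
    exact h1
  obtain ⟨z, hz⟩ : ∃ z, Q.map ρ = Ideal.span {z} := by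
    obtain ⟨z, hz⟩ := (IsPrincipalIdealRing.principal (Q.map ρ)).principal
    exact ⟨z, hz⟩
  obtain ⟨h, hh, hhz⟩ : ∃ h ∈ Q, ρ h = z := by
    have : z ∈ Q.map ρ := by
      rw [hz]
      exact Ideal.mem_span_singleton_self z
    obtain ⟨h, h1, h2⟩ := (Ideal.mem_map_iff_of_surjective ρ hρs).1 this
    exact ⟨h, h1, h2⟩
  have hpQ : (C p : F[X][X]) ∈ Q := by
    rw [← hIC, hp]
    exact Ideal.mem_span_singleton_self p
  have hgen : ∀ q ∈ Q, ∃ a b, q = h * b + C p * a := by
    intro q hq
    have h1 : ρ q ∈ Q.map ρ := Ideal.mem_map_of_mem ρ hq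
    rw [hz, Ideal.mem_span_singleton] at h1
    obtain ⟨b', hb'⟩ := h1
    obtain ⟨b, rfl⟩ := hρs b'
    obtain ⟨a, ha⟩ := hker (q - h * b) (by rw [map_sub, map_mul, hhz, hb', sub_self])
    exact ⟨a, b, by rw [← ha]; ring⟩
  obtain ⟨u, g, hgu⟩ := hgen f hfQ
  -- the maximal ideal
  set ι : AdjoinRoot f →+* Localization.AtPrime P := algebraMap _ _ with hι
  have hmax : IsLocalRing.maximalIdeal (Localization.AtPrime P) = P.map ι :=
    (Localization.AtPrime.map_eq_maximalIdeal).symm
  have hPgen : ∀ y ∈ P, ∃ a b, y = π h * b + π (C p) * a := by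
    intro y hy
    obtain ⟨q, rfl⟩ := hπs y
    obtain ⟨a, b, hab⟩ := hgen q hy
    exact ⟨π a, π b, by rw [hab, map_add, map_mul, map_mul]⟩
  have hrel : π h * π g + π (C p) * π u = 0 := by
    rw [← map_mul, ← map_mul, ← map_add, ← hgu, hπ, AdjoinRoot.mk_self]
  have hrel' : ι (π h) * ι (π g) + ι (π (C p)) * ι (π u) = 0 := by
    have h1 := congrArg ι hrel
    rwa [map_add, map_mul, map_mul, map_zero] at h1
  have hhP : π h ∈ P := hh
  have hpP : π (C p) ∈ P := hpQ
  have hunit : ∀ q : F[X][X], q ∉ Q → IsUnit (ι (π q)) := by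
    intro q hq
    exact IsLocalization.map_units (Localization.AtPrime P) (⟨π q, hq⟩ : P.primeCompl)
  by_cases hg : g ∈ Q
  · by_cases hu : u ∈ Q
    · exfalso
      apply hQt
      rw [eq_top_iff, ← hs, Ideal.span_le]
      rintro w (rfl | rfl | rfl)
      · exact hfQ
      · show derivative f ∈ Q
        rw [hgu, derivative_add, derivative_mul, derivative_mul, derivative_C]
        refine Q.add_mem (Q.add_mem (Q.mul_mem_left _ hg) (Q.mul_mem_right _ hh))
          (Q.add_mem ?_ (Q.mul_mem_right _ hpQ))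
        rw [zero_mul]
        exact Q.zero_mem
      · show dt f ∈ Q
        rw [hgu, dt_add, dt_mul, dt_mul]
        exact Q.add_mem (Q.add_mem (Q.mul_mem_left _ hg) (Q.mul_mem_right _ hh))
          (Q.add_mem (Q.mul_mem_left _ hu) (Q.mul_mem_right _ hpQ))
    · obtain ⟨v, hv⟩ := (hunit u hu).exists_right_inv
      refine ⟨ι (π h), ?_⟩
      rw [hmax]
      apply le_antisymm
      · rw [Ideal.map_le_iff_le_comap]
        intro y hy
        obtain ⟨a, b, rfl⟩ := hPgen y hy
        rw [Ideal.mem_comap, Ideal.submodule_span_eq, Ideal.mem_span_singleton]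
        have h1 : ι (π (C p)) = ι (π h) * (- ι (π g) * v) := by
          linear_combination (- ι (π (C p))) * hv + v * hrel'
        rw [map_add, map_mul, map_mul, h1]
        exact ⟨ι b + (- ι (π g) * v) * ι a, by ring⟩
      · rw [Ideal.submodule_span_eq, Ideal.span_singleton_le_iff_mem]
        exact Ideal.mem_map_of_mem ι hhP
  · obtain ⟨v, hv⟩ := (hunit g hg).exists_right_inv
    refine ⟨ι (π (C p)), ?_⟩
    rw [hmax]
    apply le_antisymm
    · rw [Ideal.map_le_iff_le_comap]
      intro y hy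
      obtain ⟨a, b, rfl⟩ := hPgen y hy
      rw [Ideal.mem_comap, Ideal.submodule_span_eq, Ideal.mem_span_singleton]
      have h1 : ι (π h) = ι (π (C p)) * (- ι (π u) * v) := by
        linear_combination (- ι (π h)) * hv + v * hrel'
      rw [map_add, map_mul, map_mul, h1]
      exact ⟨(- ι (π u) * v) * ι b + ι a, by ring⟩
    · rw [Ideal.submodule_span_eq, Ideal.span_singleton_le_iff_mem]
      exact Ideal.mem_map_of_mem ι hpP

end H13.TA
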