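import Pool.Agent.H13.TA.Bas

/-!
# TA-ULTA: only one valuation ring above the place at infinity

`A` a valuation subring of `K` (`≠ ⊤`), `L/K` finite. Assume that there is at most one valuation subring `R` of `L` with
`R ∩ K = A`, and that `A` is a maximal proper subring (its only overrings in `K` which are valuation rings are `A` and `⊤`: `hA`).
Claim: for `x ∈ L`: `x` is integral over `A` iff `N(x) ∈ A`.
Proof. (1) If `x` is not integral over `A`, then `x⁻¹` is not a unit in `A[x⁻¹]`; there is a valuation ring `R ⊃ A[x⁻¹]` of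
`L` with `x⁻¹` in its maximal ideal (`LocalSubring.exists_valuationRing_of_isMax`, or the Mathlib proof that the integral
closure is an intersection of valuation rings). `R ∩ K ⊇ A` is not `K` (else `R ⊃ K` is integrally closed, `R = L`), so
it is `A`; so `R` is the unique one `R₀`. (2) The integral closure `B` is in every `R` above `A`. So `B = R₀`: if
`x ∈ R₀` is not integral, `x⁻¹` is in the maximal ideal of `R₀`, contradiction. (If all `x` are integral, `B = L`, but
then `K` is integral over `A`, `A = K`.) (3) `x ∈ B` implies `N(x) ∈ A` (`Algebra.isIntegral_norm`, `A` integrally closed).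
If `x ∉ B`, then `y = x⁻¹ ∈ B` is a non-unit of `B`; `N(y) = ± y (y ^ (d-1) + ..)`, a multiple of `y` in `B` (characteristic
polynomial of `y` has coefficients in `A`), so it is a non-unit of `A`, so `N(x) = N(y)⁻¹ ∉ A`.
-/

set_option autoImplicit false

open Polynomial

noncomputable section

namespace H13.TA

/-- a valuation subring of `L` which contains the integral closure of `A` and is not `L` lies above `A` -/
private theorem above {K L : Type} [Field K] [Field L] [Algebra K L] [FiniteDimensional K L]
    (A : ValuationSubring K) (hA : ∀ B : ValuationSubring K, A ≤ B → B = A ∨ B = ⊤)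
    (V : ValuationSubring L) (hV : (integralClosure A L).toSubring ≤ V.toSubring) {x : L} (hx : x ∉ V) :
    V.comap (algebraMap K L) = A := by
  have h1 : A ≤ V.comap (algebraMap K L) := by
    intro a ha
    rw [ValuationSubring.mem_comap]
    have h2 : algebraMap K L a ∈ (integralClosure A L).toSubring := by
      show IsIntegral A (algebraMap K L a)
      exact isIntegral_algebraMap (R := A) (A := L) (x := ⟨a, ha⟩)
    exact hV h2
  rcases hA _ h1 with h2 | h2
  · exact h2
  · exfalso
    apply hx
    have h3 : IsIntegral K x := Algebra.IsIntegral.isIntegral x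
    have h4 : IsIntegral V x := by
      obtain ⟨p, hp, hpx⟩ := h3
      have h5 : ∀ c : K, algebraMap K L c ∈ V.toSubring := by
        intro c
        have : c ∈ V.comap (algebraMap K L) := by rw [h2]; exact ValuationSubring.mem_top c
        exact this
      refine ⟨p.map ((algebraMap K L).codRestrict V.toSubring h5), hp.map _, ?_⟩
      rw [eval₂_map]
      have h6 : ((algebraMap V L).comp ((algebraMap K L).codRestrict V.toSubring h5)) = algebraMap K L :=
        RingHom.ext fun c => rfl
      rw [← hpx]
      exact congrArg (fun f : K →+* L => eval₂ f x p) h6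
    obtain ⟨v, hv⟩ := (IsIntegrallyClosed.isIntegral_iff (R := V) (K := L)).1 h4
    rw [← hv]
    exact v.2

/-- elements with norm in `A` are integral -/
private theorem integral_of_norm {K L : Type} [Field K] [Field L] [Algebra K L] [FiniteDimensional K L]
    (A : ValuationSubring K) (hA : ∀ B : ValuationSubring K, A ≤ B → B = A ∨ B = ⊤)
    (huniq : ∀ R R' : ValuationSubring L, R.comap (algebraMap K L) = A →
      R'.comap (algebraMap K L) = A → R = R') (x : L) (hx : Algebra.norm K x ∈ A) :
    IsIntegral A x := by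
  by_contra hxB
  have hx0 : x ≠ 0 := by
    rintro rfl
    exact hxB isIntegral_zero
  have hx1 : x ∉ (integralClosure A L).toSubring := hxB
  obtain ⟨V, hV1, hV2⟩ := Subring.exists_le_valuationSubring_of_isIntegrallyClosedIn hx1
  have hy : IsIntegral A x⁻¹ := by
    by_contra hyB
    have hy1 : x⁻¹ ∉ (integralClosure A L).toSubring := hyB
    obtain ⟨W, hW1, hW2⟩ := Subring.exists_le_valuationSubring_of_isIntegrallyClosedIn hy1
    have h1 := huniq V W (above A hA V hV1 hV2) (above A hA W hW1 hW2)
    rw [← h1] at hW2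
    rcases V.mem_or_inv_mem x with h2 | h2
    · exact hV2 h2
    · exact hW2 h2
  have hyK : IsIntegral K x⁻¹ := Algebra.IsIntegral.isIntegral _
  obtain ⟨c, hc⟩ : ∃ c : A, c = (minpoly A x⁻¹).coeff 0 := ⟨_, rfl⟩
  have hmin : minpoly K x⁻¹ = (minpoly A x⁻¹).map (algebraMap A K) :=
    minpoly.isIntegrallyClosed_eq_field_fractions' K hy
  obtain ⟨d, hd⟩ : ∃ d, d = Module.finrank (IntermediateField.adjoin K {x⁻¹}) L := ⟨_, rfl⟩
  have hd0 : d ≠ 0 := by
    rw [hd]
    exact Module.finrank_pos.ne'
  obtain ⟨n, hn⟩ : ∃ n, n = (IntermediateField.adjoin.powerBasis hyK).dim := ⟨_, rfl⟩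
  have hnorm : Algebra.norm K x⁻¹ = ((-1) ^ n * (algebraMap A K) c) ^ d := by
    rw [Algebra.norm_eq_norm_adjoin, ← hd]
    congr 1
    have h1 := Algebra.PowerBasis.norm_gen_eq_coeff_zero_minpoly (IntermediateField.adjoin.powerBasis hyK)
    rw [IntermediateField.adjoin.powerBasis_gen, IntermediateField.minpoly_gen, hmin, coeff_map, ← hc,
      ← hn] at h1
    exact h1
  have h1 : Algebra.norm K x * ((-1) ^ n * (algebraMap A K) c) ^ d = 1 := by
    rw [← hnorm, ← map_mul, mul_inv_cancel₀ hx0, map_one]
  -- `c` is a unit of `A`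
  obtain ⟨e, rfl⟩ := Nat.exists_eq_succ_of_ne_zero hd0
  obtain ⟨u, hu⟩ : ∃ u : A, c * u = 1 := by
    refine ⟨⟨Algebra.norm K x, hx⟩ * ((-1) ^ n) ^ (e + 1) * c ^ e, ?_⟩
    apply (IsFractionRing.injective A K)
    rw [map_one, ← h1]
    simp only [map_mul, map_pow, map_neg, map_one]
    have h2 : algebraMap A K ⟨Algebra.norm K x, hx⟩ = Algebra.norm K x := rfl
    rw [h2, Nat.succ_eq_add_one]
    ring
  have h2 : x⁻¹ * aeval x⁻¹ (minpoly A x⁻¹).divX = - algebraMap A L c := by
    have h3 := minpoly.aeval A x⁻¹
    rw [← divX_mul_X_add (minpoly A x⁻¹), map_add, map_mul, aeval_X, aeval_C, ← hc] at h3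
    rw [mul_comm]
    exact eq_neg_of_add_eq_zero_left h3
  have h3 : x = - (aeval x⁻¹ (minpoly A x⁻¹).divX * algebraMap A L u) := by
    have h4 : x⁻¹ * (- (aeval x⁻¹ (minpoly A x⁻¹).divX * algebraMap A L u)) = 1 := by
      have h5 : algebraMap A L c * algebraMap A L u = 1 := by rw [← map_mul, hu, map_one]
      linear_combination (- algebraMap A L u) * h2 + h5
    have h6 := congrArg (fun z => x * z) h4
    simp only [← mul_assoc, mul_inv_cancel₀ hx0, one_mul, mul_one] at h6
    exact h6.symm
  apply hxB
  rw [h3]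
  refine IsIntegral.neg (IsIntegral.mul ?_ isIntegral_algebraMap)
  have h7 : aeval x⁻¹ (minpoly A x⁻¹).divX ∈ integralClosure A L := by
    have h8 : x⁻¹ ∈ integralClosure A L := hy
    have h9 : aeval x⁻¹ (minpoly A x⁻¹).divX ∈ Algebra.adjoin A {x⁻¹} := aeval_mem_adjoin_singleton A x⁻¹
    exact (Algebra.adjoin_le (S := integralClosure A L) (Set.singleton_subset_iff.2 h8)) h9
  exact h7

theorem ulta {K L : Type} [Field K] [Field L] [Algebra K L] [FiniteDimensional K L]
    (A : ValuationSubring K) (hA1 : A ≠ ⊤) (hA : ∀ B : ValuationSubring K, A ≤ B → B = A ∨ B = ⊤)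
    (huniq : ∀ R R' : ValuationSubring L, R.comap (algebraMap K L) = A →
      R'.comap (algebraMap K L) = A → R = R') (x y : L) (hx : Algebra.norm K x ∈ A)
    (hy : Algebra.norm K y ∈ A) : Algebra.norm K (x + y) ∈ A := by
  have h1 := integral_of_norm A hA huniq x hx
  have h2 := integral_of_norm A hA huniq y hy
  have h3 := Algebra.isIntegral_norm K (h1.add h2)
  obtain ⟨v, hv⟩ := (IsIntegrallyClosed.isIntegral_iff (R := A) (K := K)).1 h3
  rw [← hv]
  exact v.2

end H13.TA
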